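import Pool.Agent.U15.DP.Num

set_option autoImplicit false

/-!
# Residues on the hexagon: the basic functions
-/

namespace Pool.Agent.U866.HX

open Finset Pool.Agent.U15.DP

section

variable {ι : Type} [Fintype ι] {n : ℕ} [NeZero n]

/-- `0` or `1` -/
def nz (z : ZMod n) : ℚ := if z = 0 then 0 else 1

/-- the weighted number of the `i` with `m * c i ≠ 0` -/
def M (w : ι → ℕ) (c : ι → ZMod n) (m : ZMod n) : ℚ := ∑ i, (w i : ℚ) * nz (m * c i)

/-- the intersection number of the eigensheaf with a class which meets three boundary curves -/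
def T (w : ι → ℕ) (c : ι → ZMod n) (p q r m : ZMod n) : ℚ :=
  L w c m + fr (m * p) + fr (m * q) + fr (m * r)

omit [NeZero n] in
theorem nz_zero : nz (0 : ZMod n) = 0 := if_pos rfl

omit [NeZero n] in
theorem nz_of_ne {z : ZMod n} (h : z ≠ 0) : nz z = 1 := if_neg h

omit [NeZero n] in
theorem nz_nonneg (z : ZMod n) : 0 ≤ nz z := by
  unfold nz
  split_ifs <;> norm_num

omit [NeZero n] in
theorem nz_le_one (z : ZMod n) : nz z ≤ 1 := by
  unfold nz
  split_ifs <;> norm_num

omit [NeZero n] in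
theorem nz_cases (z : ZMod n) : (z = 0 ∧ nz z = 0) ∨ (z ≠ 0 ∧ nz z = 1) := by
  by_cases h : z = 0
  · exact Or.inl ⟨h, by rw [h, nz_zero]⟩
  · exact Or.inr ⟨h, nz_of_ne h⟩

theorem fr_add_fr_neg (z : ZMod n) : fr z + fr (-z) = nz z := by
  rcases nz_cases z with ⟨h, h'⟩ | ⟨h, h'⟩
  · rw [h', h, neg_zero, fr_zero, add_zero]
  · rw [h', fr_neg_of_ne h]
    ring

omit [NeZero n] in
theorem nz_mul_le (m z : ZMod n) : nz (m * z) ≤ nz z := by
  rcases nz_cases z with ⟨h, h'⟩ | ⟨h, h'⟩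
  · rw [h, mul_zero]
  · rw [h']
    exact nz_le_one _

omit [NeZero n] in
theorem nz_neg (z : ZMod n) : nz (-z) = nz z := by
  unfold nz
  simp only [neg_eq_zero]

/-- no zero without a carry -/
theorem nz_sub_le (a b : ZMod n) : nz b - nz (a + b) ≤ fr a + fr b - fr (a + b) := by
  have h0 := fr_add_le a b
  rcases nz_cases b with ⟨h, h'⟩ | ⟨h, h'⟩
  · have := nz_nonneg (a + b)
    linarith
  · rcases nz_cases (a + b) with ⟨g, g'⟩ | ⟨g, g'⟩
    · have h1 : a = -b := by linear_combination g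
      have h2 := fr_add_fr_neg b
      rw [g', g, h', h1, fr_zero]
      linarith
    · linarith

theorem fr_le_nz (m z : ZMod n) : fr (m * z) ≤ (1 - 1 / n) * nz z := by
  rcases nz_cases z with ⟨h, h'⟩ | ⟨h, h'⟩
  · rw [h', h, mul_zero, fr_zero, mul_zero]
  · rw [h', mul_one]
    unfold fr
    have hn := cast_pos' (n := n)
    rw [div_le_iff₀ hn, sub_mul, one_div, inv_mul_cancel₀ hn.ne', one_mul]
    have h1 : (m * z).val + 1 ≤ n := ZMod.val_lt _
    have h2 : ((m * z).val : ℚ) + 1 ≤ n := by exact_mod_cast h1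
    linarith

/-- integers -/
def IsI (a : ℚ) : Prop := ∃ t : ℤ, a = t

theorem IsI.add {a b : ℚ} (ha : IsI a) (hb : IsI b) : IsI (a + b) := by
  obtain ⟨s, rfl⟩ := ha
  obtain ⟨t, rfl⟩ := hb
  exact ⟨s + t, by push_cast; ring⟩

theorem IsI.sub {a b : ℚ} (ha : IsI a) (hb : IsI b) : IsI (a - b) := by
  obtain ⟨s, rfl⟩ := ha
  obtain ⟨t, rfl⟩ := hb
  exact ⟨s - t, by push_cast; ring⟩

theorem IsI.le_of_lt {a b : ℚ} (ha : IsI a) (hb : IsI b) (h : a < b + 1) : a ≤ b := by
  obtain ⟨s, rfl⟩ := ha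
  obtain ⟨t, rfl⟩ := hb
  have : s < t + 1 := by exact_mod_cast h
  have : s ≤ t := by omega
  exact_mod_cast this

theorem isI_nat (a : ℕ) : IsI (a : ℚ) := ⟨a, by push_cast; rfl⟩

theorem isI_one : IsI 1 := ⟨1, by norm_num⟩

theorem isI_two : IsI 2 := ⟨2, by norm_num⟩

theorem isI_three : IsI 3 := ⟨3, by norm_num⟩

omit [NeZero n] in
theorem isI_nz (z : ZMod n) : IsI (nz z) := by
  rcases nz_cases z with ⟨_, h⟩ | ⟨_, h⟩
  · exact ⟨0, by rw [h]; norm_num⟩
  · exact ⟨1, by rw [h]; norm_num⟩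

omit [NeZero n] in
theorem isI_M (w : ι → ℕ) (c : ι → ZMod n) (m : ZMod n) : IsI (M w c m) := by
  refine ⟨∑ i, (w i : ℤ) * (if m * c i = 0 then 0 else 1), ?_⟩
  unfold M nz
  push_cast
  rfl

theorem isI_T {w : ι → ℕ} {c : ι → ZMod n} {p q r : ZMod n}
    (h : ∑ i, w i • c i + p + q + r = 0) (m : ZMod n) : IsI (T w c p q r m) := by
  have hn := cast_pos' (n := n)
  have h1 : ((∑ i, w i * (m * c i).val + (m * p).val + (m * q).val + (m * r).val : ℕ) : ZMod n) =
      0 := by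
    push_cast
    simp only [ZMod.natCast_zmod_val]
    have h2 : m * (∑ i, w i • c i + p + q + r) = 0 := by rw [h, mul_zero]
    simp only [nsmul_eq_mul] at h2
    rw [← h2, mul_add, mul_add, mul_add, Finset.mul_sum]
    congr 3
    apply Finset.sum_congr rfl
    intro i _
    ring
  obtain ⟨t, ht⟩ := (ZMod.natCast_eq_zero_iff _ _).mp h1
  refine ⟨t, ?_⟩
  have h3 : ((∑ i, w i * (m * c i).val + (m * p).val + (m * q).val + (m * r).val : ℕ) : ℚ) =
      ((n * t : ℕ) : ℚ) := by exact_mod_cast ht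
  push_cast at h3
  unfold T L fr
  have h4 : ∑ i, (w i : ℚ) * (((m * c i).val : ℚ) / n) = (∑ i, (w i : ℚ) * (m * c i).val) / n := by
    rw [Finset.sum_div]
    apply Finset.sum_congr rfl
    intro i _
    ring
  rw [h4, ← add_div, ← add_div, ← add_div, h3]
  push_cast
  field_simp

theorem T_nonneg (w : ι → ℕ) (c : ι → ZMod n) (p q r m : ZMod n) : 0 ≤ T w c p q r m := by
  unfold T L
  have h1 : 0 ≤ ∑ i, (w i : ℚ) * fr (m * c i) :=
    Finset.sum_nonneg fun i _ => mul_nonneg (Nat.cast_nonneg _) (fr_nonneg _)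
  have h2 := fr_nonneg (m * p)
  have h3 := fr_nonneg (m * q)
  have h4 := fr_nonneg (m * r)
  linarith

theorem T_add_le (w : ι → ℕ) (c : ι → ZMod n) (p q r u v : ZMod n) :
    T w c p q r (u + v) ≤ T w c p q r u + T w c p q r v := by
  unfold T
  have h1 := L_add_le w c u v
  have h2 := fr_add_le (u * p) (v * p)
  have h3 := fr_add_le (u * q) (v * q)
  have h4 := fr_add_le (u * r) (v * r)
  rw [← add_mul] at h2 h3 h4
  linarith

theorem L_pair (w : ι → ℕ) (c : ι → ZMod n) (m : ZMod n) :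
    L w c m + L w c (-m) = M w c m := by
  unfold L M
  rw [← Finset.sum_add_distrib]
  apply Finset.sum_congr rfl
  intro i _
  rw [← mul_add, neg_mul, fr_add_fr_neg]

theorem T_pair (w : ι → ℕ) (c : ι → ZMod n) (p q r m : ZMod n) :
    T w c p q r m + T w c p q r (-m) = M w c m + nz (m * p) + nz (m * q) + nz (m * r) := by
  unfold T
  have h1 := L_pair w c m
  have h2 := fr_add_fr_neg (m * p)
  have h3 := fr_add_fr_neg (m * q)
  have h4 := fr_add_fr_neg (m * r)
  simp only [neg_mul]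
  linarith

omit [NeZero n] in
theorem M_le (w : ι → ℕ) (c : ι → ZMod n) (m : ZMod n) : M w c m ≤ M w c 1 := by
  unfold M
  apply Finset.sum_le_sum
  intro i _
  rw [one_mul]
  exact mul_le_mul_of_nonneg_left (nz_mul_le _ _) (Nat.cast_nonneg _)

omit [NeZero n] in
theorem M_nonneg (w : ι → ℕ) (c : ι → ZMod n) (m : ZMod n) : 0 ≤ M w c m :=
  Finset.sum_nonneg fun _ _ => mul_nonneg (Nat.cast_nonneg _) (nz_nonneg _)

omit [NeZero n] in
theorem M_neg (w : ι → ℕ) (c : ι → ZMod n) (m : ZMod n) : M w c (-m) = M w c m := by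
  unfold M
  simp only [neg_mul, nz_neg]

theorem M_sub_le (w : ι → ℕ) (c : ι → ZMod n) (u v : ZMod n) :
    M w c v - M w c (u + v) ≤ L w c u + L w c v - L w c (u + v) := by
  unfold M L
  rw [← Finset.sum_sub_distrib, ← Finset.sum_add_distrib, ← Finset.sum_sub_distrib]
  apply Finset.sum_le_sum
  intro i _
  have h := nz_sub_le (u * c i) (v * c i)
  rw [← add_mul] at h
  have h2 := mul_le_mul_of_nonneg_left h (Nat.cast_nonneg (α := ℚ) (w i))
  linarith

/-- the number of the branch points does not drop without a carry -/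
theorem T_sub_le (w : ι → ℕ) (c : ι → ZMod n) (p q r u v : ZMod n) :
    (T w c p q r v + T w c p q r (-v)) - (T w c p q r (u + v) + T w c p q r (-(u + v))) ≤
      T w c p q r u + T w c p q r v - T w c p q r (u + v) := by
  rw [T_pair, T_pair]
  unfold T
  have h1 := M_sub_le w c u v
  have h2 := nz_sub_le (u * p) (v * p)
  have h3 := nz_sub_le (u * q) (v * q)
  have h4 := nz_sub_le (u * r) (v * r)
  rw [← add_mul] at h2 h3 h4
  linarith

omit [NeZero n] in
theorem M_mono {d e : ι → ℕ} {c : ι → ZMod n} {m : ZMod n} (h : ∀ i, c i ≠ 0 → d i ≤ e i) :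
    M d c m ≤ M e c m := by
  unfold M
  apply Finset.sum_le_sum
  intro i _
  by_cases hi : c i = 0
  · rw [hi, mul_zero, nz_zero, mul_zero, mul_zero]
  · exact mul_le_mul_of_nonneg_right (by exact_mod_cast h i hi) (nz_nonneg _)

omit [NeZero n] in
theorem M_congr {d e : ι → ℕ} {c : ι → ZMod n} {m : ZMod n} (h : ∀ i, c i ≠ 0 → d i = e i) :
    M d c m = M e c m :=
  le_antisymm (M_mono fun i hi => (h i hi).le) (M_mono fun i hi => (h i hi).ge)

omit [NeZero n] in
theorem M_add (d e : ι → ℕ) (c : ι → ZMod n) (m : ZMod n) :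
    M (fun i => d i + e i) c m = M d c m + M e c m := by
  unfold M
  rw [← Finset.sum_add_distrib]
  apply Finset.sum_congr rfl
  intro i _
  push_cast
  ring

omit [NeZero n] in
theorem L_add (d e : ι → ℕ) (c : ι → ZMod n) (m : ZMod n) :
    L (fun i => d i + e i) c m = L d c m + L e c m := by
  unfold L
  rw [← Finset.sum_add_distrib]
  apply Finset.sum_congr rfl
  intro i _
  push_cast
  ring

omit [NeZero n] in
theorem L_congr {d e : ι → ℕ} {c : ι → ZMod n} {m : ZMod n} (h : ∀ i, c i ≠ 0 → d i = e i) :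
    L d c m = L e c m := by
  unfold L
  apply Finset.sum_congr rfl
  intro i _
  by_cases hi : c i = 0
  · rw [hi, mul_zero, fr_zero, mul_zero, mul_zero]
  · rw [h i hi]

theorem L_le_M (w : ι → ℕ) (c : ι → ZMod n) (m : ZMod n) : L w c m ≤ (1 - 1 / n) * M w c 1 := by
  unfold M L
  rw [Finset.mul_sum]
  apply Finset.sum_le_sum
  intro i _
  rw [one_mul]
  have h := mul_le_mul_of_nonneg_left (fr_le_nz m (c i)) (Nat.cast_nonneg (α := ℚ) (w i))
  linarith

/-- one index with weight one -/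
theorem exists_index {w : ι → ℕ} {c : ι → ZMod n} (h : M w c 1 = 1) :
    ∃ i₀, w i₀ = 1 ∧ c i₀ ≠ 0 ∧ (∀ i, c i ≠ 0 → i ≠ i₀ → w i = 0) ∧
      ∀ m, L w c m = fr (m * c i₀) ∧ M w c m = nz (m * c i₀) := by
  classical
  unfold M at h
  simp only [one_mul] at h
  have h1 : ∃ i ∈ (univ : Finset ι), (w i : ℚ) * nz (c i) ≠ 0 := by
    apply Finset.exists_ne_zero_of_sum_ne_zero
    rw [h]
    norm_num
  obtain ⟨i₀, -, hi₀⟩ := h1
  have hw0 : w i₀ ≠ 0 := by
    intro h0
    rw [h0] at hi₀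
    simp at hi₀
  have hc0 : c i₀ ≠ 0 := by
    intro h0
    rw [h0, nz_zero] at hi₀
    simp at hi₀
  rw [← Finset.add_sum_erase univ _ (mem_univ i₀), nz_of_ne hc0, mul_one] at h
  have hnn : ∀ i ∈ univ.erase i₀, 0 ≤ (w i : ℚ) * nz (c i) :=
    fun i _ => mul_nonneg (Nat.cast_nonneg _) (nz_nonneg _)
  have h2 := Finset.sum_nonneg hnn
  have h3 : (1 : ℚ) ≤ w i₀ := by exact_mod_cast Nat.one_le_iff_ne_zero.mpr hw0
  have h4 : ∑ i ∈ univ.erase i₀, (w i : ℚ) * nz (c i) = 0 := by linarith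
  have h5 : w i₀ = 1 := by
    have : (w i₀ : ℚ) = 1 := by linarith
    exact_mod_cast this
  have h6 := (Finset.sum_eq_zero_iff_of_nonneg hnn).mp h4
  have h7 : ∀ i, c i ≠ 0 → i ≠ i₀ → w i = 0 := by
    intro i hi hne
    have := h6 i (Finset.mem_erase.mpr ⟨hne, mem_univ _⟩)
    rw [nz_of_ne hi, mul_one] at this
    exact_mod_cast this
  refine ⟨i₀, h5, hc0, h7, fun m => ⟨?_, ?_⟩⟩
  · unfold L
    rw [← Finset.add_sum_erase univ _ (mem_univ i₀), h5, Nat.cast_one, one_mul,
      Finset.sum_eq_zero, add_zero]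
    intro i hi
    by_cases hci : c i = 0
    · rw [hci, mul_zero, fr_zero, mul_zero]
    · rw [h7 i hci (Finset.ne_of_mem_erase hi), Nat.cast_zero, zero_mul]
  · unfold M
    rw [← Finset.add_sum_erase univ _ (mem_univ i₀), h5, Nat.cast_one, one_mul,
      Finset.sum_eq_zero, add_zero]
    intro i hi
    by_cases hci : c i = 0
    · rw [hci, mul_zero, nz_zero, mul_zero]
    · rw [h7 i hci (Finset.ne_of_mem_erase hi), Nat.cast_zero, zero_mul]

end

end Pool.Agent.U866.HX
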