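import Pool.Agent.U866.HX.Geo

set_option autoImplicit false

/-!
# The geometric cases

`case_fibre` and `case_plane` are taken from helper15's file `TwoPointBlowupCovers`.
-/

namespace Pool.Agent.U866.HX

open Pool.Agent.N197.Pln Pool.Agent.U15.DP MvPolynomial

/-- the form of degree `b` in three variables which becomes `f` if the third variable is `1` -/
noncomputable def homog (f : MvPolynomial (Fin 2) ℂ) (b : ℕ) : MvPolynomial (Fin 3) ℂ :=
  ∑ m ∈ f.support, C (coeff m f) * (X 0 ^ m 0 * X 1 ^ m 1 * X 2 ^ (b - m 0 - m 1))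

theorem aeval_homog {Ω : Type} [Field Ω] [Algebra ℂ Ω] (f : MvPolynomial (Fin 2) ℂ) (b : ℕ)
    (x y : Ω) : aeval ![x, y, 1] (homog f b) = aeval ![x, y] f := by
  unfold homog
  rw [map_sum, aeval_def (f := ![x, y]), eval₂_eq']
  apply Finset.sum_congr rfl
  intro m _
  simp [Fin.prod_univ_two]

theorem isPlaneCurve_homog {f : MvPolynomial (Fin 2) ℂ} (h0 : f ≠ 0) (hpos : 0 < f.totalDegree) :
    IsPlaneCurve (homog f f.totalDegree) f.totalDegree := by
  refine ⟨hpos, ?_, ?_⟩
  · unfold homog
    apply IsHomogeneous.sum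
    intro m hm
    have h1 : m 0 + m 1 ≤ f.totalDegree := by
      have := le_totalDegree hm
      rw [Finsupp.sum_fintype _ _ (fun _ => rfl), Fin.sum_univ_two] at this
      exact this
    have h2 : 0 + (1 * m 0 + 1 * m 1 + 1 * (f.totalDegree - m 0 - m 1)) = f.totalDegree := by omega
    have h3 : (C (coeff m f) * (X 0 ^ m 0 * X 1 ^ m 1 * X 2 ^ (f.totalDegree - m 0 - m 1)) :
        MvPolynomial (Fin 3) ℂ).IsHomogeneous
          (0 + (1 * m 0 + 1 * m 1 + 1 * (f.totalDegree - m 0 - m 1))) :=
      (isHomogeneous_C _ _).mul ((((isHomogeneous_X _ _).pow _).mul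
        ((isHomogeneous_X _ _).pow _)).mul ((isHomogeneous_X _ _).pow _))
    rwa [h2] at h3
  · intro h
    obtain ⟨Ω, _, _, _, s, t, hst⟩ := exists_field
    have h1 := aeval_homog f f.totalDegree s t
    rw [h, map_zero] at h1
    exact h0 (hst (by rw [← h1, map_zero]))

section cases

variable {ι : Type} [Fintype ι] {n : ℕ} [NeZero n] {f : ι → MvPolynomial (Fin 2) ℂ}
  {c : ι → ZMod n}

/-- at most three branch points on the fibres `y = const` -/
theorem case_fibre {d : ι → ℕ} (hd : ∀ i, (f i).degreeOf 0 ≤ d i)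
    (h : M d c 1 + nz (∑ i, d i • c i) ≤ 3) : AffineDominatedByCurves n f c := by
  classical
  have key := fibre_three (ι := Option ι) (n := n) (f := fun o => o.elim 1 f)
    (d := fun o => o.elim 1 d) (a := fun o => o.elim (-∑ i, d i • c i) c) (by
      intro o
      cases o with
      | none => simp
      | some i => simpa using hd i) (by
      rw [Fintype.sum_option]
      simp) (by
      have h1 : ((∑ o ∈ Finset.univ.filter
          (fun o : Option ι => (o.elim (-∑ i, d i • c i) c : ZMod n) ≠ 0),
          (o.elim 1 d : ℕ) : ℕ) : ℚ) = M d c 1 + nz (∑ i, d i • c i) := by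
        rw [Finset.sum_filter, Nat.cast_sum, Fintype.sum_option, add_comm]
        unfold M
        congr 1
        · apply Finset.sum_congr rfl
          intro i _
          simp only [Option.elim_some, one_mul]
          by_cases h0 : c i = 0
          · simp [h0, nz_zero]
          · simp [h0, nz_of_ne h0]
        · by_cases h0 : ∑ i, d i • c i = 0
          · simp only [Option.elim_none, h0, neg_zero, nz_zero]
            simp
          · rw [nz_of_ne h0]
            simp only [Option.elim_none, ne_eq, neg_eq_zero, h0, not_false_eq_true, if_true]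
            simp
      have h2 : ((∑ o ∈ Finset.univ.filter
          (fun o : Option ι => (o.elim (-∑ i, d i • c i) c : ZMod n) ≠ 0),
          (o.elim 1 d : ℕ) : ℕ) : ℚ) ≤ 3 := by
        rw [h1]
        exact h
      exact_mod_cast h2)
  obtain ⟨Ω, _, _, K₁, K₂, hK, x, hx, y, hy, z, hz, hind, hval⟩ := key
  refine ⟨Ω, inferInstance, inferInstance, K₁, K₂, hK, x, hx, y, hy, z, hz, hind, ?_⟩
  rw [hval, Fintype.prod_option]
  simp

/-- the case of a plane cover -/
theorem case_plane (hf : ∀ i, f i ≠ 0)
    (h1 : L (fun i => (f i).totalDegree) c 1 ≤ 2) (h2 : L (fun i => (f i).totalDegree) c (-1) ≤ 2) :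
    AffineDominatedByCurves n f c := by
  classical
  have hn : n ≠ 0 := NeZero.ne n
  have hn' : (0 : ℚ) < n := Nat.cast_pos.mpr (Nat.pos_of_ne_zero hn)
  set F : Option ι → MvPolynomial (Fin 3) ℂ := fun o => o.elim (X 2)
    (fun i => if (f i).totalDegree = 0 then X 2 else homog (f i) (f i).totalDegree) with hF
  set d : Option ι → ℕ := fun o => o.elim 1
    (fun i => if (f i).totalDegree = 0 then 1 else (f i).totalDegree) with hd
  set e : Option ι → ZMod n := fun o => o.elim (-∑ i, (f i).totalDegree • c i)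
    (fun i => if (f i).totalDegree = 0 then 0 else c i) with he
  have hX2 : IsPlaneCurve (X 2 : MvPolynomial (Fin 3) ℂ) 1 :=
    ⟨one_pos, isHomogeneous_X _ _, X_ne_zero _⟩
  have hcurve : ∀ o, IsPlaneCurve (F o) (d o) := by
    intro o
    cases o with
    | none => exact hX2
    | some i =>
      simp only [hF, hd, Option.elim_some]
      split_ifs with h
      · exact hX2
      · exact isPlaneCurve_homog (hf i) (Nat.pos_of_ne_zero h)
  have hsum : ∑ o, d o • e o = 0 := by
    rw [Fintype.sum_option]
    simp only [hd, he, Option.elim_none, Option.elim_some, one_smul]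
    rw [neg_add_eq_zero]
    apply Finset.sum_congr rfl
    intro i _
    split_ifs with h
    · rw [h]; simp
    · rfl
  have hint : ∀ e' : Option ι → ZMod n, ∑ o, d o • e' o = 0 → lineDegree n d e' < 3 →
      lineDegree n d e' ≤ 2 := by
    intro e' h3 h4
    obtain ⟨m, hm⟩ := sum_val h3
    have h5 : lineDegree n d e' = m := by
      unfold lineDegree
      rw [← Finset.sum_div, div_eq_iff hn'.ne']
      have : ((∑ o, d o * (e' o).val : ℕ) : ℚ) = ((n * m : ℕ) : ℚ) := by rw [hm]
      push_cast at this
      rw [this]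
      ring
    rw [h5] at h4 ⊢
    have : m < 3 := by exact_mod_cast h4
    have : m ≤ 2 := by omega
    exact_mod_cast this
  have hL : lineDegree n d e < 3 := by
    unfold lineDegree
    rw [Fintype.sum_option]
    have e1 : ∑ i, ((d (some i) : ℕ) : ℚ) * ((e (some i)).val : ℚ) / (n : ℚ) =
        L (fun i => (f i).totalDegree) c 1 := by
      unfold L fr
      apply Finset.sum_congr rfl
      intro i _
      simp only [hd, he, Option.elim_some, one_mul, mul_div_assoc]
      split_ifs with h
      · rw [h]; simp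
      · rfl
    have e2 : ((d none : ℕ) : ℚ) * ((e none).val : ℚ) / (n : ℚ) < 1 := by
      have := fr_lt_one (e none)
      unfold fr at this
      simpa [hd] using this
    rw [e1]
    linarith
  have hL' : lineDegree n d (fun o => -(e o)) < 3 := by
    unfold lineDegree
    rw [Fintype.sum_option]
    have e1 : ∑ i, ((d (some i) : ℕ) : ℚ) * ((-(e (some i))).val : ℚ) / (n : ℚ) =
        L (fun i => (f i).totalDegree) c (-1) := by
      unfold L fr
      apply Finset.sum_congr rfl
      intro i _
      simp only [hd, he, Option.elim_some, neg_mul, one_mul, mul_div_assoc]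
      split_ifs with h
      · rw [h]; simp
      · rfl
    have e2 : ((d none : ℕ) : ℚ) * ((-(e none)).val : ℚ) / (n : ℚ) < 1 := by
      have := fr_lt_one (-(e none))
      unfold fr at this
      simpa [hd] using this
    rw [e1]
    linarith
  have hsum' : ∑ o, d o • -(e o) = 0 := by
    simp only [smul_neg, Finset.sum_neg_distrib, hsum, neg_zero]
  have hdom : DominatedByCurves n F e :=
    dominated hcurve hsum (hint _ hsum hL) (hint _ hsum' hL')
  obtain ⟨Ω, _, _, K₁, K₂, hK, x, hx, y, hy, z, hz, hind, hval⟩ := hdom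
  -- the constant factors
  obtain ⟨ρ, hρ⟩ := IsAlgClosed.exists_pow_nat_eq
    (∏ i, (if (f i).totalDegree = 0 then coeff 0 (f i) else 1) ^ (c i).val : ℂ)
    (Nat.pos_of_ne_zero hn)
  refine ⟨Ω, inferInstance, inferInstance, K₁, K₂, hK, x, hx, y, hy,
    z * algebraMap ℂ Ω ρ, mul_mem hz ((K₁ ⊔ K₂).algebraMap_mem ρ), hind, ?_⟩
  rw [mul_pow, hval, ← map_pow, hρ, Fintype.prod_option, map_prod]
  have e0 : aeval ![x, y, 1] (F none) ^ (e none).val = 1 := by
    simp [hF]
  rw [e0, one_mul, ← Finset.prod_mul_distrib]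
  apply Finset.prod_congr rfl
  intro i _
  simp only [hF, he, Option.elim_some]
  split_ifs with h
  · rw [ZMod.val_zero, pow_zero, one_mul, map_pow]
    congr 1
    have h3 : f i = C (coeff 0 (f i)) := totalDegree_eq_zero_iff_eq_C.mp h
    conv_rhs => rw [h3]
    rw [aeval_C]
  · rw [aeval_homog, one_pow, map_one, mul_one]

/-! ### the cases in new coordinates -/

omit [NeZero n] in
theorem M_new (a b : ℕ) (d : ι → ℕ) (u v : ZMod n) (c : ι → ZMod n) :
    M (newD a b d) (newC u v c) 1 = a * nz u + b * nz v + M d c 1 := by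
  unfold M
  rw [Fintype.sum_option, Fintype.sum_option]
  simp only [newD, newC, Option.elim_none, Option.elim_some, one_mul]
  ring

omit [NeZero n] in
theorem L_new (a b : ℕ) (d : ι → ℕ) (u v : ZMod n) (c : ι → ZMod n) (m : ZMod n) :
    L (newD a b d) (newC u v c) m = a * fr (m * u) + b * fr (m * v) + L d c m := by
  unfold L
  rw [Fintype.sum_option, Fintype.sum_option]
  simp only [newD, newC, Option.elim_none, Option.elim_some]
  ring

omit [NeZero n] in
theorem sum_new (a b : ℕ) (d : ι → ℕ) (u v : ZMod n) (c : ι → ZMod n) :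
    ∑ o, newD a b d o • newC u v c o = a • u + b • v + ∑ i, d i • c i := by
  rw [Fintype.sum_option, Fintype.sum_option]
  simp only [newD, newC, Option.elim_none, Option.elim_some]
  ring

/-- a pencil with at most three branch points, in new coordinates -/
theorem case_fibre_new {d : ι → ℕ} {p q r s : ℤ} {u v : ι → ℤ} {φ ψ : ι → (Fin 2 →₀ ℕ) → ℕ}
    {e : ZMod n}
    (hφ : ∀ i, ∀ m ∈ (f i).support, (φ i m : ℤ) = p * m 0 + r * m 1 - u i)
    (hψ : ∀ i, ∀ m ∈ (f i).support, (ψ i m : ℤ) = q * m 0 + s * m 1 - v i)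
    (hind : ∀ (Ω : Type) [Field Ω] [Algebra ℂ Ω] (x y : Ω), AlgebraicIndependent ℂ ![x, y] →
      AlgebraicIndependent ℂ ![x ^ p * y ^ q, x ^ r * y ^ s])
    (hd : ∀ i, ∀ m ∈ (f i).support, φ i m ≤ d i)
    (he : ∑ i, d i • c i + e + ∑ i, u i • c i = 0)
    (h : M d c 1 + nz e + nz (∑ i, u i • c i) ≤ 3) : AffineDominatedByCurves n f c := by
  apply transfer p q r s u v φ ψ hφ hψ hind
  apply case_fibre (d := newD 1 0 d)
  · intro o
    rcases o with _ | _ | i
    · simp [newF, newD]
    · simp [newF, newD, degreeOf_X_of_ne]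
    · exact degreeOf_tr (hd i)
  · rw [M_new, sum_new]
    have h1 : (1 : ℕ) • (∑ i, u i • c i) + (0 : ℕ) • (∑ i, v i • c i) + ∑ i, d i • c i = -e := by
      simp only [one_smul, zero_smul, add_zero]
      linear_combination he
    rw [h1, nz_neg]
    push_cast
    linarith

/-- a plane cover, in new coordinates -/
theorem case_plane_new (hf : ∀ i, f i ≠ 0) {d : ι → ℕ} {p q r s : ℤ} {u v : ι → ℤ}
    {φ ψ : ι → (Fin 2 →₀ ℕ) → ℕ} {e : ZMod n}
    (hφ : ∀ i, ∀ m ∈ (f i).support, (φ i m : ℤ) = p * m 0 + r * m 1 - u i)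
    (hψ : ∀ i, ∀ m ∈ (f i).support, (ψ i m : ℤ) = q * m 0 + s * m 1 - v i)
    (hind : ∀ (Ω : Type) [Field Ω] [Algebra ℂ Ω] (x y : Ω), AlgebraicIndependent ℂ ![x, y] →
      AlgebraicIndependent ℂ ![x ^ p * y ^ q, x ^ r * y ^ s])
    (hd : ∀ i, ∀ m ∈ (f i).support, φ i m + ψ i m ≤ d i)
    (h : ∀ m, T d c (∑ i, u i • c i) (∑ i, v i • c i) e m ≤ 2) :
    AffineDominatedByCurves n f c := by
  apply transfer p q r s u v φ ψ hφ hψ hind
  have hle : ∀ m, L (fun o => (newF (fun i => tr (φ i) (ψ i) (f i)) o).totalDegree)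
      (newC (∑ i, u i • c i) (∑ i, v i • c i) c) m ≤ 2 := by
    intro m
    refine le_trans (L_mono (e := newD 1 1 d) ?_ _ _) ?_
    · intro o
      rcases o with _ | _ | i
      · simp [newF, newD]
      · simp [newF, newD]
      · exact totalDegree_tr (hd i)
    · rw [L_new]
      have h1 := h m
      unfold T at h1
      have h2 := fr_nonneg (m * e)
      push_cast
      linarith
  apply case_plane
  · intro o
    rcases o with _ | _ | i
    · exact X_ne_zero _
    · exact X_ne_zero _
    · exact tr_ne_zero p q r s (hφ i) (hψ i) hind (hf i)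
  · exact hle 1
  · exact hle (-1)

end cases

end Pool.Agent.U866.HX
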