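import Pool.Agent.U866.HX.Num

set_option autoImplicit false

/-!
# The exceptional case for odd prime powers: the crossing
-/

namespace Pool.Agent.U866.HX

open Finset Pool.Agent.U15.DP

/-- the arithmetic of the crossing, with all values -/
theorem arith2 {a b a' b' α β α' β' μ N1 N2 : ℚ} (ia : IsI a) (ib : IsI b) (ia' : IsI a')
    (ib' : IsI b') (iα : IsI α) (iβ : IsI β) (iα' : IsI α') (iβ' : IsI β') (iμ : IsI μ)
    (iN1 : IsI N1) (iN2 : IsI N2) (h1 : a + b' = 3 + μ) (h2 : a + a' = N1 - 1 + μ)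
    (h3 : b + b' = N2 - 1 + μ) (h4 : 0 ≤ μ) (h5 : μ ≤ 1) (h6 : 4 ≤ N1) (h7 : 4 ≤ N2)
    (h8 : 0 ≤ a) (h9 : 0 ≤ b) (h10 : 0 ≤ a') (h11 : 0 ≤ b')
    (h12 : α ≤ 1 + μ) (h13 : β ≤ 1 + μ) (h14 : α' ≤ 1 + μ) (h15 : β' ≤ 1 + μ)
    (h16 : α + α' ≤ 3) (h17 : β + β' ≤ 3)
    (h18 : a ≤ 1 ∨ b ≤ 1 ∨ a + b - α - β ≤ 1 ∨ a + b - α ≤ 2 ∨ a + b - β ≤ 2)
    (h19 : a' ≤ 1 ∨ b' ≤ 1 ∨ a' + b' - α' - β' ≤ 1 ∨ a' + b' - α' ≤ 2 ∨ a' + b' - β' ≤ 2) :
    (N1 = 4 ∧ N2 = 4 ∧ μ = 1 ∧ a = 2 ∧ b = 2 ∧ a' = 2 ∧ b' = 2) ∧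
      ((α = 2 ∧ β' = 2) ∨ (β = 2 ∧ α' = 2)) := by
  obtain ⟨a, rfl⟩ := ia
  obtain ⟨b, rfl⟩ := ib
  obtain ⟨a', rfl⟩ := ia'
  obtain ⟨b', rfl⟩ := ib'
  obtain ⟨α, rfl⟩ := iα
  obtain ⟨β, rfl⟩ := iβ
  obtain ⟨α', rfl⟩ := iα'
  obtain ⟨β', rfl⟩ := iβ'
  obtain ⟨μ, rfl⟩ := iμ
  obtain ⟨N1, rfl⟩ := iN1
  obtain ⟨N2, rfl⟩ := iN2
  norm_cast at *
  omega

namespace Dat

variable {ι : Type} [Fintype ι] {n : ℕ} [NeZero n] (D : Dat ι n)

/-- the crossing at `m = j + 1` -/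
structure Cross (j m : ZMod n) (i₀ : ι) : Prop where
  hm : m = j + 1
  ci : D.c i₀ ≠ 0
  LM : ∀ m, L D.w D.c m = fr (m * D.c i₀) ∧ M D.w D.c m = nz (m * D.c i₀)
  S1 : D.S 1 = 1
  Sj : D.S j = 2
  Sm : D.S m = 3
  Mm : M D.w D.c m = 1
  Am : D.A m = 2
  Bm : D.B m = 2
  Am' : D.A (-m) = 2
  Bm' : D.B (-m) = 2
  N1 : D.A 1 + D.A (-1) = 4
  N2 : D.B 1 + D.B (-1) = 4
  fin : (D.H m = 2 ∧ D.K (-m) = 2) ∨ (D.K m = 2 ∧ D.H (-m) = 2)
  t1 : T D.w1 D.c D.e₁ D.l₁ 0 m = T D.w1 D.c D.e₁ D.l₁ 0 j + T D.w1 D.c D.e₁ D.l₁ 0 1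
  t2 : T D.w2 D.c D.e₂ D.l₂ 0 (-m) = T D.w2 D.c D.e₂ D.l₂ 0 (-j) + T D.w2 D.c D.e₂ D.l₂ 0 (-1)
  n1 : T D.w1 D.c D.e₁ D.l₁ 0 m + T D.w1 D.c D.e₁ D.l₁ 0 (-m) =
    T D.w1 D.c D.e₁ D.l₁ 0 1 + T D.w1 D.c D.e₁ D.l₁ 0 (-1)
  n2 : T D.w2 D.c D.e₂ D.l₂ 0 m + T D.w2 D.c D.e₂ D.l₂ 0 (-m) =
    T D.w2 D.c D.e₂ D.l₂ 0 1 + T D.w2 D.c D.e₂ D.l₂ 0 (-1)
  key : (D.h i₀ = 1 ∧ D.e₁ ≠ 0 ∧ D.e₂ ≠ 0) ∧ (D.k i₀ = 1 ∧ D.l₁ ≠ 0 ∧ D.l₂ ≠ 0)
  q1 : M D.z D.c 1 = M D.w1 D.c 1 + M D.w2 D.c 1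
  Lh : ∀ m, L D.h D.c m = L D.w1 D.c m + L D.w2 D.c m + L D.w D.c m
  Lk : ∀ m, L D.k D.c m = L D.w1 D.c m + L D.w2 D.c m + L D.w D.c m
  Mh : ∀ m, M D.h D.c m = M D.w1 D.c m + M D.w2 D.c m + M D.w D.c m
  Mk : ∀ m, M D.k D.c m = M D.w1 D.c m + M D.w2 D.c m + M D.w D.c m

variable {D}

theorem cross (hc : D.Cond) (hA : 4 ≤ D.A 1 + D.A (-1)) (hB : 4 ≤ D.B 1 + D.B (-1))
    (h1 : D.A 1 ≤ 1) (h2 : D.B (-1) ≤ 1) :
    M D.w D.c 1 ≤ 0 ∨ ∃ j m i₀, D.Cross j m i₀ := by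
  classical
  have hn : 0 < n := Nat.pos_of_ne_zero (NeZero.ne n)
  have hn1 : ((n - 1 : ℕ) : ZMod n) = -1 := by
    rw [Nat.cast_sub hn, ZMod.natCast_self, Nat.cast_one, zero_sub]
  have e1 := D.AB_eq 1
  have e2 := D.AB_eq (-1)
  rw [neg_neg, M_neg] at e2
  have hμ0 := M_nonneg D.w D.c 1
  have hS0 : 1 ≤ D.S 1 := by
    apply isI_one.le_of_lt (D.isI_S 1)
    by_contra hcon
    push Not at hcon
    have g1 : D.S 1 ≤ 0 := by linarith
    have g2 := D.S_nat (n - 1)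
    rw [hn1] at g2
    have g3 : ((n - 1 : ℕ) : ℚ) * D.S 1 ≤ 0 :=
      mul_nonpos_of_nonneg_of_nonpos (Nat.cast_nonneg _) g1
    have g4 := D.S_nonneg 1
    linarith
  have hμ1 : M D.w D.c 1 ≤ 1 := by linarith
  rcases le_or_gt (M D.w D.c 1) 0 with hμ | hμ
  · exact Or.inl hμ
  right
  have hμ : M D.w D.c 1 = 1 := by
    have g1 : 1 ≤ M D.w D.c 1 := isI_one.le_of_lt (isI_M D.w D.c 1) (by linarith)
    linarith
  obtain ⟨i₀, hw, hci, hother, hLM⟩ := exists_index hμ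
  have hS1 : D.S 1 = 1 := by linarith
  have hSm1 : 5 ≤ D.S (-1) := by linarith
  have hex : ∃ j : ℕ, 3 ≤ D.S (j : ZMod n) := ⟨n - 1, by rw [hn1]; linarith⟩
  obtain ⟨j, hj3, hj2⟩ : ∃ j : ℕ, 3 ≤ D.S ((j : ZMod n) + 1) ∧ D.S (j : ZMod n) < 3 := by
    have g1 := Nat.find_spec hex
    have g2 : Nat.find hex ≠ 0 := by
      intro h0
      rw [h0, Nat.cast_zero, S_zero] at g1
      linarith
    refine ⟨Nat.find hex - 1, ?_, ?_⟩
    · have g3 : (((Nat.find hex - 1 : ℕ) : ZMod n) + 1) = ((Nat.find hex : ℕ) : ZMod n) := by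
        have g4 : Nat.find hex - 1 + 1 = Nat.find hex := by omega
        conv_rhs => rw [← g4]
        push_cast
        ring
      rw [g3]
      exact g1
    · have g3 := Nat.find_min hex (m := Nat.find hex - 1) (by omega)
      push Not at g3
      exact g3
  set m : ZMod n := (j : ZMod n) + 1 with hm
  have hj2' : D.S (j : ZMod n) ≤ 2 :=
    (D.isI_S _).le_of_lt isI_two (by linarith)
  have hadd := D.S_add_le (j : ZMod n) 1
  rw [← hm] at hadd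
  have hSm : D.S m = 3 := by linarith
  have hSj : D.S (j : ZMod n) = 2 := by linarith
  -- no carry in the last step
  have t1 := T_sub_le D.w1 D.c D.e₁ D.l₁ 0 (j : ZMod n) 1
  have t2 := T_sub_le D.w2 D.c D.e₂ D.l₂ 0 (-(j : ZMod n)) (-1)
  have t3 := T_add_le D.w1 D.c D.e₁ D.l₁ 0 (j : ZMod n) 1
  have t4 := T_add_le D.w2 D.c D.e₂ D.l₂ 0 (-(j : ZMod n)) (-1)
  have hneg : -(j : ZMod n) + -1 = -m := by rw [hm]; ring
  rw [← hm] at t1 t3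
  rw [hneg, neg_neg, neg_neg] at t2
  rw [hneg] at t4
  have hSm' := hSm
  have hSj' := hSj
  have hS1' := hS1
  unfold S at hSm' hSj' hS1'
  have u1 : T D.w1 D.c D.e₁ D.l₁ 0 m + T D.w1 D.c D.e₁ D.l₁ 0 (-m) ≤
      T D.w1 D.c D.e₁ D.l₁ 0 1 + T D.w1 D.c D.e₁ D.l₁ 0 (-1) := by
    rw [T_pair, T_pair]
    have g1 := M_le D.w1 D.c m
    have g2 := nz_mul_le m D.e₁
    have g3 := nz_mul_le m D.l₁
    simp only [one_mul, mul_zero]
    linarith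
  have u2 : T D.w2 D.c D.e₂ D.l₂ 0 m + T D.w2 D.c D.e₂ D.l₂ 0 (-m) ≤
      T D.w2 D.c D.e₂ D.l₂ 0 1 + T D.w2 D.c D.e₂ D.l₂ 0 (-1) := by
    rw [T_pair, T_pair]
    have g1 := M_le D.w2 D.c m
    have g2 := nz_mul_le m D.e₂
    have g3 := nz_mul_le m D.l₂
    simp only [one_mul, mul_zero]
    linarith
  have p1 := D.A_pair m
  have p2 := D.B_pair m
  have p3 := D.A_pair 1
  have p4 := D.B_pair 1
  have p5 := D.AB_eq m
  have hμk0 := M_nonneg D.w D.c m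
  have hμk1 := M_le D.w D.c m
  rw [hμ] at hμk1 p3 p4
  -- the corrections
  have hLw : ∀ m', L D.w D.c m' ≤ M D.w D.c m' := by
    intro m'
    have := L_pair D.w D.c m'
    have g1 : 0 ≤ L D.w D.c (-m') := by
      rw [(hLM _).1]
      exact fr_nonneg _
    linarith
  have hal : ∀ m', D.A m' + D.B m' - D.H m' ≤ 1 + M D.w D.c m' := by
    intro m'
    apply (((D.isI_A m').add (D.isI_B m')).sub (D.isI_H m')).le_of_lt
      (isI_one.add (isI_M D.w D.c m'))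
    rw [alpha_eq]
    have g1 := L_mono D.g_le D.c m'
    have g2 := fr_lt_one (m' * D.e₁)
    have g3 := fr_lt_one (m' * D.e₂)
    have g4 := fr_nonneg (m' * D.l₃)
    have g5 := hLw m'
    linarith
  have hbe : ∀ m', D.A m' + D.B m' - D.K m' ≤ 1 + M D.w D.c m' := by
    intro m'
    apply (((D.isI_A m').add (D.isI_B m')).sub (D.isI_K m')).le_of_lt
      (isI_one.add (isI_M D.w D.c m'))
    have g0 := D.dual.alpha_eq m'
    rw [dual_A, dual_B, dual_H] at g0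
    rw [g0]
    have g1 := L_mono D.dual.g_le D.dual.c m'
    have g2 := fr_lt_one (m' * D.dual.e₁)
    have g3 := fr_lt_one (m' * D.dual.e₂)
    have g4 := fr_nonneg (m' * D.dual.l₃)
    have g5 : L D.dual.w D.dual.c m' ≤ M D.w D.c m' := hLw m'
    linarith
  have hal2 : (D.A m + D.B m - D.H m) + (D.A (-m) + D.B (-m) - D.H (-m)) ≤ 3 := by
    rw [alpha_eq, alpha_eq]
    have g1 := L_pair D.g D.c m
    have g2 : M D.g D.c m ≤ M D.w D.c m := M_mono fun i _ => D.g_le i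
    have g3 := fr_add_fr_neg (m * D.e₁)
    have g4 := fr_add_fr_neg (m * D.e₂)
    have g5 := nz_le_one (m * D.e₁)
    have g6 := nz_le_one (m * D.e₂)
    have g7 := fr_nonneg (m * D.l₃)
    have g8 := fr_nonneg (-m * D.l₃)
    simp only [neg_mul] at *
    linarith
  have hbe2 : (D.A m + D.B m - D.K m) + (D.A (-m) + D.B (-m) - D.K (-m)) ≤ 3 := by
    have g01 := D.dual.alpha_eq m
    have g02 := D.dual.alpha_eq (-m)
    rw [dual_A, dual_B, dual_H] at g01 g02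
    rw [g01, g02]
    have g1 := L_pair D.dual.g D.dual.c m
    have g2 : M D.dual.g D.dual.c m ≤ M D.w D.c m := M_mono fun i _ => D.dual.g_le i
    have g3 := fr_add_fr_neg (m * D.dual.e₁)
    have g4 := fr_add_fr_neg (m * D.dual.e₂)
    have g5 := nz_le_one (m * D.dual.e₁)
    have g6 := nz_le_one (m * D.dual.e₂)
    have g7 := fr_nonneg (m * D.dual.l₃)
    have g8 := fr_nonneg (-m * D.dual.l₃)
    simp only [neg_mul] at *
    linarith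
  have s1 := D.sum_eq m
  have s2 := D.sum_eq (-m)
  have c1 : D.A m ≤ 1 ∨ D.B m ≤ 1 ∨
      D.A m + D.B m - (D.A m + D.B m - D.H m) - (D.A m + D.B m - D.K m) ≤ 1 ∨
      D.A m + D.B m - (D.A m + D.B m - D.H m) ≤ 2 ∨
      D.A m + D.B m - (D.A m + D.B m - D.K m) ≤ 2 := by
    rcases hc m with h | h | h | h | h
    · exact Or.inl h
    · exact Or.inr (Or.inl h)
    · exact Or.inr (Or.inr (Or.inl (by linarith)))
    · exact Or.inr (Or.inr (Or.inr (Or.inl (by linarith))))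
    · exact Or.inr (Or.inr (Or.inr (Or.inr (by linarith))))
  have c2 : D.A (-m) ≤ 1 ∨ D.B (-m) ≤ 1 ∨
      D.A (-m) + D.B (-m) - (D.A (-m) + D.B (-m) - D.H (-m)) -
        (D.A (-m) + D.B (-m) - D.K (-m)) ≤ 1 ∨
      D.A (-m) + D.B (-m) - (D.A (-m) + D.B (-m) - D.H (-m)) ≤ 2 ∨
      D.A (-m) + D.B (-m) - (D.A (-m) + D.B (-m) - D.K (-m)) ≤ 2 := by
    rcases hc (-m) with h | h | h | h | h
    · exact Or.inl h
    · exact Or.inr (Or.inl h)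
    · exact Or.inr (Or.inr (Or.inl (by linarith)))
    · exact Or.inr (Or.inr (Or.inr (Or.inl (by linarith))))
    · exact Or.inr (Or.inr (Or.inr (Or.inr (by linarith))))
  have iA := D.isI_A m
  have iB := D.isI_B m
  have iA' := D.isI_A (-m)
  have iB' := D.isI_B (-m)
  have iH := D.isI_H m
  have iH' := D.isI_H (-m)
  have iK := D.isI_K m
  have iK' := D.isI_K (-m)
  obtain ⟨⟨hN1, hN2, hMm, ham, hbm, ham', hbm'⟩, hfin⟩ := arith2 iA iB iA' iB'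
    ((iA.add iB).sub iH) ((iA.add iB).sub iK)
    ((iA'.add iB').sub iH') ((iA'.add iB').sub iK') (isI_M D.w D.c m)
    ((D.isI_A 1).add (D.isI_A (-1))) ((D.isI_B 1).add (D.isI_B (-1)))
    (by linarith) (by linarith) (by linarith) hμk0 hμk1 hA hB (D.A_nonneg _) (D.B_nonneg _)
    (D.A_nonneg _) (D.B_nonneg _) (hal m) (hbe m)
    (by have := hal (-m); rwa [M_neg] at this) (by have := hbe (-m); rwa [M_neg] at this)
    hal2 hbe2 c1 c2
  have hkey : (D.h i₀ = 1 ∧ D.e₁ ≠ 0 ∧ D.e₂ ≠ 0) ∧ (D.k i₀ = 1 ∧ D.l₁ ≠ 0 ∧ D.l₂ ≠ 0) := by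
    have hLM1 : ∀ m, L D.w D.c m = fr (m * D.c i₀) := fun m => (hLM m).1
    rcases hfin with ⟨g1, g2⟩ | ⟨g1, g2⟩
    · refine ⟨D.alpha_two hother hLM1 g1, D.dual.alpha_two hother hLM1 (m := -m) ?_⟩
      rw [dual_A, dual_B, dual_H]
      exact g2
    · refine ⟨D.alpha_two hother hLM1 g2, D.dual.alpha_two hother hLM1 (m := m) ?_⟩
      rw [dual_A, dual_B, dual_H]
      exact g1
  have hty : ∀ i, D.c i ≠ 0 → D.h i = D.w1 i + D.w2 i + D.w i ∧ D.k i = D.w1 i + D.w2 i + D.w i ∧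
      D.z i = D.w1 i + D.w2 i := by
    intro i hi
    have g1 := D.nice i
    have g3 := hkey.1.1
    have g4 := hkey.2.1
    unfold Nice at g1
    by_cases hii : i = i₀
    · subst hii
      unfold w w1 w2 at *
      omega
    · have g2 := hother i hi hii
      unfold w w1 w2 at *
      omega
  refine ⟨(j : ZMod n), m, i₀, ?_⟩
  refine
    { hm := rfl
      ci := hci
      LM := hLM
      S1 := hS1
      Sj := hSj
      Sm := hSm
      Mm := hMm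
      Am := ham
      Bm := hbm
      Am' := ham'
      Bm' := hbm'
      N1 := hN1
      N2 := hN2
      fin := ?_
      t1 := by linarith
      t2 := by linarith
      n1 := by linarith
      n2 := by linarith
      key := hkey
      q1 := ?_
      Lh := ?_
      Lk := ?_
      Mh := ?_
      Mk := ?_ }
  · rcases hfin with ⟨g1, g2⟩ | ⟨g1, g2⟩
    · exact Or.inl ⟨by linarith, by linarith⟩
    · exact Or.inr ⟨by linarith, by linarith⟩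
  · rw [← M_add]
    exact M_congr fun i hi => (hty i hi).2.2
  · intro m'
    rw [← L_add, ← L_add]
    exact L_congr fun i hi => (hty i hi).1
  · intro m'
    rw [← L_add, ← L_add]
    exact L_congr fun i hi => (hty i hi).2.1
  · intro m'
    rw [← M_add, ← M_add]
    exact M_congr fun i hi => (hty i hi).1
  · intro m'
    rw [← M_add, ← M_add]
    exact M_congr fun i hi => (hty i hi).2.1

end Dat

end Pool.Agent.U866.HX
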