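import Pool.Agent.U866.HX.Basic

set_option autoImplicit false

/-!
# Residues on the hexagon: the data and their symmetries
-/

namespace Pool.Agent.U866.HX

open Finset Pool.Agent.U15.DP

/-- the intersection numbers of the generators of the nef cone of the plane blown up in three points
with the three pencils and the two classes of lines -/
def Nice (x y z h k : ℕ) : Prop :=
  (x = 0 ∧ y = 1 ∧ z = 1 ∧ h = 1 ∧ k = 1) ∨ (x = 1 ∧ y = 0 ∧ z = 1 ∧ h = 1 ∧ k = 1) ∨
  (x = 1 ∧ y = 1 ∧ z = 0 ∧ h = 1 ∧ k = 1) ∨ (x = 1 ∧ y = 1 ∧ z = 1 ∧ h = 1 ∧ k = 2) ∨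
  (x = 1 ∧ y = 1 ∧ z = 1 ∧ h = 2 ∧ k = 1)

/-- the building data of a cyclic cover of the plane blown up in three points: curves with residue
`c i` and intersection numbers `x i`, `y i`, `z i`, `h i`, `k i`, and the residues of the six
curves of the boundary -/
structure Dat (ι : Type) [Fintype ι] (n : ℕ) where
  c : ι → ZMod n
  x : ι → ℕ
  y : ι → ℕ
  z : ι → ℕ
  h : ι → ℕ
  k : ι → ℕ
  e₁ : ZMod n
  e₂ : ZMod n
  e₃ : ZMod n
  l₁ : ZMod n
  l₂ : ZMod n
  l₃ : ZMod n
  nice : ∀ i, Nice (x i) (y i) (z i) (h i) (k i)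
  rx : ∑ i, x i • c i + e₁ + l₁ = 0
  ry : ∑ i, y i • c i + e₂ + l₂ = 0
  rz : ∑ i, z i • c i + e₃ + l₃ = 0
  rh : ∑ i, h i • c i + l₁ + l₂ + l₃ = 0
  rk : ∑ i, k i • c i + e₁ + e₂ + e₃ = 0

namespace Dat

variable {ι : Type} [Fintype ι] {n : ℕ} (D : Dat ι n)

/-- degree on the members of the first pencil -/
def A (m : ZMod n) : ℚ := T D.x D.c D.e₁ D.l₁ 0 m

/-- degree on the members of the second pencil -/
def B (m : ZMod n) : ℚ := T D.y D.c D.e₂ D.l₂ 0 m

/-- degree on the members of the third pencil -/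
def C (m : ZMod n) : ℚ := T D.z D.c D.e₃ D.l₃ 0 m

/-- degree on the lines -/
def H (m : ZMod n) : ℚ := T D.h D.c D.l₁ D.l₂ D.l₃ m

/-- degree on the conics through the three points -/
def K (m : ZMod n) : ℚ := T D.k D.c D.e₁ D.e₂ D.e₃ m

/-- exchange of the first two pencils -/
def sw12 : Dat ι n where
  c := D.c
  x := D.y
  y := D.x
  z := D.z
  h := D.h
  k := D.k
  e₁ := D.e₂
  e₂ := D.e₁
  e₃ := D.e₃
  l₁ := D.l₂
  l₂ := D.l₁
  l₃ := D.l₃
  nice := by
    intro i
    have := D.nice i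
    unfold Nice at *
    tauto
  rx := D.ry
  ry := D.rx
  rz := D.rz
  rh := by rw [← D.rh]; ring
  rk := by rw [← D.rk]; ring

/-- exchange of the last two pencils -/
def sw23 : Dat ι n where
  c := D.c
  x := D.x
  y := D.z
  z := D.y
  h := D.h
  k := D.k
  e₁ := D.e₁
  e₂ := D.e₃
  e₃ := D.e₂
  l₁ := D.l₁
  l₂ := D.l₃
  l₃ := D.l₂
  nice := by
    intro i
    have := D.nice i
    unfold Nice at *
    tauto
  rx := D.rx
  ry := D.rz
  rz := D.ry
  rh := by rw [← D.rh]; ring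
  rk := by rw [← D.rk]; ring

/-- the Cremona transformation -/
def dual : Dat ι n where
  c := D.c
  x := D.x
  y := D.y
  z := D.z
  h := D.k
  k := D.h
  e₁ := D.l₁
  e₂ := D.l₂
  e₃ := D.l₃
  l₁ := D.e₁
  l₂ := D.e₂
  l₃ := D.e₃
  nice := by
    intro i
    have := D.nice i
    unfold Nice at *
    tauto
  rx := by rw [← D.rx]; ring
  ry := by rw [← D.ry]; ring
  rz := by rw [← D.rz]; ring
  rh := D.rk
  rk := D.rh

variable (m : ZMod n)

theorem sw12_A : D.sw12.A m = D.B m := rfl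
theorem sw12_B : D.sw12.B m = D.A m := rfl
theorem sw12_C : D.sw12.C m = D.C m := rfl
theorem sw12_H : D.sw12.H m = D.H m := by
  unfold H T
  simp only [sw12]
  ring
theorem sw12_K : D.sw12.K m = D.K m := by
  unfold K T
  simp only [sw12]
  ring

theorem sw23_A : D.sw23.A m = D.A m := rfl
theorem sw23_B : D.sw23.B m = D.C m := rfl
theorem sw23_C : D.sw23.C m = D.B m := rfl
theorem sw23_H : D.sw23.H m = D.H m := by
  unfold H T
  simp only [sw23]
  ring
theorem sw23_K : D.sw23.K m = D.K m := by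
  unfold K T
  simp only [sw23]
  ring

theorem dual_A : D.dual.A m = D.A m := by
  unfold A T
  simp only [dual]
  ring
theorem dual_B : D.dual.B m = D.B m := by
  unfold B T
  simp only [dual]
  ring
theorem dual_C : D.dual.C m = D.C m := by
  unfold C T
  simp only [dual]
  ring
theorem dual_H : D.dual.H m = D.K m := rfl
theorem dual_K : D.dual.K m = D.H m := rfl

/-- the eigensheaf has no sections of the adjoint type -/
def Cond : Prop := ∀ m, D.A m ≤ 1 ∨ D.B m ≤ 1 ∨ D.C m ≤ 1 ∨ D.H m ≤ 2 ∨ D.K m ≤ 2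

/-- the branch curve is numerically `-2 K` -/
def Core : Prop := D.A 1 + D.A (-1) = 4 ∧ D.B 1 + D.B (-1) = 4 ∧ D.C 1 + D.C (-1) = 4 ∧
  D.H 1 + D.H (-1) = 6 ∧ D.K 1 + D.K (-1) = 6

variable {D}

theorem Cond.sw12 (h : D.Cond) : D.sw12.Cond := by
  intro m
  rw [sw12_A, sw12_B, sw12_C, sw12_H, sw12_K]
  have := h m
  tauto

theorem Cond.sw23 (h : D.Cond) : D.sw23.Cond := by
  intro m
  rw [sw23_A, sw23_B, sw23_C, sw23_H, sw23_K]
  have := h m
  tauto

theorem Cond.dual (h : D.Cond) : D.dual.Cond := by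
  intro m
  rw [dual_A, dual_B, dual_C, dual_H, dual_K]
  have := h m
  tauto

theorem Core.of_sw12 (h : D.sw12.Core) : D.Core := by
  unfold Core at *
  simp only [sw12_A, sw12_B, sw12_C, sw12_H, sw12_K] at h
  tauto

theorem Core.of_sw23 (h : D.sw23.Core) : D.Core := by
  unfold Core at *
  simp only [sw23_A, sw23_B, sw23_C, sw23_H, sw23_K] at h
  tauto

variable (D) [NeZero n]

theorem isI_A : IsI (D.A m) := isI_T (by rw [add_zero]; exact D.rx) m
theorem isI_B : IsI (D.B m) := isI_T (by rw [add_zero]; exact D.ry) m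
theorem isI_C : IsI (D.C m) := isI_T (by rw [add_zero]; exact D.rz) m
theorem isI_H : IsI (D.H m) := isI_T D.rh m
theorem isI_K : IsI (D.K m) := isI_T D.rk m

theorem A_nonneg : 0 ≤ D.A m := T_nonneg _ _ _ _ _ _
theorem B_nonneg : 0 ≤ D.B m := T_nonneg _ _ _ _ _ _
theorem C_nonneg : 0 ≤ D.C m := T_nonneg _ _ _ _ _ _

theorem sum_eq : D.H m + D.K m = D.A m + D.B m + D.C m := by
  unfold A B C H K T
  have h1 : L D.h D.c m + L D.k D.c m = L D.x D.c m + L D.y D.c m + L D.z D.c m := by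
    rw [← L_add, ← L_add, ← L_add]
    apply L_congr
    intro i _
    have := D.nice i
    unfold Nice at this
    omega
  simp only [mul_zero, fr_zero]
  linarith

/-- the first pencil has at most the degree of the lines -/
theorem A_le_H : D.A m ≤ D.H m := by
  apply (D.isI_A m).le_of_lt (D.isI_H m)
  unfold A H T
  have h1 : L D.x D.c m ≤ L D.h D.c m := by
    apply L_mono
    intro i
    have := D.nice i
    unfold Nice at this
    omega
  have h2 := fr_lt_one (m * D.e₁)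
  have h3 := fr_nonneg (m * D.l₂)
  have h4 := fr_nonneg (m * D.l₃)
  simp only [mul_zero, fr_zero]
  linarith

theorem B_le_H : D.B m ≤ D.H m := by
  have := D.sw12.A_le_H m
  rwa [sw12_A, sw12_H] at this

theorem C_le_H : D.C m ≤ D.H m := by
  have := D.sw23.B_le_H m
  rwa [sw23_B, sw23_H] at this

theorem A_le_K : D.A m ≤ D.K m := by
  have := D.dual.A_le_H m
  rwa [dual_A, dual_H] at this

theorem B_le_K : D.B m ≤ D.K m := by
  have := D.dual.B_le_H m
  rwa [dual_B, dual_H] at this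

theorem C_le_K : D.C m ≤ D.K m := by
  have := D.dual.C_le_H m
  rwa [dual_C, dual_H] at this

/-- few branch points on a line: the degree on the lines is the degree on the fibres -/
theorem H_le_A (hA : 4 ≤ D.A 1 + D.A (-1)) (hH : D.H 1 + D.H (-1) ≤ 4) : D.H m ≤ D.A m := by
  apply (D.isI_H m).le_of_lt (D.isI_A m)
  have hg : ∀ i, D.h i = D.x i + (D.h i - D.x i) := by
    intro i
    have := D.nice i
    unfold Nice at this
    omega
  have e1 : ∀ m, L D.h D.c m = L D.x D.c m + L (fun i => D.h i - D.x i) D.c m := by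
    intro m
    rw [← L_add]
    exact L_congr fun i _ => hg i
  have e2 : M D.h D.c 1 = M D.x D.c 1 + M (fun i => D.h i - D.x i) D.c 1 := by
    rw [← M_add]
    exact M_congr fun i _ => hg i
  unfold A at hA
  unfold H at hH
  rw [T_pair] at hA hH
  simp only [one_mul, nz_zero] at hA hH
  have h1 := L_le_M (fun i => D.h i - D.x i) D.c m
  have h2 := fr_le_nz m D.l₂
  have h3 := fr_le_nz m D.l₃
  have h4 := fr_nonneg (m * D.e₁)
  have h5 := nz_le_one D.e₁
  unfold A H T
  rw [e1]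
  simp only [mul_zero, fr_zero]
  have hn := cast_pos' (n := n)
  have hn1 : (1 : ℚ) ≤ n := by
    have : 1 ≤ n := Nat.one_le_iff_ne_zero.mpr (NeZero.ne n)
    exact_mod_cast this
  have h6 : (0 : ℚ) < 1 / n := by positivity
  have h7 : (1 : ℚ) / n ≤ 1 := by rw [div_le_one hn]; exact hn1
  have h8 : M (fun i => D.h i - D.x i) D.c 1 + nz D.l₂ + nz D.l₃ ≤ 1 := by linarith
  have h9 := mul_le_mul_of_nonneg_left h8 (by linarith : (0 : ℚ) ≤ 1 - 1 / n)
  linarith

theorem typeIV_aux (hc : D.Cond) (hA : 4 ≤ D.A 1 + D.A (-1)) (hB : 4 ≤ D.B 1 + D.B (-1))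
    (hC : 4 ≤ D.C 1 + D.C (-1)) (hH : D.H 1 + D.H (-1) ≤ 4) : D.H m ≤ 2 := by
  have h1 := D.H_le_A m hA hH
  have h2 := D.sw12.H_le_A m (by rwa [sw12_A, sw12_A]) (by rwa [sw12_H, sw12_H])
  have h3 := D.sw23.sw12.H_le_A m (by rwa [sw12_A, sw12_A, sw23_B, sw23_B])
    (by rwa [sw12_H, sw12_H, sw23_H, sw23_H])
  rw [sw12_A, sw12_H] at h2
  rw [sw12_A, sw12_H, sw23_B, sw23_H] at h3
  by_contra hcon
  push Not at hcon
  have h4 : 3 ≤ D.H m := by
    apply isI_three.le_of_lt (D.isI_H m)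
    linarith
  have h5 := D.sum_eq m
  rcases hc m with h | h | h | h | h <;> linarith

end Dat

end Pool.Agent.U866.HX
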