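import Mathlib

set_option autoImplicit false

/-!
# Cyclic covers of the plane blown up in three points: definitions

The plane blown up in the three coordinate points is the smooth toric surface `S` whose fan has the
six rays `(1, 0)`, `(1, 1)`, `(0, 1)`, `(-1, 0)`, `(-1, -1)`, `(0, -1)`.
-/

namespace Pool.Agent.U866.HX

open MvPolynomial

/-- the order of vanishing of the polynomial `f` in `x, y` along the boundary curve of `S` with the
ray `r`: the minimum of `r.1 * i + r.2 * j` over the monomials `x ^ i * y ^ j` of `f` -/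
noncomputable def ordAt (r : ℤ × ℤ) (f : MvPolynomial (Fin 2) ℂ) : ℤ :=
  sInf ((fun m : Fin 2 →₀ ℕ => r.1 * (m 0 : ℤ) + r.2 * (m 1 : ℤ)) '' (f.support : Set (Fin 2 →₀ ℕ)))

/-- the six rays of the fan of `S` -/
def rays : Finset (ℤ × ℤ) := {(1, 0), (0, 1), (1, 1), (-1, 0), (0, -1), (-1, -1)}

/-- the monomial `x ^ a * y ^ b` is a section of the adjoint line bundle of the character with the
residues `c i`: its order along each boundary curve is larger than the sum of the
`ordAt r (f i) * c i / n`, where `c i` is represented in `{0, ..., n - 1}` -/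
def IsAdjoint {ι : Type} [Fintype ι] (n : ℕ) (f : ι → MvPolynomial (Fin 2) ℂ) (c : ι → ZMod n)
    (a b : ℤ) : Prop :=
  ∀ r ∈ rays, ∑ i, (ordAt r (f i) : ℚ) * (((c i).val : ℚ) / n) < r.1 * a + r.2 * b

theorem ordAt_le {r : ℤ × ℤ} {f : MvPolynomial (Fin 2) ℂ} {m : Fin 2 →₀ ℕ} (hm : m ∈ f.support) :
    ordAt r f ≤ r.1 * (m 0 : ℤ) + r.2 * (m 1 : ℤ) := by
  unfold ordAt
  apply csInf_le
  · exact (Set.Finite.image _ (Finset.finite_toSet _)).bddBelow
  · exact ⟨m, hm, rfl⟩

theorem exists_ordAt (r : ℤ × ℤ) {f : MvPolynomial (Fin 2) ℂ} (hf : f ≠ 0) :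
    ∃ m ∈ f.support, ordAt r f = r.1 * (m 0 : ℤ) + r.2 * (m 1 : ℤ) := by
  have hne : (f.support : Set (Fin 2 →₀ ℕ)).Nonempty := by
    obtain ⟨m, hm⟩ := Finset.nonempty_of_ne_empty (by rwa [Ne, support_eq_empty] : f.support ≠ ∅)
    exact ⟨m, hm⟩
  have h := Int.csInf_mem (hne.image
    (fun m : Fin 2 →₀ ℕ => r.1 * (m 0 : ℤ) + r.2 * (m 1 : ℤ)))
    (Set.Finite.image _ (Finset.finite_toSet f.support)).bddBelow
  obtain ⟨m, hm, h1⟩ := h
  exact ⟨m, hm, h1.symm⟩

end Pool.Agent.U866.HX
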