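import Pool.Agent.U866.HX.Main

set_option autoImplicit false

/-!
# The exceptional case
-/

namespace Pool.Agent.U866.HX

open Pool.Agent.N197.Pln Pool.Agent.U15.DP MvPolynomial

open Classical in
/-- the branch curve of the cover, with its boundary components, is numerically equivalent to
`-2 K_S`: for some `a, b` the order along each boundary curve of the product of the `f i` with
`c i ≠ 0` is `r.1 * a + r.2 * b - 2`, or `r.1 * a + r.2 * b - 1` if the boundary curve is a branch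
curve -/
def IsMinusTwoK {ι : Type} [Fintype ι] {n : ℕ} (f : ι → MvPolynomial (Fin 2) ℂ)
    (c : ι → ZMod n) : Prop :=
  ∃ a b : ℤ, ∀ r ∈ rays, ∑ i with c i ≠ 0, ordAt r (f i) =
    r.1 * a + r.2 * b - 2 + if ∑ i, ordAt r (f i) • c i = 0 then 0 else 1

section

variable {ι : Type} [Fintype ι] {n : ℕ} {f : ι → MvPolynomial (Fin 2) ℂ} {c : ι → ZMod n}

theorem M_int {w : ι → ℕ} {v : ι → ℤ} (h : ∀ i, (w i : ℤ) = v i) :
    M w c 1 = ∑ i, (v i : ℚ) * nz (c i) := by
  unfold M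
  apply Finset.sum_congr rfl
  intro i _
  rw [← h i, one_mul]
  push_cast
  rfl

/-- the orders of the branch curves -/
noncomputable def oq (f : ι → MvPolynomial (Fin 2) ℂ) (c : ι → ZMod n) (r : ℤ × ℤ) : ℚ :=
  ∑ i, (ordAt r (f i) : ℚ) * nz (c i)

theorem M_two (hf : ∀ i, f i ≠ 0) {r s : ℤ × ℤ} (h1 : r.1 + s.1 = 0)
    (h2 : r.2 + s.2 = 0) : M (fun i => wd (f i) r s) c 1 = -oq f c r - oq f c s := by
  rw [M_int (fun i => wd_cast (hf i) h1 h2)]
  unfold oq
  rw [← Finset.sum_neg_distrib, ← Finset.sum_sub_distrib]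
  apply Finset.sum_congr rfl
  intro i _
  push_cast
  ring

theorem M_three (hf : ∀ i, f i ≠ 0) {r s t : ℤ × ℤ} (h1 : r.1 + s.1 + t.1 = 0)
    (h2 : r.2 + s.2 + t.2 = 0) : M (fun i => wt (f i) r s t) c 1 =
      -oq f c r - oq f c s - oq f c t := by
  rw [M_int (fun i => wt_cast (hf i) h1 h2)]
  unfold oq
  rw [← Finset.sum_neg_distrib, ← Finset.sum_sub_distrib, ← Finset.sum_sub_distrib]
  apply Finset.sum_congr rfl
  intro i _
  push_cast
  ring

/-- the theorem with the exceptional case in terms of the orders -/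
theorem main_exc [NeZero n] (hf : ∀ i, f i ≠ 0)
    (hpg : ∀ k a b : ℤ, ¬ IsAdjoint n f (fun i => k • c i) a b) :
    AffineDominatedByCurves n f c ∨
      IsMinusTwoK f c ∧ ¬ ∃ p a : ℕ, p.Prime ∧ p ≠ 2 ∧ n = p ^ a := by
  classical
  rcases main hf hpg with h | ⟨h1, h2, h3, h4, h5, hN⟩
  · exact Or.inl h
  right
  refine ⟨?_, hN⟩
  rw [T_pair, one_mul, one_mul, mul_zero, nz_zero, M_two hf (by norm_num) (by norm_num)]
    at h1 h2 h3
  rw [T_pair, one_mul, one_mul, one_mul, M_three hf (by norm_num) (by norm_num)] at h4 h5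
  have ho : ∀ r, ∃ t : ℤ, oq f c r - nz (res f c r) = t ∧
      ((∑ i with c i ≠ 0, ordAt r (f i) : ℤ)) =
        t + if ∑ i, ordAt r (f i) • c i = 0 then 0 else 1 := by
    intro r
    refine ⟨(∑ i with c i ≠ 0, ordAt r (f i)) -
      (if ∑ i, ordAt r (f i) • c i = 0 then 0 else 1), ?_, by ring⟩
    unfold oq nz res
    rw [Finset.sum_filter]
    push_cast
    congr 1
    apply Finset.sum_congr rfl
    intro i _
    by_cases hi : c i = 0 <;> simp [hi]
  obtain ⟨t1, u1, v1⟩ := ho (1, 0)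
  obtain ⟨t2, u2, v2⟩ := ho (0, 1)
  obtain ⟨t3, u3, v3⟩ := ho (1, 1)
  obtain ⟨t4, u4, v4⟩ := ho (-1, 0)
  obtain ⟨t5, u5, v5⟩ := ho (0, -1)
  obtain ⟨t6, u6, v6⟩ := ho (-1, -1)
  have g1 : ((-t1 - t4 : ℤ) : ℚ) = ((4 : ℤ) : ℚ) := by
    push_cast
    linarith
  have g2 : ((-t2 - t5 : ℤ) : ℚ) = ((4 : ℤ) : ℚ) := by
    push_cast
    linarith
  have g3 : ((-t3 - t6 : ℤ) : ℚ) = ((4 : ℤ) : ℚ) := by
    push_cast
    linarith
  have g4 : ((-t1 - t2 - t6 : ℤ) : ℚ) = ((6 : ℤ) : ℚ) := by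
    push_cast
    linarith
  have k1 : -t1 - t4 = 4 := by exact_mod_cast g1
  have k2 : -t2 - t5 = 4 := by exact_mod_cast g2
  have k3 : -t3 - t6 = 4 := by exact_mod_cast g3
  have k4 : -t1 - t2 - t6 = 6 := by exact_mod_cast g4
  refine ⟨t1 + 2, t2 + 2, ?_⟩
  intro r hr
  simp only [rays, Finset.mem_insert, Finset.mem_singleton] at hr
  rcases hr with rfl | rfl | rfl | rfl | rfl | rfl
  · rw [v1]
    congr 1
    simp only
    linarith
  · rw [v2]
    congr 1
    simp only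
    linarith
  · rw [v3]
    congr 1
    simp only
    linarith
  · rw [v4]
    congr 1
    simp only
    linarith
  · rw [v5]
    congr 1
    simp only
    linarith
  · rw [v6]
    congr 1
    simp only
    linarith

end

end Pool.Agent.U866.HX
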