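import Pool.Agent.U866.HX.Nef
import Pool.Agent.N197.Pln.Main
import Pool.Agent.N197.Pln.QMain

set_option autoImplicit false

/-!
# Monomial changes of the coordinates
-/

namespace Pool.Agent.U866.HX

open Pool.Agent.N197.Pln Pool.Agent.U15.DP MvPolynomial

section indep

variable {Ω : Type} [Field Ω] [Algebra ℂ Ω] {x y : Ω}

theorem ne_zero_of_pair (h : AlgebraicIndependent ℂ ![x, y]) : x ≠ 0 ∧ y ≠ 0 := by
  refine ⟨?_, ?_⟩
  · rintro rfl
    exact ((pair_iff _ _).mp h).1 isAlgebraic_zero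
  · rintro rfl
    exact ((pair_iff _ _).mp h).2 isAlgebraic_zero

theorem pair_inv_right (h : AlgebraicIndependent ℂ ![x, y]) :
    AlgebraicIndependent ℂ ![x, y⁻¹] := by
  rw [pair_iff] at h ⊢
  refine ⟨h.1, fun hcon => h.2 ?_⟩
  have := hcon.inv
  rwa [inv_inv] at this

theorem pair_inv (h : AlgebraicIndependent ℂ ![x, y]) :
    AlgebraicIndependent ℂ ![x⁻¹, y⁻¹] :=
  pair_symm (pair_inv_right (pair_symm (pair_inv_right h)))

theorem pair_mul (h : AlgebraicIndependent ℂ ![x, y]) :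
    AlgebraicIndependent ℂ ![x, x * y] := by
  have hx0 := (ne_zero_of_pair h).1
  rw [pair_iff] at h ⊢
  refine ⟨h.1, fun hcon => h.2 ?_⟩
  have h1 : IsAlgebraic (IntermediateField.adjoin ℂ {x}) (x⁻¹ : Ω) :=
    (isAlgebraic_algebraMap
      (⟨x, IntermediateField.mem_adjoin_simple_self ℂ x⟩ : IntermediateField.adjoin ℂ {x})).inv
  have h2 := h1.mul hcon
  rwa [← mul_assoc, inv_mul_cancel₀ hx0, one_mul] at h2

end indep

/-- the polynomial with the monomials moved -/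
noncomputable def tr (φ ψ : (Fin 2 →₀ ℕ) → ℕ) (f : MvPolynomial (Fin 2) ℂ) :
    MvPolynomial (Fin 2) ℂ :=
  ∑ m ∈ f.support, C (coeff m f) * (X 0 ^ φ m * X 1 ^ ψ m)

theorem aeval_tr {Ω : Type} [Field Ω] [Algebra ℂ Ω] (φ ψ : (Fin 2 →₀ ℕ) → ℕ)
    (f : MvPolynomial (Fin 2) ℂ) (x y : Ω) : aeval ![x, y] (tr φ ψ f) =
      ∑ m ∈ f.support, algebraMap ℂ Ω (coeff m f) * (x ^ φ m * y ^ ψ m) := by
  unfold tr
  simp

theorem aeval_eq_sum {Ω : Type} [Field Ω] [Algebra ℂ Ω] (f : MvPolynomial (Fin 2) ℂ) (x y : Ω) :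
    aeval ![x, y] f = ∑ m ∈ f.support, algebraMap ℂ Ω (coeff m f) * (x ^ m 0 * y ^ m 1) := by
  rw [aeval_def, eval₂_eq']
  apply Finset.sum_congr rfl
  intro m _
  rw [Fin.prod_univ_two]
  rfl

theorem degreeOf_tr {φ ψ : (Fin 2 →₀ ℕ) → ℕ} {f : MvPolynomial (Fin 2) ℂ} {d : ℕ}
    (h : ∀ m ∈ f.support, φ m ≤ d) : (tr φ ψ f).degreeOf 0 ≤ d := by
  unfold tr
  refine (degreeOf_sum_le _ _ _).trans ?_
  apply Finset.sup_le
  intro m hm
  refine (degreeOf_mul_le _ _ _).trans ?_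
  rw [degreeOf_C, zero_add]
  refine (degreeOf_mul_le _ _ _).trans ?_
  have h1 : degreeOf (0 : Fin 2) (X 0 ^ φ m : MvPolynomial (Fin 2) ℂ) ≤ φ m := by
    refine (degreeOf_pow_le _ _ _).trans ?_
    rw [degreeOf_X_self, mul_one]
  have h2 : degreeOf (0 : Fin 2) (X 1 ^ ψ m : MvPolynomial (Fin 2) ℂ) ≤ 0 := by
    refine (degreeOf_pow_le _ _ _).trans ?_
    rw [degreeOf_X_of_ne (by decide), mul_zero]
  have := h m hm
  omega

theorem totalDegree_tr {φ ψ : (Fin 2 →₀ ℕ) → ℕ} {f : MvPolynomial (Fin 2) ℂ} {d : ℕ}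
    (h : ∀ m ∈ f.support, φ m + ψ m ≤ d) : (tr φ ψ f).totalDegree ≤ d := by
  unfold tr
  refine (totalDegree_finsetSum _ _).trans ?_
  apply Finset.sup_le
  intro m hm
  refine (totalDegree_mul _ _).trans ?_
  rw [totalDegree_C, zero_add]
  refine (totalDegree_mul _ _).trans ?_
  rw [totalDegree_X_pow, totalDegree_X_pow]
  exact h m hm

/-- the factors in the new coordinates -/
noncomputable def newF {ι : Type} (g : ι → MvPolynomial (Fin 2) ℂ) :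
    Option (Option ι) → MvPolynomial (Fin 2) ℂ :=
  fun o => o.elim (X 0) (fun o' => o'.elim (X 1) g)

/-- the residues in the new coordinates -/
def newC {ι : Type} {n : ℕ} (a b : ZMod n) (c : ι → ZMod n) : Option (Option ι) → ZMod n :=
  fun o => o.elim a (fun o' => o'.elim b c)

/-- weights in the new coordinates -/
def newD {ι : Type} (a b : ℕ) (d : ι → ℕ) : Option (Option ι) → ℕ :=
  fun o => o.elim a (fun o' => o'.elim b d)

theorem aeval_tr_eq {Ω : Type} [Field Ω] [Algebra ℂ Ω] {x y : Ω} (hx0 : x ≠ 0) (hy0 : y ≠ 0)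
    (p q r s : ℤ) {u v : ℤ} {φ ψ : (Fin 2 →₀ ℕ) → ℕ} {f : MvPolynomial (Fin 2) ℂ}
    (hφ : ∀ m ∈ f.support, (φ m : ℤ) = p * m 0 + r * m 1 - u)
    (hψ : ∀ m ∈ f.support, (ψ m : ℤ) = q * m 0 + s * m 1 - v) :
    aeval ![x ^ p * y ^ q, x ^ r * y ^ s] f = x ^ u * y ^ v * aeval ![x, y] (tr φ ψ f) := by
  rw [aeval_eq_sum, aeval_tr, Finset.mul_sum]
  apply Finset.sum_congr rfl
  intro m hm
  have e1 : (x ^ p * y ^ q) ^ m 0 * (x ^ r * y ^ s) ^ m 1 =
      x ^ (p * m 0 + r * m 1) * y ^ (q * m 0 + s * m 1) := by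
    rw [mul_pow, mul_pow, zpow_add₀ hx0, zpow_add₀ hy0]
    simp only [← zpow_natCast, ← zpow_mul]
    ring
  have e2 : x ^ u * x ^ φ m = x ^ (p * m 0 + r * m 1) := by
    rw [← zpow_natCast, ← zpow_add₀ hx0, hφ m hm]
    congr 1
    ring
  have e3 : y ^ v * y ^ ψ m = y ^ (q * m 0 + s * m 1) := by
    rw [← zpow_natCast, ← zpow_add₀ hy0, hψ m hm]
    congr 1
    ring
  rw [e1, ← e2, ← e3]
  ring

/-- the new polynomial is not zero -/
theorem tr_ne_zero (p q r s : ℤ) {u v : ℤ} {φ ψ : (Fin 2 →₀ ℕ) → ℕ} {f : MvPolynomial (Fin 2) ℂ}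
    (hφ : ∀ m ∈ f.support, (φ m : ℤ) = p * m 0 + r * m 1 - u)
    (hψ : ∀ m ∈ f.support, (ψ m : ℤ) = q * m 0 + s * m 1 - v)
    (hind : ∀ (Ω : Type) [Field Ω] [Algebra ℂ Ω] (x y : Ω), AlgebraicIndependent ℂ ![x, y] →
      AlgebraicIndependent ℂ ![x ^ p * y ^ q, x ^ r * y ^ s])
    (hf : f ≠ 0) : tr φ ψ f ≠ 0 := by
  intro h0
  obtain ⟨Ω, _, _, _, x, y, hxy⟩ := exists_field
  obtain ⟨hx0, hy0⟩ := ne_zero_of_pair hxy
  have h1 := aeval_tr_eq hx0 hy0 p q r s hφ hψ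
  rw [h0, map_zero, mul_zero] at h1
  exact hf ((hind Ω x y hxy) (by rw [h1, map_zero]))

theorem transfer {ι : Type} [Fintype ι] {n : ℕ} [NeZero n] {f : ι → MvPolynomial (Fin 2) ℂ}
    {c : ι → ZMod n} (p q r s : ℤ) (u v : ι → ℤ) (φ ψ : ι → (Fin 2 →₀ ℕ) → ℕ)
    (hφ : ∀ i, ∀ m ∈ (f i).support, (φ i m : ℤ) = p * m 0 + r * m 1 - u i)
    (hψ : ∀ i, ∀ m ∈ (f i).support, (ψ i m : ℤ) = q * m 0 + s * m 1 - v i)
    (hind : ∀ (Ω : Type) [Field Ω] [Algebra ℂ Ω] (x y : Ω), AlgebraicIndependent ℂ ![x, y] →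
      AlgebraicIndependent ℂ ![x ^ p * y ^ q, x ^ r * y ^ s])
    (h : AffineDominatedByCurves n (newF fun i => tr (φ i) (ψ i) (f i))
      (newC (∑ i, u i • c i) (∑ i, v i • c i) c)) :
    AffineDominatedByCurves n f c := by
  obtain ⟨Ω, _, _, K₁, K₂, hK, x, hx, y, hy, z, hz, hxy, hval⟩ := h
  obtain ⟨hx0, hy0⟩ := ne_zero_of_pair hxy
  have hdiv : ∀ w : ι → ℤ, ∃ t : ℤ, ∑ i, w i * ((c i).val : ℤ) =
      ((∑ i, w i • c i : ZMod n).val : ℤ) + n * t := by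
    intro w
    have h1 : (((∑ i, w i * ((c i).val : ℤ)) - ((∑ i, w i • c i : ZMod n).val : ℤ) : ℤ) :
        ZMod n) = 0 := by
      push_cast
      simp only [ZMod.natCast_zmod_val, zsmul_eq_mul, sub_self]
    obtain ⟨t, ht⟩ := (ZMod.intCast_zmod_eq_zero_iff_dvd _ _).mp h1
    exact ⟨t, by linarith⟩
  obtain ⟨a, ha⟩ := hdiv u
  obtain ⟨b, hb⟩ := hdiv v
  have key : ∀ i, aeval ![x ^ p * y ^ q, x ^ r * y ^ s] (f i) =
      x ^ u i * y ^ v i * aeval ![x, y] (tr (φ i) (ψ i) (f i)) :=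
    fun i => aeval_tr_eq hx0 hy0 p q r s (hφ i) (hψ i)
  refine ⟨Ω, inferInstance, inferInstance, K₁, K₂, hK, x ^ p * y ^ q,
    mul_mem (zpow_mem hx _) (zpow_mem hy _), x ^ r * y ^ s,
    mul_mem (zpow_mem hx _) (zpow_mem hy _), z * (x ^ a * y ^ b),
    mul_mem hz (mul_mem (zpow_mem hx _) (zpow_mem hy _)), hind Ω x y hxy, ?_⟩
  rw [mul_pow, hval, Fintype.prod_option, Fintype.prod_option]
  simp only [newF, newC, Option.elim_none, Option.elim_some, aeval_X, Matrix.cons_val_zero,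
    Matrix.cons_val_one]
  have e4 : ∏ i, aeval ![x ^ p * y ^ q, x ^ r * y ^ s] (f i) ^ (c i).val =
      x ^ (∑ i, u i * ((c i).val : ℤ)) * y ^ (∑ i, v i * ((c i).val : ℤ)) *
        ∏ i, aeval ![x, y] (tr (φ i) (ψ i) (f i)) ^ (c i).val := by
    have e5 : ∀ (w : Ω) (hw : w ≠ 0) (e : ι → ℤ), w ^ (∑ i, e i) = ∏ i, w ^ e i := by
      intro w hw e
      classical
      have : ∀ S : Finset ι, w ^ (∑ i ∈ S, e i) = ∏ i ∈ S, w ^ e i := by
        intro S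
        induction S using Finset.induction_on with
        | empty => simp
        | insert i S hi ih => rw [Finset.sum_insert hi, Finset.prod_insert hi, zpow_add₀ hw, ih]
      exact this _
    rw [e5 x hx0, e5 y hy0, ← Finset.prod_mul_distrib, ← Finset.prod_mul_distrib]
    apply Finset.prod_congr rfl
    intro i _
    rw [key i, mul_pow, mul_pow, zpow_mul, zpow_mul, zpow_natCast, zpow_natCast]
  rw [e4, ha, hb, zpow_add₀ hx0, zpow_add₀ hy0, zpow_natCast, zpow_natCast, mul_pow]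
  have e6 : ∀ (w : Ω) (t : ℤ), w ^ ((n : ℤ) * t) = (w ^ t) ^ n := by
    intro w t
    rw [mul_comm, zpow_mul, zpow_natCast]
  rw [e6, e6]
  ring

end Pool.Agent.U866.HX
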