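import Pool.Agent.U866.HX.Cases
import Pool.Agent.U866.HX.Defs

set_option autoImplicit false

/-!
# Cyclic covers of the plane blown up in three points
-/

namespace Pool.Agent.U866.HX

open Pool.Agent.N197.Pln Pool.Agent.U15.DP MvPolynomial

theorem ordAt_zero {f : MvPolynomial (Fin 2) ℂ} (hf : f ≠ 0) : ordAt (0, 0) f = 0 := by
  obtain ⟨m, _, h⟩ := exists_ordAt (0, 0) hf
  rw [h]
  ring

theorem ordAt_add_le {f : MvPolynomial (Fin 2) ℂ} (hf : f ≠ 0) (r s : ℤ × ℤ) :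
    ordAt r f + ordAt s f ≤ ordAt (r.1 + s.1, r.2 + s.2) f := by
  obtain ⟨m, hm, h⟩ := exists_ordAt (r.1 + s.1, r.2 + s.2) hf
  rw [h]
  have h1 := ordAt_le (r := r) hm
  have h2 := ordAt_le (r := s) hm
  linarith

section

variable {ι : Type} [Fintype ι] {n : ℕ}

/-- the residue of a boundary curve -/
noncomputable def res (f : ι → MvPolynomial (Fin 2) ℂ) (c : ι → ZMod n) (r : ℤ × ℤ) : ZMod n :=
  ∑ i, ordAt r (f i) • c i

/-- the bound for the order along a boundary curve -/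
noncomputable def sg (f : ι → MvPolynomial (Fin 2) ℂ) (c : ι → ZMod n) (r : ℤ × ℤ) (m : ZMod n) :
    ℚ :=
  ∑ i, (ordAt r (f i) : ℚ) * fr (m * c i)

variable {f : ι → MvPolynomial (Fin 2) ℂ} {c : ι → ZMod n}

theorem fr_res [NeZero n] (r : ℤ × ℤ) (m : ZMod n) :
    fr (m * res f c r) = Int.fract (sg f c r m) := by
  have h1 : m * res f c r = ((∑ i, ordAt r (f i) * ((m * c i).val : ℤ) : ℤ) : ZMod n) := by
    unfold res
    push_cast
    rw [Finset.mul_sum]
    apply Finset.sum_congr rfl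
    intro i _
    rw [zsmul_eq_mul, ZMod.natCast_zmod_val]
    ring
  rw [h1, fr_intCast]
  congr 1
  unfold sg fr
  push_cast
  rw [Finset.sum_div]
  apply Finset.sum_congr rfl
  intro i _
  ring

/-- the width in the direction given by two opposite rays -/
noncomputable def wd (f : MvPolynomial (Fin 2) ℂ) (r s : ℤ × ℤ) : ℕ :=
  (-ordAt r f - ordAt s f).toNat

/-- the width in the direction given by three rays with sum zero -/
noncomputable def wt (f : MvPolynomial (Fin 2) ℂ) (r s t : ℤ × ℤ) : ℕ :=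
  (-ordAt r f - ordAt s f - ordAt t f).toNat

theorem wd_cast {f : MvPolynomial (Fin 2) ℂ} (hf : f ≠ 0) {r s : ℤ × ℤ} (h1 : r.1 + s.1 = 0)
    (h2 : r.2 + s.2 = 0) : (wd f r s : ℤ) = -ordAt r f - ordAt s f := by
  unfold wd
  have h3 := ordAt_add_le hf r s
  rw [h1, h2, ordAt_zero hf] at h3
  exact Int.toNat_of_nonneg (by linarith)

theorem wt_cast {f : MvPolynomial (Fin 2) ℂ} (hf : f ≠ 0) {r s t : ℤ × ℤ}
    (h1 : r.1 + s.1 + t.1 = 0) (h2 : r.2 + s.2 + t.2 = 0) :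
    (wt f r s t : ℤ) = -ordAt r f - ordAt s f - ordAt t f := by
  unfold wt
  have h3 := ordAt_add_le hf r s
  have h4 := ordAt_add_le hf (r.1 + s.1, r.2 + s.2) t
  simp only at h4
  rw [h1, h2, ordAt_zero hf] at h4
  exact Int.toNat_of_nonneg (by linarith)

/-- the intersection numbers of the curve -/
theorem nef_of {f : MvPolynomial (Fin 2) ℂ} (hf : f ≠ 0) :
    Nef (wd f (1, 0) (-1, 0)) (wd f (0, 1) (0, -1)) (wd f (-1, -1) (1, 1))
      (wt f (1, 0) (0, 1) (-1, -1)) (wt f (-1, 0) (0, -1) (1, 1)) := by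
  have x1 := wd_cast hf (r := (1, 0)) (s := (-1, 0)) (by norm_num) (by norm_num)
  have x2 := wd_cast hf (r := (0, 1)) (s := (0, -1)) (by norm_num) (by norm_num)
  have x3 := wd_cast hf (r := (-1, -1)) (s := (1, 1)) (by norm_num) (by norm_num)
  have x4 := wt_cast hf (r := (1, 0)) (s := (0, 1)) (t := (-1, -1)) (by norm_num) (by norm_num)
  have x5 := wt_cast hf (r := (-1, 0)) (s := (0, -1)) (t := (1, 1)) (by norm_num) (by norm_num)
  have y1 := ordAt_add_le hf (0, 1) (-1, -1)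
  have y2 := ordAt_add_le hf (1, 0) (-1, -1)
  have y3 := ordAt_add_le hf (1, 0) (0, 1)
  have y4 := ordAt_add_le hf (0, -1) (1, 1)
  have y5 := ordAt_add_le hf (-1, 0) (1, 1)
  have y6 := ordAt_add_le hf (-1, 0) (0, -1)
  norm_num at y1 y2 y3 y4 y5 y6
  constructor <;> omega

theorem L_int {w : ι → ℕ} {v : ι → ℤ} (h : ∀ i, (w i : ℤ) = v i) (m : ZMod n) :
    L w c m = ∑ i, (v i : ℚ) * fr (m * c i) := by
  unfold L
  apply Finset.sum_congr rfl
  intro i _
  rw [← h i]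
  push_cast
  rfl

theorem sum_int {w : ι → ℕ} {v : ι → ℤ} (h : ∀ i, (w i : ℤ) = v i) :
    ∑ i, w i • c i = ∑ i, v i • c i := by
  apply Finset.sum_congr rfl
  intro i _
  rw [← h i, natCast_zsmul]

theorem rel_two (hf : ∀ i, f i ≠ 0) {r s : ℤ × ℤ} (h1 : r.1 + s.1 = 0)
    (h2 : r.2 + s.2 = 0) : ∑ i, wd (f i) r s • c i + res f c s + res f c r = 0 := by
  rw [sum_int fun i => wd_cast (hf i) h1 h2]
  unfold res
  rw [← Finset.sum_add_distrib, ← Finset.sum_add_distrib]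
  apply Finset.sum_eq_zero
  intro i _
  rw [← add_smul, ← add_smul]
  simp

theorem rel_three (hf : ∀ i, f i ≠ 0) {r s t : ℤ × ℤ} (h1 : r.1 + s.1 + t.1 = 0)
    (h2 : r.2 + s.2 + t.2 = 0) :
    ∑ i, wt (f i) r s t • c i + res f c r + res f c s + res f c t = 0 := by
  rw [sum_int fun i => wt_cast (hf i) h1 h2]
  unfold res
  rw [← Finset.sum_add_distrib, ← Finset.sum_add_distrib, ← Finset.sum_add_distrib]
  apply Finset.sum_eq_zero
  intro i _
  rw [← add_smul, ← add_smul, ← add_smul]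
  have e : -ordAt r (f i) - ordAt s (f i) - ordAt t (f i) + ordAt r (f i) + ordAt s (f i) +
      ordAt t (f i) = 0 := by ring
  rw [e, zero_smul]

theorem T_two [NeZero n] (hf : ∀ i, f i ≠ 0) {r s : ℤ × ℤ} (h1 : r.1 + s.1 = 0)
    (h2 : r.2 + s.2 = 0) (m : ZMod n) :
    T (fun i => wd (f i) r s) c (res f c s) (res f c r) 0 m =
      ((-⌊sg f c r m⌋ - ⌊sg f c s m⌋ : ℤ) : ℚ) := by
  unfold T
  rw [L_int (fun i => wd_cast (hf i) h1 h2), fr_res, fr_res, mul_zero, fr_zero]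
  have e : ∑ i, ((-ordAt r (f i) - ordAt s (f i) : ℤ) : ℚ) * fr (m * c i) =
      -sg f c r m - sg f c s m := by
    unfold sg
    rw [← Finset.sum_neg_distrib, ← Finset.sum_sub_distrib]
    apply Finset.sum_congr rfl
    intro i _
    push_cast
    ring
  rw [e]
  have e1 := Int.self_sub_floor (sg f c r m)
  have e2 := Int.self_sub_floor (sg f c s m)
  push_cast
  linarith

theorem T_three [NeZero n] (hf : ∀ i, f i ≠ 0) {r s t : ℤ × ℤ} (h1 : r.1 + s.1 + t.1 = 0)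
    (h2 : r.2 + s.2 + t.2 = 0) (m : ZMod n) :
    T (fun i => wt (f i) r s t) c (res f c r) (res f c s) (res f c t) m =
      ((-⌊sg f c r m⌋ - ⌊sg f c s m⌋ - ⌊sg f c t m⌋ : ℤ) : ℚ) := by
  unfold T
  rw [L_int (fun i => wt_cast (hf i) h1 h2), fr_res, fr_res, fr_res]
  have e : ∑ i, ((-ordAt r (f i) - ordAt s (f i) - ordAt t (f i) : ℤ) : ℚ) * fr (m * c i) =
      -sg f c r m - sg f c s m - sg f c t m := by
    unfold sg
    rw [← Finset.sum_neg_distrib, ← Finset.sum_sub_distrib, ← Finset.sum_sub_distrib]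
    apply Finset.sum_congr rfl
    intro i _
    push_cast
    ring
  rw [e]
  have e1 := Int.self_sub_floor (sg f c r m)
  have e2 := Int.self_sub_floor (sg f c s m)
  have e3 := Int.self_sub_floor (sg f c t m)
  push_cast
  linarith

/-- a lattice point in a hexagon -/
theorem exists_point {p₁ p₂ p₃ P₁ P₂ P₃ : ℤ} (h1 : p₁ ≤ P₁) (h2 : p₂ ≤ P₂) (h3 : p₃ ≤ P₃)
    (h4 : p₁ + p₂ ≤ P₃) (h5 : p₃ ≤ P₁ + P₂) :
    ∃ a b : ℤ, p₁ ≤ a ∧ a ≤ P₁ ∧ p₂ ≤ b ∧ b ≤ P₂ ∧ p₃ ≤ a + b ∧ a + b ≤ P₃ := by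
  refine ⟨min P₁ (max (p₁ + p₂) p₃ - p₂), max (p₁ + p₂) p₃ - min P₁ (max (p₁ + p₂) p₃ - p₂), ?_⟩
  omega

/-- the arithmetic form of the hypothesis -/
theorem cond_of [NeZero n] (hf : ∀ i, f i ≠ 0)
    (hpg : ∀ k a b : ℤ, ¬ IsAdjoint n f (fun i => k • c i) a b) (m : ZMod n) :
    T (fun i => wd (f i) (1, 0) (-1, 0)) c (res f c (-1, 0)) (res f c (1, 0)) 0 m ≤ 1 ∨
    T (fun i => wd (f i) (0, 1) (0, -1)) c (res f c (0, -1)) (res f c (0, 1)) 0 m ≤ 1 ∨
    T (fun i => wd (f i) (-1, -1) (1, 1)) c (res f c (1, 1)) (res f c (-1, -1)) 0 m ≤ 1 ∨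
    T (fun i => wt (f i) (1, 0) (0, 1) (-1, -1)) c (res f c (1, 0)) (res f c (0, 1))
      (res f c (-1, -1)) m ≤ 2 ∨
    T (fun i => wt (f i) (-1, 0) (0, -1) (1, 1)) c (res f c (-1, 0)) (res f c (0, -1))
      (res f c (1, 1)) m ≤ 2 := by
  rw [T_two hf (by norm_num) (by norm_num), T_two hf (by norm_num) (by norm_num),
    T_two hf (by norm_num) (by norm_num), T_three hf (by norm_num) (by norm_num),
    T_three hf (by norm_num) (by norm_num)]
  by_contra hcon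
  push Not at hcon
  obtain ⟨h1, h2, h3, h4, h5⟩ := hcon
  have g1 : (1 : ℤ) < -⌊sg f c (1, 0) m⌋ - ⌊sg f c (-1, 0) m⌋ := by exact_mod_cast h1
  have g2 : (1 : ℤ) < -⌊sg f c (0, 1) m⌋ - ⌊sg f c (0, -1) m⌋ := by exact_mod_cast h2
  have g3 : (1 : ℤ) < -⌊sg f c (-1, -1) m⌋ - ⌊sg f c (1, 1) m⌋ := by exact_mod_cast h3
  have g4 : (2 : ℤ) < -⌊sg f c (1, 0) m⌋ - ⌊sg f c (0, 1) m⌋ - ⌊sg f c (-1, -1) m⌋ := by
    exact_mod_cast h4
  have g5 : (2 : ℤ) < -⌊sg f c (-1, 0) m⌋ - ⌊sg f c (0, -1) m⌋ - ⌊sg f c (1, 1) m⌋ := by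
    exact_mod_cast h5
  obtain ⟨a, b, k1, k2, k3, k4, k5, k6⟩ := exists_point
    (p₁ := ⌊sg f c (1, 0) m⌋ + 1) (P₁ := -⌊sg f c (-1, 0) m⌋ - 1)
    (p₂ := ⌊sg f c (0, 1) m⌋ + 1) (P₂ := -⌊sg f c (0, -1) m⌋ - 1)
    (p₃ := ⌊sg f c (1, 1) m⌋ + 1) (P₃ := -⌊sg f c (-1, -1) m⌋ - 1)
    (by linarith) (by linarith) (by linarith) (by linarith) (by linarith)
  apply hpg (m.val : ℤ) a b
  have hcast : ∀ r : ℤ × ℤ, ∑ i, (ordAt r (f i) : ℚ) * ((((m.val : ℤ) • c i : ZMod n).val : ℚ) / n) =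
      sg f c r m := by
    intro r
    unfold sg fr
    apply Finset.sum_congr rfl
    intro i _
    rw [zsmul_eq_mul, intCast_val]
  have hlt : ∀ r : ℤ × ℤ, ⌊sg f c r m⌋ + 1 ≤ r.1 * a + r.2 * b →
      ∑ i, (ordAt r (f i) : ℚ) * ((((m.val : ℤ) • c i : ZMod n).val : ℚ) / n) <
        r.1 * a + r.2 * b := by
    intro r hr
    rw [hcast]
    have h6 := Int.lt_floor_add_one (sg f c r m)
    have h7 : ((⌊sg f c r m⌋ + 1 : ℤ) : ℚ) ≤ ((r.1 * a + r.2 * b : ℤ) : ℚ) := by exact_mod_cast hr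
    push_cast at h7
    linarith
  intro r hr
  apply hlt
  simp only [rays, Finset.mem_insert, Finset.mem_singleton] at hr
  rcases hr with rfl | rfl | rfl | rfl | rfl | rfl <;> norm_num <;> linarith

end

theorem ind_one (Ω : Type) [Field Ω] [Algebra ℂ Ω] (x y : Ω) (h : AlgebraicIndependent ℂ ![x, y]) :
    AlgebraicIndependent ℂ ![x ^ (1 : ℤ) * y ^ (0 : ℤ), x ^ (0 : ℤ) * y ^ (1 : ℤ)] := by
  simpa using h

theorem ind_swap (Ω : Type) [Field Ω] [Algebra ℂ Ω] (x y : Ω)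
    (h : AlgebraicIndependent ℂ ![x, y]) :
    AlgebraicIndependent ℂ ![x ^ (0 : ℤ) * y ^ (1 : ℤ), x ^ (1 : ℤ) * y ^ (0 : ℤ)] := by
  simpa using pair_symm h

theorem ind_shear (Ω : Type) [Field Ω] [Algebra ℂ Ω] (x y : Ω)
    (h : AlgebraicIndependent ℂ ![x, y]) :
    AlgebraicIndependent ℂ ![x ^ (1 : ℤ) * y ^ (0 : ℤ), x ^ (1 : ℤ) * y ^ (1 : ℤ)] := by
  simpa using pair_mul h

theorem ind_inv (Ω : Type) [Field Ω] [Algebra ℂ Ω] (x y : Ω)
    (h : AlgebraicIndependent ℂ ![x, y]) :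
    AlgebraicIndependent ℂ ![x ^ (-1 : ℤ) * y ^ (0 : ℤ), x ^ (0 : ℤ) * y ^ (-1 : ℤ)] := by
  simpa using pair_inv h

section

variable {ι : Type} [Fintype ι] {n : ℕ} [NeZero n] {f : ι → MvPolynomial (Fin 2) ℂ} {c : ι → ZMod n}

theorem fibre1 (hf : ∀ i, f i ≠ 0) (h : T (fun i => wd (f i) (1, 0) (-1, 0)) c (res f c (-1, 0))
      (res f c (1, 0)) 0 1 + T (fun i => wd (f i) (1, 0) (-1, 0)) c (res f c (-1, 0))
      (res f c (1, 0)) 0 (-1) ≤ 3) : AffineDominatedByCurves n f c := by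
  rw [T_pair, one_mul, one_mul, mul_zero, nz_zero, add_zero] at h
  refine case_fibre_new (d := fun i => wd (f i) (1, 0) (-1, 0)) (p := 1) (q := 0) (r := 0) (s := 1)
    (u := fun i => ordAt (1, 0) (f i)) (v := fun _ => 0)
    (φ := fun i m => ((m 0 : ℤ) - ordAt (1, 0) (f i)).toNat) (ψ := fun _ m => m 1)
    (e := res f c (-1, 0)) ?_ ?_ ind_one ?_ (rel_two hf (by norm_num) (by norm_num)) h
  · intro i m hm
    have h1 := ordAt_le (r := (1, 0)) hm
    simp only at h1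
    rw [Int.toNat_of_nonneg (by linarith)]
    ring
  · intro i m hm
    ring
  · intro i m hm
    have h1 := ordAt_le (r := (1, 0)) hm
    have h2 := ordAt_le (r := (-1, 0)) hm
    have h3 := wd_cast (hf i) (r := (1, 0)) (s := (-1, 0)) (by norm_num) (by norm_num)
    simp only at h1 h2
    omega

theorem fibre2 (hf : ∀ i, f i ≠ 0) (h : T (fun i => wd (f i) (0, 1) (0, -1)) c (res f c (0, -1))
      (res f c (0, 1)) 0 1 + T (fun i => wd (f i) (0, 1) (0, -1)) c (res f c (0, -1))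
      (res f c (0, 1)) 0 (-1) ≤ 3) : AffineDominatedByCurves n f c := by
  rw [T_pair, one_mul, one_mul, mul_zero, nz_zero, add_zero] at h
  refine case_fibre_new (d := fun i => wd (f i) (0, 1) (0, -1)) (p := 0) (q := 1) (r := 1) (s := 0)
    (u := fun i => ordAt (0, 1) (f i)) (v := fun _ => 0)
    (φ := fun i m => ((m 1 : ℤ) - ordAt (0, 1) (f i)).toNat) (ψ := fun _ m => m 0)
    (e := res f c (0, -1)) ?_ ?_ ind_swap ?_ (rel_two hf (by norm_num) (by norm_num)) h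
  · intro i m hm
    have h1 := ordAt_le (r := (0, 1)) hm
    simp only at h1
    rw [Int.toNat_of_nonneg (by linarith)]
    ring
  · intro i m hm
    ring
  · intro i m hm
    have h1 := ordAt_le (r := (0, 1)) hm
    have h2 := ordAt_le (r := (0, -1)) hm
    have h3 := wd_cast (hf i) (r := (0, 1)) (s := (0, -1)) (by norm_num) (by norm_num)
    simp only at h1 h2
    omega

theorem fibre3 (hf : ∀ i, f i ≠ 0) (h : T (fun i => wd (f i) (-1, -1) (1, 1)) c
      (res f c (1, 1)) (res f c (-1, -1)) 0 1 + T (fun i => wd (f i) (-1, -1) (1, 1)) c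
      (res f c (1, 1)) (res f c (-1, -1)) 0 (-1) ≤ 3) : AffineDominatedByCurves n f c := by
  rw [T_pair, one_mul, one_mul, mul_zero, nz_zero, add_zero] at h
  refine case_fibre_new (d := fun i => wd (f i) (-1, -1) (1, 1)) (p := 1) (q := 0) (r := 1)
    (s := 1) (u := fun i => ordAt (1, 1) (f i)) (v := fun _ => 0)
    (φ := fun i m => ((m 0 : ℤ) + m 1 - ordAt (1, 1) (f i)).toNat) (ψ := fun _ m => m 1)
    (e := res f c (-1, -1)) ?_ ?_ ind_shear ?_ ?_ ?_
  · intro i m hm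
    have h1 := ordAt_le (r := (1, 1)) hm
    simp only at h1
    rw [Int.toNat_of_nonneg (by linarith)]
    ring
  · intro i m hm
    ring
  · intro i m hm
    have h1 := ordAt_le (r := (1, 1)) hm
    have h2 := ordAt_le (r := (-1, -1)) hm
    have h3 := wd_cast (hf i) (r := (-1, -1)) (s := (1, 1)) (by norm_num) (by norm_num)
    simp only at h1 h2
    omega
  · have h1 := rel_two (c := c) hf (r := (-1, -1)) (s := (1, 1)) (by norm_num) (by norm_num)
    rw [← h1]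
    unfold res
    ring
  · have h1 : nz (res f c (1, 1)) = nz (∑ i, ordAt (1, 1) (f i) • c i) := rfl
    rw [← h1]
    linarith

theorem planeH (hf : ∀ i, f i ≠ 0) (h : ∀ m, T (fun i => wt (f i) (1, 0) (0, 1) (-1, -1)) c
      (res f c (1, 0)) (res f c (0, 1)) (res f c (-1, -1)) m ≤ 2) :
    AffineDominatedByCurves n f c := by
  refine case_plane_new hf (d := fun i => wt (f i) (1, 0) (0, 1) (-1, -1)) (p := 1) (q := 0)
    (r := 0) (s := 1) (u := fun i => ordAt (1, 0) (f i)) (v := fun i => ordAt (0, 1) (f i))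
    (φ := fun i m => ((m 0 : ℤ) - ordAt (1, 0) (f i)).toNat)
    (ψ := fun i m => ((m 1 : ℤ) - ordAt (0, 1) (f i)).toNat)
    (e := res f c (-1, -1)) ?_ ?_ ind_one ?_ h
  · intro i m hm
    have h1 := ordAt_le (r := (1, 0)) hm
    simp only at h1
    rw [Int.toNat_of_nonneg (by linarith)]
    ring
  · intro i m hm
    have h1 := ordAt_le (r := (0, 1)) hm
    simp only at h1
    rw [Int.toNat_of_nonneg (by linarith)]
    ring
  · intro i m hm
    have h1 := ordAt_le (r := (1, 0)) hm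
    have h2 := ordAt_le (r := (0, 1)) hm
    have h3 := ordAt_le (r := (-1, -1)) hm
    have h4 := wt_cast (hf i) (r := (1, 0)) (s := (0, 1)) (t := (-1, -1)) (by norm_num)
      (by norm_num)
    simp only at h1 h2 h3
    omega

theorem planeK (hf : ∀ i, f i ≠ 0) (h : ∀ m, T (fun i => wt (f i) (-1, 0) (0, -1) (1, 1)) c
      (res f c (-1, 0)) (res f c (0, -1)) (res f c (1, 1)) m ≤ 2) :
    AffineDominatedByCurves n f c := by
  refine case_plane_new hf (d := fun i => wt (f i) (-1, 0) (0, -1) (1, 1)) (p := -1) (q := 0)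
    (r := 0) (s := -1) (u := fun i => ordAt (-1, 0) (f i)) (v := fun i => ordAt (0, -1) (f i))
    (φ := fun i m => (-(m 0 : ℤ) - ordAt (-1, 0) (f i)).toNat)
    (ψ := fun i m => (-(m 1 : ℤ) - ordAt (0, -1) (f i)).toNat)
    (e := res f c (1, 1)) ?_ ?_ ind_inv ?_ h
  · intro i m hm
    have h1 := ordAt_le (r := (-1, 0)) hm
    simp only at h1
    rw [Int.toNat_of_nonneg (by linarith)]
    ring
  · intro i m hm
    have h1 := ordAt_le (r := (0, -1)) hm
    simp only at h1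
    rw [Int.toNat_of_nonneg (by linarith)]
    ring
  · intro i m hm
    have h1 := ordAt_le (r := (-1, 0)) hm
    have h2 := ordAt_le (r := (0, -1)) hm
    have h3 := ordAt_le (r := (1, 1)) hm
    have h4 := wt_cast (hf i) (r := (-1, 0)) (s := (0, -1)) (t := (1, 1)) (by norm_num)
      (by norm_num)
    simp only at h1 h2 h3
    omega

/-- the theorem with the exceptional case -/
theorem main (hf : ∀ i, f i ≠ 0)
    (hpg : ∀ k a b : ℤ, ¬ IsAdjoint n f (fun i => k • c i) a b) :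
    AffineDominatedByCurves n f c ∨
      (T (fun i => wd (f i) (1, 0) (-1, 0)) c (res f c (-1, 0)) (res f c (1, 0)) 0 1 +
        T (fun i => wd (f i) (1, 0) (-1, 0)) c (res f c (-1, 0)) (res f c (1, 0)) 0 (-1) = 4 ∧
      T (fun i => wd (f i) (0, 1) (0, -1)) c (res f c (0, -1)) (res f c (0, 1)) 0 1 +
        T (fun i => wd (f i) (0, 1) (0, -1)) c (res f c (0, -1)) (res f c (0, 1)) 0 (-1) = 4 ∧
      T (fun i => wd (f i) (-1, -1) (1, 1)) c (res f c (1, 1)) (res f c (-1, -1)) 0 1 +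
        T (fun i => wd (f i) (-1, -1) (1, 1)) c (res f c (1, 1)) (res f c (-1, -1)) 0 (-1) = 4 ∧
      T (fun i => wt (f i) (1, 0) (0, 1) (-1, -1)) c (res f c (1, 0)) (res f c (0, 1))
        (res f c (-1, -1)) 1 + T (fun i => wt (f i) (1, 0) (0, 1) (-1, -1)) c (res f c (1, 0))
        (res f c (0, 1)) (res f c (-1, -1)) (-1) = 6 ∧
      T (fun i => wt (f i) (-1, 0) (0, -1) (1, 1)) c (res f c (-1, 0)) (res f c (0, -1))
        (res f c (1, 1)) 1 + T (fun i => wt (f i) (-1, 0) (0, -1) (1, 1)) c (res f c (-1, 0))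
        (res f c (0, -1)) (res f c (1, 1)) (-1) = 6 ∧
      ¬ ∃ p a : ℕ, p.Prime ∧ p ≠ 2 ∧ n = p ^ a) := by
  have rx := rel_two (c := c) hf (r := (1, 0)) (s := (-1, 0)) (by norm_num) (by norm_num)
  have ry := rel_two (c := c) hf (r := (0, 1)) (s := (0, -1)) (by norm_num) (by norm_num)
  have rz := rel_two (c := c) hf (r := (-1, -1)) (s := (1, 1)) (by norm_num) (by norm_num)
  have rh := rel_three (c := c) hf (r := (1, 0)) (s := (0, 1)) (t := (-1, -1)) (by norm_num)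
    (by norm_num)
  have rk := rel_three (c := c) hf (r := (-1, 0)) (s := (0, -1)) (t := (1, 1)) (by norm_num)
    (by norm_num)
  rcases numeric_nef (x := fun i => wd (f i) (1, 0) (-1, 0))
    (y := fun i => wd (f i) (0, 1) (0, -1)) (z := fun i => wd (f i) (-1, -1) (1, 1))
    (h := fun i => wt (f i) (1, 0) (0, 1) (-1, -1))
    (k := fun i => wt (f i) (-1, 0) (0, -1) (1, 1)) (c := c)
    (e₁ := res f c (-1, 0)) (e₂ := res f c (0, -1)) (e₃ := res f c (1, 1))
    (l₁ := res f c (1, 0)) (l₂ := res f c (0, 1)) (l₃ := res f c (-1, -1))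
    (fun i => nef_of (hf i)) rx ry rz rh rk (cond_of hf hpg) with h | h | h | h | h | h
  · exact Or.inl (fibre1 hf h)
  · exact Or.inl (fibre2 hf h)
  · exact Or.inl (fibre3 hf h)
  · exact Or.inl (planeH hf h)
  · exact Or.inl (planeK hf h)
  · exact Or.inr h

end

end Pool.Agent.U866.HX
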