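import Pool.Agent.U866.HX.NoCore

set_option autoImplicit false

/-!
# Residues on the hexagon: arbitrary branch curves
-/

namespace Pool.Agent.U866.HX

open Finset Pool.Agent.U15.DP

theorem sum_units {ι : Type} [Fintype ι] {G : Type*} [AddCommMonoid G] (N : ι → Fin 5 → ℕ)
    (w : Fin 5 → ℕ) (g : ι → G) :
    ∑ a : (i : ι) × (t : Fin 5) × Fin (N i t), w a.2.1 • g a.1 =
      ∑ i, (∑ t, N i t * w t) • g i := by
  rw [Fintype.sum_sigma]
  apply Finset.sum_congr rfl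
  intro i _
  rw [Fintype.sum_sigma, Finset.sum_smul]
  apply Finset.sum_congr rfl
  intro t _
  have h1 : ∀ y : Fin (N i t), w (⟨i, ⟨t, y⟩⟩ : (i : ι) × (t : Fin 5) × Fin (N i t)).2.1 •
      g (⟨i, ⟨t, y⟩⟩ : (i : ι) × (t : Fin 5) × Fin (N i t)).1 = w t • g i := fun _ => rfl
  rw [Finset.sum_congr rfl fun y _ => h1 y, Finset.sum_const, Finset.card_univ,
    Fintype.card_fin, smul_smul]

def xw : Fin 5 → ℕ := ![0, 1, 1, 1, 1]
def yw : Fin 5 → ℕ := ![1, 0, 1, 1, 1]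
def zw : Fin 5 → ℕ := ![1, 1, 0, 1, 1]
def hw : Fin 5 → ℕ := ![1, 1, 1, 1, 2]
def kw : Fin 5 → ℕ := ![1, 1, 1, 2, 1]

theorem nice_w (t : Fin 5) : Nice (xw t) (yw t) (zw t) (hw t) (kw t) := by
  unfold Nice xw yw zw hw kw
  revert t
  decide

/-- the multiplicities of the five generators -/
def mult (x y z h k : ℕ) : Fin 5 → ℕ :=
  if h ≤ k then ![h - x, h - y, h - z, k - h, 0] else ![k - x, k - y, k - z, 0, h - k]

/-- the conditions for a nef class -/
structure Nef (x y z h k : ℕ) : Prop where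
  sum : x + y + z = h + k
  xh : x ≤ h
  yh : y ≤ h
  zh : z ≤ h
  xk : x ≤ k
  yk : y ≤ k
  zk : z ≤ k

variable {x y z h k : ℕ}

theorem mult_x (H : Nef x y z h k) : ∑ t, mult x y z h k t * xw t = x := by
  obtain ⟨h1, h2, h3, h4, h5, h6, h7⟩ := H
  unfold mult xw
  rw [Fin.sum_univ_five]
  split_ifs with h0
  · simp
    omega
  · simp
    omega

theorem mult_y (H : Nef x y z h k) : ∑ t, mult x y z h k t * yw t = y := by
  obtain ⟨h1, h2, h3, h4, h5, h6, h7⟩ := H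
  unfold mult yw
  rw [Fin.sum_univ_five]
  split_ifs with h0
  · simp
    omega
  · simp
    omega

theorem mult_z (H : Nef x y z h k) : ∑ t, mult x y z h k t * zw t = z := by
  obtain ⟨h1, h2, h3, h4, h5, h6, h7⟩ := H
  unfold mult zw
  rw [Fin.sum_univ_five]
  split_ifs with h0
  · simp
    omega
  · simp
    omega

theorem mult_h (H : Nef x y z h k) : ∑ t, mult x y z h k t * hw t = h := by
  obtain ⟨h1, h2, h3, h4, h5, h6, h7⟩ := H
  unfold mult hw
  rw [Fin.sum_univ_five]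
  split_ifs with h0
  · simp
    omega
  · simp
    omega

theorem mult_k (H : Nef x y z h k) : ∑ t, mult x y z h k t * kw t = k := by
  obtain ⟨h1, h2, h3, h4, h5, h6, h7⟩ := H
  unfold mult kw
  rw [Fin.sum_univ_five]
  split_ifs with h0
  · simp
    omega
  · simp
    omega

section

variable {ι : Type} [Fintype ι] {n : ℕ} {x y z h k : ι → ℕ} {c : ι → ZMod n}
  {e₁ e₂ e₃ l₁ l₂ l₃ : ZMod n}

/-- the data with all curves decomposed into the five generators -/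
def nefDat (H : ∀ i, Nef (x i) (y i) (z i) (h i) (k i))
    (rx : ∑ i, x i • c i + e₁ + l₁ = 0) (ry : ∑ i, y i • c i + e₂ + l₂ = 0)
    (rz : ∑ i, z i • c i + e₃ + l₃ = 0) (rh : ∑ i, h i • c i + l₁ + l₂ + l₃ = 0)
    (rk : ∑ i, k i • c i + e₁ + e₂ + e₃ = 0) :
    Dat ((i : ι) × (t : Fin 5) × Fin (mult (x i) (y i) (z i) (h i) (k i) t)) n where
  c := fun a => c a.1
  x := fun a => xw a.2.1
  y := fun a => yw a.2.1
  z := fun a => zw a.2.1
  h := fun a => hw a.2.1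
  k := fun a => kw a.2.1
  e₁ := e₁
  e₂ := e₂
  e₃ := e₃
  l₁ := l₁
  l₂ := l₂
  l₃ := l₃
  nice := fun a => nice_w _
  rx := by
    rw [sum_units (fun i => mult (x i) (y i) (z i) (h i) (k i)) xw c,
      Finset.sum_congr rfl fun i _ => by rw [mult_x (H i)]]
    exact rx
  ry := by
    rw [sum_units (fun i => mult (x i) (y i) (z i) (h i) (k i)) yw c,
      Finset.sum_congr rfl fun i _ => by rw [mult_y (H i)]]
    exact ry
  rz := by
    rw [sum_units (fun i => mult (x i) (y i) (z i) (h i) (k i)) zw c,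
      Finset.sum_congr rfl fun i _ => by rw [mult_z (H i)]]
    exact rz
  rh := by
    rw [sum_units (fun i => mult (x i) (y i) (z i) (h i) (k i)) hw c,
      Finset.sum_congr rfl fun i _ => by rw [mult_h (H i)]]
    exact rh
  rk := by
    rw [sum_units (fun i => mult (x i) (y i) (z i) (h i) (k i)) kw c,
      Finset.sum_congr rfl fun i _ => by rw [mult_k (H i)]]
    exact rk

theorem L_units (N : ι → Fin 5 → ℕ) (w : Fin 5 → ℕ) (c : ι → ZMod n) {x : ι → ℕ}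
    (hx : ∀ i, ∑ t, N i t * w t = x i) (m : ZMod n) :
    L (fun a : (i : ι) × (t : Fin 5) × Fin (N i t) => w a.2.1) (fun a => c a.1) m = L x c m := by
  have h1 := sum_units N w (fun i => fr (m * c i))
  simp only [hx, nsmul_eq_mul] at h1
  exact h1

/-- **the numerical theorem** for arbitrary nef classes -/
theorem numeric_nef [NeZero n] (H : ∀ i, Nef (x i) (y i) (z i) (h i) (k i))
    (rx : ∑ i, x i • c i + e₁ + l₁ = 0) (ry : ∑ i, y i • c i + e₂ + l₂ = 0)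
    (rz : ∑ i, z i • c i + e₃ + l₃ = 0) (rh : ∑ i, h i • c i + l₁ + l₂ + l₃ = 0)
    (rk : ∑ i, k i • c i + e₁ + e₂ + e₃ = 0)
    (hc : ∀ m, T x c e₁ l₁ 0 m ≤ 1 ∨ T y c e₂ l₂ 0 m ≤ 1 ∨ T z c e₃ l₃ 0 m ≤ 1 ∨
      T h c l₁ l₂ l₃ m ≤ 2 ∨ T k c e₁ e₂ e₃ m ≤ 2) :
    T x c e₁ l₁ 0 1 + T x c e₁ l₁ 0 (-1) ≤ 3 ∨ T y c e₂ l₂ 0 1 + T y c e₂ l₂ 0 (-1) ≤ 3 ∨
      T z c e₃ l₃ 0 1 + T z c e₃ l₃ 0 (-1) ≤ 3 ∨ (∀ m, T h c l₁ l₂ l₃ m ≤ 2) ∨
      (∀ m, T k c e₁ e₂ e₃ m ≤ 2) ∨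
      (T x c e₁ l₁ 0 1 + T x c e₁ l₁ 0 (-1) = 4 ∧ T y c e₂ l₂ 0 1 + T y c e₂ l₂ 0 (-1) = 4 ∧
        T z c e₃ l₃ 0 1 + T z c e₃ l₃ 0 (-1) = 4 ∧ T h c l₁ l₂ l₃ 1 + T h c l₁ l₂ l₃ (-1) = 6 ∧
        T k c e₁ e₂ e₃ 1 + T k c e₁ e₂ e₃ (-1) = 6 ∧
        ¬ ∃ p a : ℕ, p.Prime ∧ p ≠ 2 ∧ n = p ^ a) := by
  have tx : ∀ m, (nefDat H rx ry rz rh rk).A m = T x c e₁ l₁ 0 m := by
    intro m
    unfold Dat.A T
    rw [← L_units (fun i => mult (x i) (y i) (z i) (h i) (k i)) xw c (fun i => mult_x (H i))]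
    rfl
  have ty : ∀ m, (nefDat H rx ry rz rh rk).B m = T y c e₂ l₂ 0 m := by
    intro m
    unfold Dat.B T
    rw [← L_units (fun i => mult (x i) (y i) (z i) (h i) (k i)) yw c (fun i => mult_y (H i))]
    rfl
  have tz : ∀ m, (nefDat H rx ry rz rh rk).C m = T z c e₃ l₃ 0 m := by
    intro m
    unfold Dat.C T
    rw [← L_units (fun i => mult (x i) (y i) (z i) (h i) (k i)) zw c (fun i => mult_z (H i))]
    rfl
  have th : ∀ m, (nefDat H rx ry rz rh rk).H m = T h c l₁ l₂ l₃ m := by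
    intro m
    unfold Dat.H T
    rw [← L_units (fun i => mult (x i) (y i) (z i) (h i) (k i)) hw c (fun i => mult_h (H i))]
    rfl
  have tk : ∀ m, (nefDat H rx ry rz rh rk).K m = T k c e₁ e₂ e₃ m := by
    intro m
    unfold Dat.K T
    rw [← L_units (fun i => mult (x i) (y i) (z i) (h i) (k i)) kw c (fun i => mult_k (H i))]
    rfl
  have hC : (nefDat H rx ry rz rh rk).Cond := by
    intro m
    rw [tx, ty, tz, th, tk]
    exact hc m
  rcases (nefDat H rx ry rz rh rk).numeric hC with h | h | h | h | h | h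
  · left
    rwa [tx, tx] at h
  · right; left
    rwa [ty, ty] at h
  · right; right; left
    rwa [tz, tz] at h
  · right; right; right; left
    intro m
    rw [← th]
    exact h m
  · right; right; right; right; left
    intro m
    rw [← tk]
    exact h m
  · right; right; right; right; right
    have hN := Dat.no_core_pow hC h
    unfold Dat.Core at h
    simp only [tx, ty, tz, th, tk] at h
    obtain ⟨h1, h2, h3, h4, h5⟩ := h
    exact ⟨h1, h2, h3, h4, h5, hN⟩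

end

end Pool.Agent.U866.HX
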