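import Pool.Agent.U866.HX.Prime

set_option autoImplicit false

/-!
# No core for odd prime powers
-/

namespace Pool.Agent.U866.HX

open Finset Pool.Agent.U15.DP

namespace Dat

variable {ι : Type} [Fintype ι] {n : ℕ} [NeZero n] {D : Dat ι n}

/-- in the first type there is a mixed curve -/
theorem no_mixed (hc : D.Cond) (hA : 4 ≤ D.A 1 + D.A (-1)) (hB : 4 ≤ D.B 1 + D.B (-1))
    (h1 : D.A 1 ≤ 1) (h2 : D.B (-1) ≤ 1) (hμ : M D.w D.c 1 ≤ 0) : False := by
  classical
  have hn : 0 < n := Nat.pos_of_ne_zero (NeZero.ne n)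
  have hμ0 := M_nonneg D.w D.c 1
  have hL : ∀ m, L D.w D.c m ≤ 0 := by
    intro m
    have g1 := L_le_M D.w D.c m
    have g2 : M D.w D.c 1 = 0 := le_antisymm hμ hμ0
    rw [g2, mul_zero] at g1
    exact g1
  have hal : ∀ m, D.A m + D.B m - D.H m ≤ 1 := by
    intro m
    apply (((D.isI_A m).add (D.isI_B m)).sub (D.isI_H m)).le_of_lt isI_one
    rw [alpha_eq]
    have g1 := L_mono D.g_le D.c m
    have g2 := fr_lt_one (m * D.e₁)
    have g3 := fr_lt_one (m * D.e₂)
    have g4 := fr_nonneg (m * D.l₃)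
    have g5 := hL m
    linarith
  have hbe : ∀ m, D.A m + D.B m - D.K m ≤ 1 := by
    intro m
    apply (((D.isI_A m).add (D.isI_B m)).sub (D.isI_K m)).le_of_lt isI_one
    have g0 := D.dual.alpha_eq m
    rw [dual_A, dual_B, dual_H] at g0
    rw [g0]
    have g1 := L_mono D.dual.g_le D.dual.c m
    have g2 := fr_lt_one (m * D.dual.e₁)
    have g3 := fr_lt_one (m * D.dual.e₂)
    have g4 := fr_nonneg (m * D.dual.l₃)
    have g5 : L D.dual.w D.dual.c m ≤ 0 := hL m
    linarith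
  have H' : ∀ m, D.A m ≤ 1 ∨ D.B m ≤ 1 := by
    intro m
    by_contra hcon
    push Not at hcon
    obtain ⟨g1, g2⟩ := hcon
    have g3 : 2 ≤ D.A m := isI_two.le_of_lt (D.isI_A m) (by linarith)
    have g4 : 2 ≤ D.B m := isI_two.le_of_lt (D.isI_B m) (by linarith)
    have g5 := hal m
    have g6 := hbe m
    have g7 := D.sum_eq m
    rcases hc m with h | h | h | h | h <;> linarith
  have hP : ∀ k : ℕ, D.A ((k : ZMod n) + 1) ≤ 1 ∧ D.B (-((k : ZMod n) + 1)) ≤ 1 := by
    intro k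
    induction k with
    | zero => simpa using ⟨h1, h2⟩
    | succ k ih =>
      obtain ⟨ih1, ih2⟩ := ih
      have f1 := T_add_le D.y D.c D.e₂ D.l₂ 0 (((k + 1 : ℕ) : ZMod n) + 1) (-((k : ZMod n) + 1))
      have f2 : (((k + 1 : ℕ) : ZMod n) + 1) + -((k : ZMod n) + 1) = 1 := by
        push_cast
        ring
      rw [f2] at f1
      have f3 := T_add_le D.x D.c D.e₁ D.l₁ 0 (-(((k + 1 : ℕ) : ZMod n) + 1)) ((k : ZMod n) + 1)
      have f4 : -(((k + 1 : ℕ) : ZMod n) + 1) + ((k : ZMod n) + 1) = -1 := by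
        push_cast
        ring
      rw [f4] at f3
      change D.B 1 ≤ D.B (((k + 1 : ℕ) : ZMod n) + 1) + D.B (-((k : ZMod n) + 1)) at f1
      change D.A (-1) ≤ D.A (-(((k + 1 : ℕ) : ZMod n) + 1)) + D.A ((k : ZMod n) + 1) at f3
      constructor
      · rcases H' (((k + 1 : ℕ) : ZMod n) + 1) with h | h
        · exact h
        · linarith
      · rcases H' (-(((k + 1 : ℕ) : ZMod n) + 1)) with h | h
        · linarith
        · exact h
  have h3 := (hP (2 * n - 2)).1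
  have h4 : ((2 * n - 2 : ℕ) : ZMod n) + 1 = -1 := by
    have h5 : ((2 * n - 2 : ℕ) : ZMod n) + 2 = 0 := by
      have h6 : ((2 * n - 2 + 2 : ℕ) : ZMod n) = 0 := by
        have : 2 * n - 2 + 2 = 2 * n := by omega
        rw [this]
        push_cast
        rw [ZMod.natCast_self, mul_zero]
      rw [← h6]
      push_cast
      ring
    linear_combination h5
  rw [h4] at h3
  linarith

theorem Core.sw12 (h : D.Core) : D.sw12.Core := by
  unfold Core at *
  simp only [sw12_A, sw12_B, sw12_C, sw12_H, sw12_K]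
  tauto

theorem Core.sw23 (h : D.Core) : D.sw23.Core := by
  unfold Core at *
  simp only [sw23_A, sw23_B, sw23_C, sw23_H, sw23_K]
  tauto

theorem no_typeI_full (hn : ∀ k : ZMod n, IsUnit k ∨ IsUnit (k + 1)) (h2 : IsUnit (2 : ZMod n))
    (hc : D.Cond) (hcore : D.Core) (g1 : D.A 1 ≤ 1) (g2 : D.B (-1) ≤ 1) : False :=
  no_typeI hn h2 hc hcore g1 g2 fun hμ =>
    no_mixed hc (by linarith [hcore.1]) (by linarith [hcore.2.1]) g1 g2 hμ

theorem no_typeI' (hn : ∀ k : ZMod n, IsUnit k ∨ IsUnit (k + 1)) (h2 : IsUnit (2 : ZMod n))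
    (hc : D.Cond) (hcore : D.Core) (h1 : D.A 1 ≤ 1) : False := by
  have g1 := D.A_le_H (-1)
  have g2 := D.A_le_K (-1)
  have g3 := hcore.1
  rcases hc (-1) with h | h | h | h | h
  · linarith
  · exact no_typeI_full hn h2 hc hcore h1 h
  · exact no_typeI_full (D := D.sw23) hn h2 hc.sw23 hcore.sw23 h1 h
  · linarith
  · linarith

theorem no_typeI'' (hn : ∀ k : ZMod n, IsUnit k ∨ IsUnit (k + 1)) (h2 : IsUnit (2 : ZMod n))
    (hc : D.Cond) (hcore : D.Core) (h1 : D.A (-1) ≤ 1) : False := by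
  have g1 := D.A_le_H 1
  have g2 := D.A_le_K 1
  have g3 := hcore.1
  rcases hc 1 with h | h | h | h | h
  · linarith
  · exact no_typeI_full (D := D.sw12) hn h2 hc.sw12 hcore.sw12 h h1
  · exact no_typeI_full (D := D.sw23.sw12) hn h2 hc.sw23.sw12 hcore.sw23.sw12 h h1
  · linarith
  · linarith

/-- **for odd prime powers the exceptional case does not occur** -/
theorem no_core (hn : ∀ k : ZMod n, IsUnit k ∨ IsUnit (k + 1)) (h2 : IsUnit (2 : ZMod n))
    (hc : D.Cond) (hcore : D.Core) : False := by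
  have a1 : 1 < D.A 1 := lt_of_not_ge fun h => no_typeI' hn h2 hc hcore h
  have a2 : 1 < D.A (-1) := lt_of_not_ge fun h => no_typeI'' hn h2 hc hcore h
  have b1 : 1 < D.B 1 :=
    lt_of_not_ge fun h => no_typeI' (D := D.sw12) hn h2 hc.sw12 hcore.sw12 h
  have b2 : 1 < D.B (-1) :=
    lt_of_not_ge fun h => no_typeI'' (D := D.sw12) hn h2 hc.sw12 hcore.sw12 h
  have c1 : 1 < D.C 1 := lt_of_not_ge fun h =>
    no_typeI' (D := D.sw23.sw12) hn h2 hc.sw23.sw12 hcore.sw23.sw12 h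
  have c2 : 1 < D.C (-1) := lt_of_not_ge fun h =>
    no_typeI'' (D := D.sw23.sw12) hn h2 hc.sw23.sw12 hcore.sw23.sw12 h
  have A1 : 2 ≤ D.A 1 := isI_two.le_of_lt (D.isI_A _) (by linarith)
  have A2 : 2 ≤ D.A (-1) := isI_two.le_of_lt (D.isI_A _) (by linarith)
  have B1 : 2 ≤ D.B 1 := isI_two.le_of_lt (D.isI_B _) (by linarith)
  have B2 : 2 ≤ D.B (-1) := isI_two.le_of_lt (D.isI_B _) (by linarith)
  have C1 : 2 ≤ D.C 1 := isI_two.le_of_lt (D.isI_C _) (by linarith)
  have C2 : 2 ≤ D.C (-1) := isI_two.le_of_lt (D.isI_C _) (by linarith)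
  obtain ⟨k1, k2, k3, k4, k5⟩ := hcore
  have s1 := D.sum_eq 1
  have s2 := D.sum_eq (-1)
  have d1 := D.A_le_H 1
  have d1' := D.A_le_K 1
  have d4 := D.A_le_H (-1)
  have d4' := D.A_le_K (-1)
  rcases hc 1 with h | h | h | h | h
  · linarith
  · linarith
  · linarith
  · exact no_vp hn h2 hc ⟨k1, k2, k3, k4, k5⟩ isUnit_one
      ⟨by linarith, by linarith, by linarith, by linarith, by linarith⟩
  · exact no_vp hn h2 hc ⟨k1, k2, k3, k4, k5⟩ isUnit_one.neg
      ⟨by linarith, by linarith, by linarith, by linarith, by linarith⟩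

end Dat

/-- the residues modulo an odd prime power -/
theorem unit_or_succ {p a : ℕ} (hp : p.Prime) (k : ZMod (p ^ a)) :
    IsUnit k ∨ IsUnit (k + 1) := by
  haveI : NeZero (p ^ a) := ⟨pow_ne_zero _ hp.ne_zero⟩
  have hk : k = ((k.val : ℕ) : ZMod (p ^ a)) := (ZMod.natCast_zmod_val k).symm
  by_cases h : p ∣ k.val
  · right
    rw [hk]
    have h1 : ((k.val : ℕ) : ZMod (p ^ a)) + 1 = ((k.val + 1 : ℕ) : ZMod (p ^ a)) := by
      push_cast
      ring
    rw [h1, ZMod.isUnit_iff_coprime]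
    apply Nat.Coprime.pow_right
    rw [Nat.coprime_comm, hp.coprime_iff_not_dvd]
    intro h2
    have h3 : p ∣ 1 := (Nat.dvd_add_right h).mp h2
    exact hp.one_lt.ne' (Nat.dvd_one.mp h3)
  · left
    rw [hk, ZMod.isUnit_iff_coprime]
    apply Nat.Coprime.pow_right
    rw [Nat.coprime_comm, hp.coprime_iff_not_dvd]
    exact h

theorem two_unit {p a : ℕ} (hp : p.Prime) (h2 : p ≠ 2) : IsUnit (2 : ZMod (p ^ a)) := by
  have h1 : (2 : ZMod (p ^ a)) = ((2 : ℕ) : ZMod (p ^ a)) := by push_cast; rfl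
  rw [h1, ZMod.isUnit_iff_coprime]
  apply Nat.Coprime.pow_right
  rw [Nat.coprime_primes Nat.prime_two hp]
  exact h2.symm

/-- **no core for odd prime powers** -/
theorem Dat.no_core_pow {ι : Type} [Fintype ι] {n : ℕ} [NeZero n] {D : Dat ι n} (hc : D.Cond)
    (hcore : D.Core) : ¬ ∃ p a : ℕ, p.Prime ∧ p ≠ 2 ∧ n = p ^ a := by
  rintro ⟨p, a, hp, h2, rfl⟩
  exact Dat.no_core (unit_or_succ hp) (two_unit hp h2) hc hcore

end Pool.Agent.U866.HX
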