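import Pool.Agent.U866.HX.Dat

set_option autoImplicit false

/-!
# Residues on the hexagon: the numerical theorem
-/

namespace Pool.Agent.U866.HX

open Finset Pool.Agent.U15.DP

namespace Dat

variable {ι : Type} [Fintype ι] {n : ℕ} (D : Dat ι n)

/-- the curves which meet the members of both of the first two pencils -/
def w (i : ι) : ℕ := D.x i + D.y i - 1

/-- the curves which meet only the members of the first pencil -/
def w1 (i : ι) : ℕ := 1 - D.y i

/-- the curves which meet only the members of the second pencil -/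
def w2 (i : ι) : ℕ := 1 - D.x i

/-- the correction for the lines -/
def g (i : ι) : ℕ := D.x i + D.y i - D.h i

/-- the curves which are not mixed, with opposite signs -/
def S (m : ZMod n) : ℚ := T D.w1 D.c D.e₁ D.l₁ 0 m + T D.w2 D.c D.e₂ D.l₂ 0 (-m)

theorem x_eq (i : ι) : D.x i = D.w1 i + D.w i := by
  have := D.nice i
  unfold Nice at this
  unfold w1 w
  omega

theorem y_eq (i : ι) : D.y i = D.w2 i + D.w i := by
  have := D.nice i
  unfold Nice at this
  unfold w2 w
  omega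

variable [NeZero n] (m : ZMod n)

theorem A_eq : D.A m = T D.w1 D.c D.e₁ D.l₁ 0 m + L D.w D.c m := by
  have h1 : L D.x D.c m = L D.w1 D.c m + L D.w D.c m := by
    rw [← L_add]
    exact L_congr fun i _ => D.x_eq i
  unfold A T
  linarith

theorem B_eq : D.B m = T D.w2 D.c D.e₂ D.l₂ 0 m + L D.w D.c m := by
  have h1 : L D.y D.c m = L D.w2 D.c m + L D.w D.c m := by
    rw [← L_add]
    exact L_congr fun i _ => D.y_eq i
  unfold B T
  linarith

theorem AB_eq : D.A m + D.B (-m) = D.S m + M D.w D.c m := by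
  rw [A_eq, B_eq, ← L_pair]
  unfold S
  ring

theorem A_pair : D.A m + D.A (-m) = T D.w1 D.c D.e₁ D.l₁ 0 m + T D.w1 D.c D.e₁ D.l₁ 0 (-m) +
    M D.w D.c m := by
  rw [A_eq, A_eq, ← L_pair]
  ring

theorem B_pair : D.B m + D.B (-m) = T D.w2 D.c D.e₂ D.l₂ 0 m + T D.w2 D.c D.e₂ D.l₂ 0 (-m) +
    M D.w D.c m := by
  rw [B_eq, B_eq, ← L_pair]
  ring

theorem S_nonneg : 0 ≤ D.S m := by
  unfold S
  have h1 := T_nonneg D.w1 D.c D.e₁ D.l₁ 0 m
  have h2 := T_nonneg D.w2 D.c D.e₂ D.l₂ 0 (-m)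
  linarith

theorem S_add_le (u v : ZMod n) : D.S (u + v) ≤ D.S u + D.S v := by
  unfold S
  have h1 := T_add_le D.w1 D.c D.e₁ D.l₁ 0 u v
  have h2 := T_add_le D.w2 D.c D.e₂ D.l₂ 0 (-u) (-v)
  rw [← neg_add] at h2
  linarith

theorem S_zero : D.S 0 = 0 := by
  unfold S T L
  simp [fr_zero]

theorem S_nat (j : ℕ) : D.S (j : ZMod n) ≤ j * D.S 1 := by
  induction j with
  | zero => simp [S_zero]
  | succ j ih =>
    have := D.S_add_le (j : ZMod n) 1
    push_cast
    linarith

theorem isI_S : IsI (D.S m) := by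
  have h := ((D.isI_A m).add (D.isI_B (-m))).sub (isI_M D.w D.c m)
  rw [AB_eq, add_sub_cancel_right] at h
  exact h

theorem alpha_eq : D.A m + D.B m - D.H m =
    L D.g D.c m + fr (m * D.e₁) + fr (m * D.e₂) - fr (m * D.l₃) := by
  have h1 : L D.x D.c m + L D.y D.c m = L D.h D.c m + L D.g D.c m := by
    rw [← L_add, ← L_add]
    apply L_congr
    intro i _
    have := D.nice i
    unfold Nice at this
    unfold g
    omega
  unfold A B H T
  simp only [mul_zero, fr_zero]
  linarith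

theorem g_le (i : ι) : D.g i ≤ D.w i := by
  have := D.nice i
  unfold Nice at this
  unfold g w
  omega

/-- a correction of two needs two branch curves of the boundary -/
theorem alpha_two {i₀ : ι} (ho : ∀ i, D.c i ≠ 0 → i ≠ i₀ → D.w i = 0)
    (hL : ∀ m, L D.w D.c m = fr (m * D.c i₀)) {m : ZMod n} (h : D.A m + D.B m - D.H m = 2) :
    D.h i₀ = 1 ∧ D.e₁ ≠ 0 ∧ D.e₂ ≠ 0 := by
  rw [alpha_eq] at h
  have h1 := L_mono D.g_le D.c m
  rw [hL] at h1
  have h2 := fr_lt_one (m * D.c i₀)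
  have h3 := fr_lt_one (m * D.e₁)
  have h4 := fr_lt_one (m * D.e₂)
  have h5 := fr_nonneg (m * D.l₃)
  refine ⟨?_, ?_, ?_⟩
  · by_contra hcon
    have h6 : L D.g D.c m = 0 := by
      unfold L
      apply Finset.sum_eq_zero
      intro i _
      by_cases hi : D.c i = 0
      · rw [hi, mul_zero, fr_zero, mul_zero]
      · have h7 : D.g i = 0 := by
          by_cases hii : i = i₀
          · subst hii
            have := D.nice i
            unfold Nice at this
            unfold g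
            omega
          · have := ho i hi hii
            have := D.g_le i
            omega
        rw [h7, Nat.cast_zero, zero_mul]
    linarith
  · intro h6
    rw [h6, mul_zero, fr_zero] at h
    linarith
  · intro h6
    rw [h6, mul_zero, fr_zero] at h
    linarith

/-- the arithmetic of the crossing -/
theorem arith {a b a' b' α β α' β' μ N1 N2 : ℚ} (ia : IsI a) (ib : IsI b) (ia' : IsI a')
    (ib' : IsI b') (iα : IsI α) (iβ : IsI β) (iα' : IsI α') (iβ' : IsI β') (iμ : IsI μ)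
    (iN1 : IsI N1) (iN2 : IsI N2) (h1 : a + b' = 3 + μ) (h2 : a + a' = N1 - 1 + μ)
    (h3 : b + b' = N2 - 1 + μ) (h4 : 0 ≤ μ) (h5 : μ ≤ 1) (h6 : 4 ≤ N1) (h7 : 4 ≤ N2)
    (h8 : 0 ≤ a) (h9 : 0 ≤ b) (h10 : 0 ≤ a') (h11 : 0 ≤ b')
    (h12 : α ≤ 1 + μ) (h13 : β ≤ 1 + μ) (h14 : α' ≤ 1 + μ) (h15 : β' ≤ 1 + μ)
    (h16 : α + α' ≤ 3) (h17 : β + β' ≤ 3)
    (h18 : a ≤ 1 ∨ b ≤ 1 ∨ a + b - α - β ≤ 1 ∨ a + b - α ≤ 2 ∨ a + b - β ≤ 2)
    (h19 : a' ≤ 1 ∨ b' ≤ 1 ∨ a' + b' - α' - β' ≤ 1 ∨ a' + b' - α' ≤ 2 ∨ a' + b' - β' ≤ 2) :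
    N1 = 4 ∧ N2 = 4 ∧ ((α = 2 ∧ β' = 2) ∨ (β = 2 ∧ α' = 2)) := by
  obtain ⟨a, rfl⟩ := ia
  obtain ⟨b, rfl⟩ := ib
  obtain ⟨a', rfl⟩ := ia'
  obtain ⟨b', rfl⟩ := ib'
  obtain ⟨α, rfl⟩ := iα
  obtain ⟨β, rfl⟩ := iβ
  obtain ⟨α', rfl⟩ := iα'
  obtain ⟨β', rfl⟩ := iβ'
  obtain ⟨μ, rfl⟩ := iμ
  obtain ⟨N1, rfl⟩ := iN1
  obtain ⟨N2, rfl⟩ := iN2
  norm_cast at *
  omega

variable {D}

/-- the members of the first pencil have degree at most one at `1` and those of the second
at `-1` -/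
theorem typeI (hc : D.Cond) (hA : 4 ≤ D.A 1 + D.A (-1)) (hB : 4 ≤ D.B 1 + D.B (-1))
    (hC : 4 ≤ D.C 1 + D.C (-1)) (h1 : D.A 1 ≤ 1) (h2 : D.B (-1) ≤ 1) : D.Core := by
  classical
  have hn : 0 < n := Nat.pos_of_ne_zero (NeZero.ne n)
  have hn1 : ((n - 1 : ℕ) : ZMod n) = -1 := by
    rw [Nat.cast_sub hn, ZMod.natCast_self, Nat.cast_one, zero_sub]
  have e1 := D.AB_eq 1
  have e2 := D.AB_eq (-1)
  rw [neg_neg, M_neg] at e2
  have hμ0 := M_nonneg D.w D.c 1
  have hS0 : 1 ≤ D.S 1 := by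
    apply isI_one.le_of_lt (D.isI_S 1)
    by_contra hcon
    push Not at hcon
    have g1 : D.S 1 ≤ 0 := by linarith
    have g2 := D.S_nat (n - 1)
    rw [hn1] at g2
    have g3 : ((n - 1 : ℕ) : ℚ) * D.S 1 ≤ 0 :=
      mul_nonpos_of_nonneg_of_nonpos (Nat.cast_nonneg _) g1
    have g4 := D.S_nonneg 1
    linarith
  have hμ1 : M D.w D.c 1 ≤ 1 := by linarith
  rcases le_or_gt (M D.w D.c 1) 0 with hμ | hμ
  · -- no mixed curve
    exfalso
    have hL : ∀ m, L D.w D.c m ≤ 0 := by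
      intro m
      have g1 := L_le_M D.w D.c m
      have g2 : M D.w D.c 1 = 0 := le_antisymm hμ hμ0
      rw [g2, mul_zero] at g1
      exact g1
    have hal : ∀ m, D.A m + D.B m - D.H m ≤ 1 := by
      intro m
      apply (((D.isI_A m).add (D.isI_B m)).sub (D.isI_H m)).le_of_lt isI_one
      rw [alpha_eq]
      have g1 := L_mono D.g_le D.c m
      have g2 := fr_lt_one (m * D.e₁)
      have g3 := fr_lt_one (m * D.e₂)
      have g4 := fr_nonneg (m * D.l₃)
      have g5 := hL m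
      linarith
    have hbe : ∀ m, D.A m + D.B m - D.K m ≤ 1 := by
      intro m
      apply (((D.isI_A m).add (D.isI_B m)).sub (D.isI_K m)).le_of_lt isI_one
      have g0 := D.dual.alpha_eq m
      rw [dual_A, dual_B, dual_H] at g0
      rw [g0]
      have g1 := L_mono D.dual.g_le D.dual.c m
      have g2 := fr_lt_one (m * D.dual.e₁)
      have g3 := fr_lt_one (m * D.dual.e₂)
      have g4 := fr_nonneg (m * D.dual.l₃)
      have g5 : L D.dual.w D.dual.c m ≤ 0 := hL m
      linarith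
    have H' : ∀ m, D.A m ≤ 1 ∨ D.B m ≤ 1 := by
      intro m
      by_contra hcon
      push Not at hcon
      obtain ⟨g1, g2⟩ := hcon
      have g3 : 2 ≤ D.A m := isI_two.le_of_lt (D.isI_A m) (by linarith)
      have g4 : 2 ≤ D.B m := isI_two.le_of_lt (D.isI_B m) (by linarith)
      have g5 := hal m
      have g6 := hbe m
      have g7 := D.sum_eq m
      rcases hc m with h | h | h | h | h <;> linarith
    have hP : ∀ k : ℕ, D.A ((k : ZMod n) + 1) ≤ 1 ∧ D.B (-((k : ZMod n) + 1)) ≤ 1 := by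
      intro k
      induction k with
      | zero => simpa using ⟨h1, h2⟩
      | succ k ih =>
        obtain ⟨ih1, ih2⟩ := ih
        have f1 := T_add_le D.y D.c D.e₂ D.l₂ 0 (((k + 1 : ℕ) : ZMod n) + 1) (-((k : ZMod n) + 1))
        have f2 : (((k + 1 : ℕ) : ZMod n) + 1) + -((k : ZMod n) + 1) = 1 := by
          push_cast
          ring
        rw [f2] at f1
        have f3 := T_add_le D.x D.c D.e₁ D.l₁ 0 (-(((k + 1 : ℕ) : ZMod n) + 1)) ((k : ZMod n) + 1)
        have f4 : -(((k + 1 : ℕ) : ZMod n) + 1) + ((k : ZMod n) + 1) = -1 := by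
          push_cast
          ring
        rw [f4] at f3
        change D.B 1 ≤ D.B (((k + 1 : ℕ) : ZMod n) + 1) + D.B (-((k : ZMod n) + 1)) at f1
        change D.A (-1) ≤ D.A (-(((k + 1 : ℕ) : ZMod n) + 1)) + D.A ((k : ZMod n) + 1) at f3
        constructor
        · rcases H' (((k + 1 : ℕ) : ZMod n) + 1) with h | h
          · exact h
          · linarith
        · rcases H' (-(((k + 1 : ℕ) : ZMod n) + 1)) with h | h
          · linarith
          · exact h
    have h3 := (hP (2 * n - 2)).1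
    have h4 : ((2 * n - 2 : ℕ) : ZMod n) + 1 = -1 := by
      have h5 : ((2 * n - 2 : ℕ) : ZMod n) + 2 = 0 := by
        have h6 : ((2 * n - 2 + 2 : ℕ) : ZMod n) = 0 := by
          have : 2 * n - 2 + 2 = 2 * n := by omega
          rw [this]
          push_cast
          rw [ZMod.natCast_self, mul_zero]
        rw [← h6]
        push_cast
        ring
      linear_combination h5
    rw [h4] at h3
    linarith
  · -- one mixed curve
    have hμ : M D.w D.c 1 = 1 := by
      have g1 : 1 ≤ M D.w D.c 1 := isI_one.le_of_lt (isI_M D.w D.c 1) (by linarith)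
      linarith
    obtain ⟨i₀, hw, hci, hother, hLM⟩ := exists_index hμ
    have hS1 : D.S 1 = 1 := by linarith
    have hSm1 : 5 ≤ D.S (-1) := by linarith
    have hex : ∃ j : ℕ, 3 ≤ D.S (j : ZMod n) := ⟨n - 1, by rw [hn1]; linarith⟩
    obtain ⟨j, hj3, hj2⟩ : ∃ j : ℕ, 3 ≤ D.S ((j : ZMod n) + 1) ∧ D.S (j : ZMod n) < 3 := by
      have g1 := Nat.find_spec hex
      have g2 : Nat.find hex ≠ 0 := by
        intro h0
        rw [h0, Nat.cast_zero, S_zero] at g1
        linarith
      refine ⟨Nat.find hex - 1, ?_, ?_⟩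
      · have g3 : (((Nat.find hex - 1 : ℕ) : ZMod n) + 1) = ((Nat.find hex : ℕ) : ZMod n) := by
          have g4 : Nat.find hex - 1 + 1 = Nat.find hex := by omega
          conv_rhs => rw [← g4]
          push_cast
          ring
        rw [g3]
        exact g1
      · have g3 := Nat.find_min hex (m := Nat.find hex - 1) (by omega)
        push Not at g3
        exact g3
    set m : ZMod n := (j : ZMod n) + 1 with hm
    have hj2' : D.S (j : ZMod n) ≤ 2 :=
      (D.isI_S _).le_of_lt isI_two (by linarith)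
    have hadd := D.S_add_le (j : ZMod n) 1
    rw [← hm] at hadd
    have hSm : D.S m = 3 := by linarith
    have hSj : D.S (j : ZMod n) = 2 := by linarith
    -- no carry in the last step
    have t1 := T_sub_le D.w1 D.c D.e₁ D.l₁ 0 (j : ZMod n) 1
    have t2 := T_sub_le D.w2 D.c D.e₂ D.l₂ 0 (-(j : ZMod n)) (-1)
    have t3 := T_add_le D.w1 D.c D.e₁ D.l₁ 0 (j : ZMod n) 1
    have t4 := T_add_le D.w2 D.c D.e₂ D.l₂ 0 (-(j : ZMod n)) (-1)
    have hneg : -(j : ZMod n) + -1 = -m := by rw [hm]; ring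
    rw [← hm] at t1 t3
    rw [hneg, neg_neg, neg_neg] at t2
    rw [hneg] at t4
    have hSm' := hSm
    have hSj' := hSj
    have hS1' := hS1
    unfold S at hSm' hSj' hS1'
    have u1 : T D.w1 D.c D.e₁ D.l₁ 0 m + T D.w1 D.c D.e₁ D.l₁ 0 (-m) ≤
        T D.w1 D.c D.e₁ D.l₁ 0 1 + T D.w1 D.c D.e₁ D.l₁ 0 (-1) := by
      rw [T_pair, T_pair]
      have g1 := M_le D.w1 D.c m
      have g2 := nz_mul_le m D.e₁
      have g3 := nz_mul_le m D.l₁
      simp only [one_mul, mul_zero]
      linarith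
    have u2 : T D.w2 D.c D.e₂ D.l₂ 0 m + T D.w2 D.c D.e₂ D.l₂ 0 (-m) ≤
        T D.w2 D.c D.e₂ D.l₂ 0 1 + T D.w2 D.c D.e₂ D.l₂ 0 (-1) := by
      rw [T_pair, T_pair]
      have g1 := M_le D.w2 D.c m
      have g2 := nz_mul_le m D.e₂
      have g3 := nz_mul_le m D.l₂
      simp only [one_mul, mul_zero]
      linarith
    have p1 := D.A_pair m
    have p2 := D.B_pair m
    have p3 := D.A_pair 1
    have p4 := D.B_pair 1
    have p5 := D.AB_eq m
    have hμk0 := M_nonneg D.w D.c m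
    have hμk1 := M_le D.w D.c m
    rw [hμ] at hμk1 p3 p4
    -- the corrections
    have hLw : ∀ m', L D.w D.c m' ≤ M D.w D.c m' := by
      intro m'
      have := L_pair D.w D.c m'
      have g1 : 0 ≤ L D.w D.c (-m') := by
        rw [(hLM _).1]
        exact fr_nonneg _
      linarith
    have hal : ∀ m', D.A m' + D.B m' - D.H m' ≤ 1 + M D.w D.c m' := by
      intro m'
      apply (((D.isI_A m').add (D.isI_B m')).sub (D.isI_H m')).le_of_lt
        (isI_one.add (isI_M D.w D.c m'))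
      rw [alpha_eq]
      have g1 := L_mono D.g_le D.c m'
      have g2 := fr_lt_one (m' * D.e₁)
      have g3 := fr_lt_one (m' * D.e₂)
      have g4 := fr_nonneg (m' * D.l₃)
      have g5 := hLw m'
      linarith
    have hbe : ∀ m', D.A m' + D.B m' - D.K m' ≤ 1 + M D.w D.c m' := by
      intro m'
      apply (((D.isI_A m').add (D.isI_B m')).sub (D.isI_K m')).le_of_lt
        (isI_one.add (isI_M D.w D.c m'))
      have g0 := D.dual.alpha_eq m'
      rw [dual_A, dual_B, dual_H] at g0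
      rw [g0]
      have g1 := L_mono D.dual.g_le D.dual.c m'
      have g2 := fr_lt_one (m' * D.dual.e₁)
      have g3 := fr_lt_one (m' * D.dual.e₂)
      have g4 := fr_nonneg (m' * D.dual.l₃)
      have g5 : L D.dual.w D.dual.c m' ≤ M D.w D.c m' := hLw m'
      linarith
    have hal2 : (D.A m + D.B m - D.H m) + (D.A (-m) + D.B (-m) - D.H (-m)) ≤ 3 := by
      rw [alpha_eq, alpha_eq]
      have g1 := L_pair D.g D.c m
      have g2 : M D.g D.c m ≤ M D.w D.c m := M_mono fun i _ => D.g_le i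
      have g3 := fr_add_fr_neg (m * D.e₁)
      have g4 := fr_add_fr_neg (m * D.e₂)
      have g5 := nz_le_one (m * D.e₁)
      have g6 := nz_le_one (m * D.e₂)
      have g7 := fr_nonneg (m * D.l₃)
      have g8 := fr_nonneg (-m * D.l₃)
      simp only [neg_mul] at *
      linarith
    have hbe2 : (D.A m + D.B m - D.K m) + (D.A (-m) + D.B (-m) - D.K (-m)) ≤ 3 := by
      have g01 := D.dual.alpha_eq m
      have g02 := D.dual.alpha_eq (-m)
      rw [dual_A, dual_B, dual_H] at g01 g02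
      rw [g01, g02]
      have g1 := L_pair D.dual.g D.dual.c m
      have g2 : M D.dual.g D.dual.c m ≤ M D.w D.c m := M_mono fun i _ => D.dual.g_le i
      have g3 := fr_add_fr_neg (m * D.dual.e₁)
      have g4 := fr_add_fr_neg (m * D.dual.e₂)
      have g5 := nz_le_one (m * D.dual.e₁)
      have g6 := nz_le_one (m * D.dual.e₂)
      have g7 := fr_nonneg (m * D.dual.l₃)
      have g8 := fr_nonneg (-m * D.dual.l₃)
      simp only [neg_mul] at *
      linarith
    have s1 := D.sum_eq m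
    have s2 := D.sum_eq (-m)
    have c1 : D.A m ≤ 1 ∨ D.B m ≤ 1 ∨
        D.A m + D.B m - (D.A m + D.B m - D.H m) - (D.A m + D.B m - D.K m) ≤ 1 ∨
        D.A m + D.B m - (D.A m + D.B m - D.H m) ≤ 2 ∨
        D.A m + D.B m - (D.A m + D.B m - D.K m) ≤ 2 := by
      rcases hc m with h | h | h | h | h
      · exact Or.inl h
      · exact Or.inr (Or.inl h)
      · exact Or.inr (Or.inr (Or.inl (by linarith)))
      · exact Or.inr (Or.inr (Or.inr (Or.inl (by linarith))))
      · exact Or.inr (Or.inr (Or.inr (Or.inr (by linarith))))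
    have c2 : D.A (-m) ≤ 1 ∨ D.B (-m) ≤ 1 ∨
        D.A (-m) + D.B (-m) - (D.A (-m) + D.B (-m) - D.H (-m)) -
          (D.A (-m) + D.B (-m) - D.K (-m)) ≤ 1 ∨
        D.A (-m) + D.B (-m) - (D.A (-m) + D.B (-m) - D.H (-m)) ≤ 2 ∨
        D.A (-m) + D.B (-m) - (D.A (-m) + D.B (-m) - D.K (-m)) ≤ 2 := by
      rcases hc (-m) with h | h | h | h | h
      · exact Or.inl h
      · exact Or.inr (Or.inl h)
      · exact Or.inr (Or.inr (Or.inl (by linarith)))
      · exact Or.inr (Or.inr (Or.inr (Or.inl (by linarith))))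
      · exact Or.inr (Or.inr (Or.inr (Or.inr (by linarith))))
    have iA := D.isI_A m
    have iB := D.isI_B m
    have iA' := D.isI_A (-m)
    have iB' := D.isI_B (-m)
    have iH := D.isI_H m
    have iH' := D.isI_H (-m)
    have iK := D.isI_K m
    have iK' := D.isI_K (-m)
    obtain ⟨hN1, hN2, hfin⟩ := arith iA iB iA' iB' ((iA.add iB).sub iH) ((iA.add iB).sub iK)
      ((iA'.add iB').sub iH') ((iA'.add iB').sub iK') (isI_M D.w D.c m)
      ((D.isI_A 1).add (D.isI_A (-1))) ((D.isI_B 1).add (D.isI_B (-1)))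
      (by linarith) (by linarith) (by linarith) hμk0 hμk1 hA hB (D.A_nonneg _) (D.B_nonneg _)
      (D.A_nonneg _) (D.B_nonneg _) (hal m) (hbe m)
      (by have := hal (-m); rwa [M_neg] at this) (by have := hbe (-m); rwa [M_neg] at this)
      hal2 hbe2 c1 c2
    have hkey : (D.h i₀ = 1 ∧ D.e₁ ≠ 0 ∧ D.e₂ ≠ 0) ∧ (D.k i₀ = 1 ∧ D.l₁ ≠ 0 ∧ D.l₂ ≠ 0) := by
      have hLM1 : ∀ m, L D.w D.c m = fr (m * D.c i₀) := fun m => (hLM m).1
      rcases hfin with ⟨g1, g2⟩ | ⟨g1, g2⟩
      · refine ⟨D.alpha_two hother hLM1 g1, D.dual.alpha_two hother hLM1 (m := -m) ?_⟩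
        rw [dual_A, dual_B, dual_H]
        exact g2
      · refine ⟨D.alpha_two hother hLM1 g2, D.dual.alpha_two hother hLM1 (m := m) ?_⟩
        rw [dual_A, dual_B, dual_H]
        exact g1
    obtain ⟨⟨k1, k2, k3⟩, k4, k5, k6⟩ := hkey
    have r1 := hN1
    have r2 := hN2
    unfold A at r1
    unfold B at r2
    rw [T_pair, one_mul, one_mul, mul_zero, nz_zero, nz_of_ne k2, nz_of_ne k5] at r1
    rw [T_pair, one_mul, one_mul, mul_zero, nz_zero, nz_of_ne k3, nz_of_ne k6] at r2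
    have q1 : M D.z D.c 1 + M D.w D.c 1 + M D.w D.c 1 = M D.x D.c 1 + M D.y D.c 1 := by
      rw [← M_add, ← M_add, ← M_add]
      apply M_congr
      intro i hi
      have g1 := D.nice i
      unfold Nice at g1
      by_cases hii : i = i₀
      · subst hii
        unfold w at *
        omega
      · have g2 := hother i hi hii
        unfold w at *
        omega
    have q2 : M D.h D.c 1 + M D.w D.c 1 = M D.x D.c 1 + M D.y D.c 1 := by
      rw [← M_add, ← M_add]
      apply M_congr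
      intro i hi
      have g1 := D.nice i
      unfold Nice at g1
      by_cases hii : i = i₀
      · subst hii
        unfold w at *
        omega
      · have g2 := hother i hi hii
        unfold w at *
        omega
    have q3 : M D.k D.c 1 + M D.w D.c 1 = M D.x D.c 1 + M D.y D.c 1 := by
      rw [← M_add, ← M_add]
      apply M_congr
      intro i hi
      have g1 := D.nice i
      unfold Nice at g1
      by_cases hii : i = i₀
      · subst hii
        unfold w at *
        omega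
      · have g2 := hother i hi hii
        unfold w at *
        omega
    have r3 := hC
    unfold C at r3
    rw [T_pair, one_mul, one_mul, mul_zero, nz_zero] at r3
    have v1 := nz_le_one D.e₃
    have v2 := nz_le_one D.l₃
    have v3 : nz D.e₃ = 1 := by linarith
    have v4 : nz D.l₃ = 1 := by linarith
    refine ⟨hN1, hN2, ?_, ?_, ?_⟩
    · unfold C
      rw [T_pair, one_mul, one_mul, mul_zero, nz_zero]
      linarith
    · unfold H
      rw [T_pair, one_mul, one_mul, one_mul, nz_of_ne k5, nz_of_ne k6]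
      linarith
    · unfold K
      rw [T_pair, one_mul, one_mul, one_mul, nz_of_ne k2, nz_of_ne k3]
      linarith

/-- a pencil of degree at most one at `1` -/
theorem typeI' (hc : D.Cond) (hA : 4 ≤ D.A 1 + D.A (-1)) (hB : 4 ≤ D.B 1 + D.B (-1))
    (hC : 4 ≤ D.C 1 + D.C (-1)) (h1 : D.A 1 ≤ 1) : D.Core := by
  have g1 := D.A_le_H (-1)
  have g2 := D.A_le_K (-1)
  rcases hc (-1) with h | h | h | h | h
  · linarith
  · exact typeI hc hA hB hC h1 h
  · exact Core.of_sw23 (typeI (D := D.sw23) hc.sw23 hA hC hB h1 h)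
  · linarith
  · linarith

/-- a pencil of degree at most one at `-1` -/
theorem typeI'' (hc : D.Cond) (hA : 4 ≤ D.A 1 + D.A (-1)) (hB : 4 ≤ D.B 1 + D.B (-1))
    (hC : 4 ≤ D.C 1 + D.C (-1)) (h1 : D.A (-1) ≤ 1) : D.Core := by
  have g1 := D.A_le_H 1
  have g2 := D.A_le_K 1
  rcases hc 1 with h | h | h | h | h
  · linarith
  · exact Core.of_sw12 (typeI (D := D.sw12) hc.sw12 hB hA hC h h1)
  · exact Core.of_sw23 (Core.of_sw12 (typeI (D := D.sw23.sw12) hc.sw23.sw12 hC hA hB h h1))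
  · linarith
  · linarith

variable (D)

/-- **the numerical theorem** for the plane blown up in three points -/
theorem numeric (hc : D.Cond) : D.A 1 + D.A (-1) ≤ 3 ∨ D.B 1 + D.B (-1) ≤ 3 ∨
    D.C 1 + D.C (-1) ≤ 3 ∨ (∀ m, D.H m ≤ 2) ∨ (∀ m, D.K m ≤ 2) ∨ D.Core := by
  by_contra hcon
  push Not at hcon
  obtain ⟨g1, g2, g3, ⟨m₁, g4⟩, ⟨m₂, g5⟩, g6⟩ := hcon
  have i3 : IsI 4 := ⟨4, by norm_num⟩
  have hA : 4 ≤ D.A 1 + D.A (-1) :=
    i3.le_of_lt ((D.isI_A 1).add (D.isI_A (-1))) (by linarith)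
  have hB : 4 ≤ D.B 1 + D.B (-1) :=
    i3.le_of_lt ((D.isI_B 1).add (D.isI_B (-1))) (by linarith)
  have hC : 4 ≤ D.C 1 + D.C (-1) :=
    i3.le_of_lt ((D.isI_C 1).add (D.isI_C (-1))) (by linarith)
  have a1 : 1 < D.A 1 := lt_of_not_ge fun h => g6 (typeI' hc hA hB hC h)
  have a2 : 1 < D.A (-1) := lt_of_not_ge fun h => g6 (typeI'' hc hA hB hC h)
  have b1 : 1 < D.B 1 :=
    lt_of_not_ge fun h => g6 (Core.of_sw12 (typeI' (D := D.sw12) hc.sw12 hB hA hC h))
  have b2 : 1 < D.B (-1) :=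
    lt_of_not_ge fun h => g6 (Core.of_sw12 (typeI'' (D := D.sw12) hc.sw12 hB hA hC h))
  have c1 : 1 < D.C 1 := lt_of_not_ge fun h => g6 (Core.of_sw23 (Core.of_sw12
    (typeI' (D := D.sw23.sw12) hc.sw23.sw12 hC hA hB h)))
  have c2 : 1 < D.C (-1) := lt_of_not_ge fun h => g6 (Core.of_sw23 (Core.of_sw12
    (typeI'' (D := D.sw23.sw12) hc.sw23.sw12 hC hA hB h)))
  have hH : 4 < D.H 1 + D.H (-1) := by
    by_contra h
    push Not at h
    have := D.typeIV_aux m₁ hc hA hB hC h
    linarith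
  have hK : 4 < D.K 1 + D.K (-1) := by
    by_contra h
    push Not at h
    have := D.dual.typeIV_aux m₂ hc.dual (by rwa [dual_A, dual_A]) (by rwa [dual_B, dual_B])
      (by rwa [dual_C, dual_C]) (by rwa [dual_H, dual_H])
    rw [dual_H] at this
    linarith
  have A1 : 2 ≤ D.A 1 := isI_two.le_of_lt (D.isI_A _) (by linarith)
  have A2 : 2 ≤ D.A (-1) := isI_two.le_of_lt (D.isI_A _) (by linarith)
  have B1 : 2 ≤ D.B 1 := isI_two.le_of_lt (D.isI_B _) (by linarith)
  have B2 : 2 ≤ D.B (-1) := isI_two.le_of_lt (D.isI_B _) (by linarith)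
  have C1 : 2 ≤ D.C 1 := isI_two.le_of_lt (D.isI_C _) (by linarith)
  have C2 : 2 ≤ D.C (-1) := isI_two.le_of_lt (D.isI_C _) (by linarith)
  have s1 := D.sum_eq 1
  have s2 := D.sum_eq (-1)
  have d1 := D.A_le_H 1
  have d2 := D.B_le_H 1
  have d3 := D.C_le_H 1
  have d4 := D.A_le_H (-1)
  have d5 := D.B_le_H (-1)
  have d6 := D.C_le_H (-1)
  have d1' := D.A_le_K 1
  have d2' := D.B_le_K 1
  have d3' := D.C_le_K 1
  have d4' := D.A_le_K (-1)
  have d5' := D.B_le_K (-1)
  have d6' := D.C_le_K (-1)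
  rcases hc 1 with h | h | h | h | h
  · linarith
  · linarith
  · linarith
  · rcases hc (-1) with h' | h' | h' | h' | h'
    · linarith
    · linarith
    · linarith
    · linarith
    · apply g6
      refine ⟨?_, ?_, ?_, ?_, ?_⟩ <;> linarith
  · rcases hc (-1) with h' | h' | h' | h' | h'
    · linarith
    · linarith
    · linarith
    · apply g6
      refine ⟨?_, ?_, ?_, ?_, ?_⟩ <;> linarith
    · linarith

end Dat

end Pool.Agent.U866.HX
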