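import Pool.Agent.U866.HX.Cross

set_option autoImplicit false

/-!
# The exceptional case does not occur for odd prime powers
-/

namespace Pool.Agent.U866.HX

open Finset Pool.Agent.U15.DP

section

variable {ι : Type} [Fintype ι] {n : ℕ}

theorem nz_unit {u : ZMod n} (hu : IsUnit u) (z : ZMod n) : nz (u * z) = nz z := by
  unfold nz
  by_cases h : z = 0
  · rw [h, mul_zero]
  · rw [if_neg h, if_neg]
    intro h0
    exact h ((hu.mul_right_eq_zero).mp h0)

theorem M_unit (w : ι → ℕ) (c : ι → ZMod n) {u : ZMod n} (hu : IsUnit u) :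
    M w c u = M w c 1 := by
  unfold M
  apply Finset.sum_congr rfl
  intro i _
  rw [nz_unit hu, one_mul]

theorem T_unit [NeZero n] (w : ι → ℕ) (c : ι → ZMod n) (p q r : ZMod n) {u : ZMod n}
    (hu : IsUnit u) : T w c p q r u + T w c p q r (-u) = T w c p q r 1 + T w c p q r (-1) := by
  rw [T_pair, T_pair, M_unit w c hu, nz_unit hu, nz_unit hu, nz_unit hu, one_mul, one_mul, one_mul]

end

/-- classification at a unit: small corrections -/
theorem arith_vp {A B C H K A' B' C' H' K' : ℚ} (iA : IsI A) (iB : IsI B) (iC : IsI C) (iH : IsI H)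
    (iK : IsI K) (iA' : IsI A') (iB' : IsI B') (iC' : IsI C') (iH' : IsI H') (iK' : IsI K')
    (a1 : A + A' = 4) (a2 : B + B' = 4) (a3 : C + C' = 4) (a4 : H + H' = 6) (a5 : K + K' = 6)
    (s1 : H + K = A + B + C) (s2 : H' + K' = A' + B' + C')
    (l1 : A ≤ H) (l2 : B ≤ H) (l3 : C ≤ H) (l4 : A ≤ K) (l5 : B ≤ K) (l6 : C ≤ K)
    (l1' : A' ≤ H') (l2' : B' ≤ H') (l3' : C' ≤ H') (l4' : A' ≤ K') (l5' : B' ≤ K') (l6' : C' ≤ K')
    (c1 : A ≤ 1 ∨ B ≤ 1 ∨ C ≤ 1 ∨ H ≤ 2 ∨ K ≤ 2) (c2 : A' ≤ 1 ∨ B' ≤ 1 ∨ C' ≤ 1 ∨ H' ≤ 2 ∨ K' ≤ 2)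
    (g1 : H ≤ A + 1) (g2 : H ≤ B + 1) (g3 : H ≤ C + 1) :
    A = 2 ∧ B = 2 ∧ C = 2 ∧ H = 2 ∧ K = 4 := by
  obtain ⟨A, rfl⟩ := iA
  obtain ⟨B, rfl⟩ := iB
  obtain ⟨C, rfl⟩ := iC
  obtain ⟨H, rfl⟩ := iH
  obtain ⟨K, rfl⟩ := iK
  obtain ⟨A', rfl⟩ := iA'
  obtain ⟨B', rfl⟩ := iB'
  obtain ⟨C', rfl⟩ := iC'
  obtain ⟨H', rfl⟩ := iH'
  obtain ⟨K', rfl⟩ := iK'
  norm_cast at *
  omega

/-- classification at a unit with `S = 1` -/
theorem arith_one {A B C H K A' B' C' H' K' : ℚ} (iA : IsI A) (iB : IsI B) (iC : IsI C)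
    (iH : IsI H) (iK : IsI K) (iA' : IsI A') (iB' : IsI B') (iC' : IsI C') (iH' : IsI H')
    (iK' : IsI K')
    (a1 : A + A' = 4) (a2 : B + B' = 4) (a3 : C + C' = 4) (a4 : H + H' = 6) (a5 : K + K' = 6)
    (s1 : H + K = A + B + C) (s2 : H' + K' = A' + B' + C')
    (l1 : A ≤ H) (l2 : B ≤ H) (l3 : C ≤ H) (l4 : A ≤ K) (l5 : B ≤ K) (l6 : C ≤ K)
    (l1' : A' ≤ H') (l2' : B' ≤ H') (l3' : C' ≤ H') (l4' : A' ≤ K') (l5' : B' ≤ K') (l6' : C' ≤ K')
    (c1 : A ≤ 1 ∨ B ≤ 1 ∨ C ≤ 1 ∨ H ≤ 2 ∨ K ≤ 2) (c2 : A' ≤ 1 ∨ B' ≤ 1 ∨ C' ≤ 1 ∨ H' ≤ 2 ∨ K' ≤ 2)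
    (g1 : A ≤ 1) (g2 : B' ≤ 1) (g3 : A + B' = 2) :
    A = 1 ∧ H = 3 ∧ K = 3 := by
  obtain ⟨A, rfl⟩ := iA
  obtain ⟨B, rfl⟩ := iB
  obtain ⟨C, rfl⟩ := iC
  obtain ⟨H, rfl⟩ := iH
  obtain ⟨K, rfl⟩ := iK
  obtain ⟨A', rfl⟩ := iA'
  obtain ⟨B', rfl⟩ := iB'
  obtain ⟨C', rfl⟩ := iC'
  obtain ⟨H', rfl⟩ := iH'
  obtain ⟨K', rfl⟩ := iK'
  norm_cast at *
  omega

/-- classification at a unit with `S = 2` -/
theorem arith_two {A B C H K A' B' C' H' K' : ℚ} (iA : IsI A) (iB : IsI B) (iC : IsI C)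
    (iH : IsI H) (iK : IsI K) (iA' : IsI A') (iB' : IsI B') (iC' : IsI C') (iH' : IsI H')
    (iK' : IsI K')
    (a1 : A + A' = 4) (a2 : B + B' = 4) (a3 : C + C' = 4) (a4 : H + H' = 6) (a5 : K + K' = 6)
    (s1 : H + K = A + B + C) (s2 : H' + K' = A' + B' + C')
    (l1 : A ≤ H) (l2 : B ≤ H) (l3 : C ≤ H) (l4 : A ≤ K) (l5 : B ≤ K) (l6 : C ≤ K)
    (l1' : A' ≤ H') (l2' : B' ≤ H') (l3' : C' ≤ H') (l4' : A' ≤ K') (l5' : B' ≤ K') (l6' : C' ≤ K')
    (c1 : A ≤ 1 ∨ B ≤ 1 ∨ C ≤ 1 ∨ H ≤ 2 ∨ K ≤ 2) (c2 : A' ≤ 1 ∨ B' ≤ 1 ∨ C' ≤ 1 ∨ H' ≤ 2 ∨ K' ≤ 2)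
    (z1 : 0 ≤ A) (z2 : 0 ≤ B) (z3 : 0 ≤ C)
    (g3 : A + B' = 3) :
    (A = 1 ∨ A = 2) ∧ H = 3 ∧ K = 3 := by
  obtain ⟨A, rfl⟩ := iA
  obtain ⟨B, rfl⟩ := iB
  obtain ⟨C, rfl⟩ := iC
  obtain ⟨H, rfl⟩ := iH
  obtain ⟨K, rfl⟩ := iK
  obtain ⟨A', rfl⟩ := iA'
  obtain ⟨B', rfl⟩ := iB'
  obtain ⟨C', rfl⟩ := iC'
  obtain ⟨H', rfl⟩ := iH'
  obtain ⟨K', rfl⟩ := iK'
  norm_cast at *
  omega

namespace Dat

variable {ι : Type} [Fintype ι] {n : ℕ} [NeZero n] (D : Dat ι n)

/-- all residues multiplied by `u` -/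
def scale (u : ZMod n) : Dat ι n where
  c := fun i => u * D.c i
  x := D.x
  y := D.y
  z := D.z
  h := D.h
  k := D.k
  e₁ := u * D.e₁
  e₂ := u * D.e₂
  e₃ := u * D.e₃
  l₁ := u * D.l₁
  l₂ := u * D.l₂
  l₃ := u * D.l₃
  nice := D.nice
  rx := by
    have h := congrArg (fun t => u * t) D.rx
    simp only [mul_add, mul_zero, Finset.mul_sum, mul_smul_comm] at h
    exact h
  ry := by
    have h := congrArg (fun t => u * t) D.ry
    simp only [mul_add, mul_zero, Finset.mul_sum, mul_smul_comm] at h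
    exact h
  rz := by
    have h := congrArg (fun t => u * t) D.rz
    simp only [mul_add, mul_zero, Finset.mul_sum, mul_smul_comm] at h
    exact h
  rh := by
    have h := congrArg (fun t => u * t) D.rh
    simp only [mul_add, mul_zero, Finset.mul_sum, mul_smul_comm] at h
    exact h
  rk := by
    have h := congrArg (fun t => u * t) D.rk
    simp only [mul_add, mul_zero, Finset.mul_sum, mul_smul_comm] at h
    exact h

omit [NeZero n] in
theorem T_scale (w : ι → ℕ) (c : ι → ZMod n) (p q r u m : ZMod n) :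
    T w (fun i => u * c i) (u * p) (u * q) (u * r) m = T w c p q r (m * u) := by
  unfold T L
  simp only [mul_assoc]

omit [NeZero n] in
theorem T_scale0 (w : ι → ℕ) (c : ι → ZMod n) (p q u m : ZMod n) :
    T w (fun i => u * c i) (u * p) (u * q) 0 m = T w c p q 0 (m * u) := by
  unfold T L
  simp only [mul_assoc, mul_zero]

theorem scale_A (u m : ZMod n) : (D.scale u).A m = D.A (m * u) := T_scale0 _ _ _ _ _ _
theorem scale_B (u m : ZMod n) : (D.scale u).B m = D.B (m * u) := T_scale0 _ _ _ _ _ _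
theorem scale_C (u m : ZMod n) : (D.scale u).C m = D.C (m * u) := T_scale0 _ _ _ _ _ _
theorem scale_H (u m : ZMod n) : (D.scale u).H m = D.H (m * u) := T_scale _ _ _ _ _ _ _
theorem scale_K (u m : ZMod n) : (D.scale u).K m = D.K (m * u) := T_scale _ _ _ _ _ _ _

/-- the type of the class `2 H` -/
def VP (u : ZMod n) : Prop := D.A u = 2 ∧ D.B u = 2 ∧ D.C u = 2 ∧ D.H u = 2 ∧ D.K u = 4

/-- subadditivity of the intersection number with an exceptional curve -/
theorem gap (u v : ZMod n) : D.H (u + v) - D.A (u + v) + nz ((u + v) * D.e₁) ≤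
    (D.H u - D.A u + nz (u * D.e₁)) + (D.H v - D.A v + nz (v * D.e₁)) := by
  have hg : ∀ i, D.h i = D.x i + (D.h i - D.x i) := by
    intro i
    have := D.nice i
    unfold Nice at this
    omega
  have key : ∀ m, D.H m - D.A m + nz (m * D.e₁) =
      T (fun i => D.h i - D.x i) D.c D.l₂ D.l₃ (-D.e₁) m := by
    intro m
    have e1 : L D.h D.c m = L D.x D.c m + L (fun i => D.h i - D.x i) D.c m := by
      rw [← L_add]
      exact L_congr fun i _ => hg i
    have e2 := fr_add_fr_neg (m * D.e₁)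
    unfold H A T
    rw [mul_neg]
    simp only [mul_zero, fr_zero]
    linarith
  rw [key, key, key]
  exact T_add_le _ _ _ _ _ _ _

variable {D}

theorem Core.unitA (hcore : D.Core) {u : ZMod n} (hu : IsUnit u) : D.A u + D.A (-u) = 4 := by
  rw [← hcore.1]
  exact T_unit _ _ _ _ _ hu

theorem Core.unitB (hcore : D.Core) {u : ZMod n} (hu : IsUnit u) : D.B u + D.B (-u) = 4 := by
  rw [← hcore.2.1]
  exact T_unit _ _ _ _ _ hu

theorem Core.unitC (hcore : D.Core) {u : ZMod n} (hu : IsUnit u) : D.C u + D.C (-u) = 4 := by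
  rw [← hcore.2.2.1]
  exact T_unit _ _ _ _ _ hu

theorem Core.unitH (hcore : D.Core) {u : ZMod n} (hu : IsUnit u) : D.H u + D.H (-u) = 6 := by
  rw [← hcore.2.2.2.1]
  exact T_unit _ _ _ _ _ hu

theorem Core.unitK (hcore : D.Core) {u : ZMod n} (hu : IsUnit u) : D.K u + D.K (-u) = 6 := by
  rw [← hcore.2.2.2.2]
  exact T_unit _ _ _ _ _ hu

theorem Core.scale (hcore : D.Core) {u : ZMod n} (hu : IsUnit u) : (D.scale u).Core := by
  unfold Core
  simp only [scale_A, scale_B, scale_C, scale_H, scale_K, one_mul, neg_mul]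
  exact ⟨hcore.unitA hu, hcore.unitB hu, hcore.unitC hu, hcore.unitH hu, hcore.unitK hu⟩

theorem Cond.scale (hc : D.Cond) (u : ZMod n) : (D.scale u).Cond := by
  intro m
  rw [scale_A, scale_B, scale_C, scale_H, scale_K]
  exact hc _

theorem vp_add (hc : D.Cond) (hcore : D.Core) {u v : ZMod n} (hu : IsUnit u) (hv : IsUnit v)
    (huv : IsUnit (u + v)) (h1 : D.VP u) (h2 : D.VP v) : D.VP (u + v) := by
  obtain ⟨u1, u2, u3, u4, u5⟩ := h1
  obtain ⟨v1, v2, v3, v4, v5⟩ := h2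
  have g1 := D.gap u v
  have g2 := D.sw12.gap u v
  have g3 := D.sw23.sw12.gap u v
  simp only [sw12_H, sw12_A, sw23_H, sw23_B] at g2 g3
  rw [nz_unit hu, nz_unit hv, nz_unit huv] at g1 g2 g3
  have k1 := nz_le_one D.e₁
  have k2 := nz_le_one D.sw12.e₁
  have k3 := nz_le_one D.sw23.sw12.e₁
  exact arith_vp (D.isI_A _) (D.isI_B _) (D.isI_C _) (D.isI_H _) (D.isI_K _) (D.isI_A _)
    (D.isI_B _) (D.isI_C _) (D.isI_H _) (D.isI_K _) (hcore.unitA huv) (hcore.unitB huv)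
    (hcore.unitC huv) (hcore.unitH huv) (hcore.unitK huv) (D.sum_eq _) (D.sum_eq _)
    (D.A_le_H _) (D.B_le_H _) (D.C_le_H _) (D.A_le_K _) (D.B_le_K _) (D.C_le_K _)
    (D.A_le_H _) (D.B_le_H _) (D.C_le_H _) (D.A_le_K _) (D.B_le_K _) (D.C_le_K _)
    (hc _) (hc _) (by linarith) (by linarith) (by linarith)

/-- the class `2 H` does not occur at `1` -/
theorem no_vp_one (hn : ∀ k : ZMod n, IsUnit k ∨ IsUnit (k + 1)) (h2 : IsUnit (2 : ZMod n))
    (hc : D.Cond) (hcore : D.Core) (h : D.VP 1) : False := by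
  have hP : ∀ k : ℕ, 1 ≤ k → IsUnit (k : ZMod n) → D.VP (k : ZMod n) := by
    intro k
    induction k using Nat.strong_induction_on with
    | _ k ih =>
      intro hk hku
      have h1u : IsUnit (1 : ZMod n) := isUnit_one
      have hvp2 : D.VP 2 := by
        have := vp_add hc hcore h1u h1u (by rw [one_add_one_eq_two]; exact h2) h h
        rwa [one_add_one_eq_two] at this
      rcases Nat.lt_or_ge k 2 with hk2 | hk2
      · have : k = 1 := by omega
        subst this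
        simpa using h
      rcases Nat.lt_or_ge k 3 with hk3 | hk3
      · have : k = 2 := by omega
        subst this
        simpa using hvp2
      · have e1 : (k : ZMod n) = ((k - 1 : ℕ) : ZMod n) + 1 := by
          have : k - 1 + 1 = k := by omega
          conv_lhs => rw [← this]
          push_cast
          ring
        have e2 : (k : ZMod n) = ((k - 2 : ℕ) : ZMod n) + 2 := by
          have : k - 2 + 2 = k := by omega
          conv_lhs => rw [← this]
          push_cast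
          ring
        have e3 : ((k - 1 : ℕ) : ZMod n) = ((k - 2 : ℕ) : ZMod n) + 1 := by
          have : k - 2 + 1 = k - 1 := by omega
          conv_lhs => rw [← this]
          push_cast
          ring
        rcases hn ((k - 2 : ℕ) : ZMod n) with hu | hu
        · have := vp_add hc hcore hu h2 (by rw [← e2]; exact hku) (ih (k - 2) (by omega)
            (by omega) hu) hvp2
          rwa [← e2] at this
        · rw [← e3] at hu
          have := vp_add hc hcore hu h1u (by rw [← e1]; exact hku) (ih (k - 1) (by omega)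
            (by omega) hu) h
          rwa [← e1] at this
  have hn0 : 0 < n := Nat.pos_of_ne_zero (NeZero.ne n)
  have hm1 : ((2 * n - 1 : ℕ) : ZMod n) = -1 := by
    rw [Nat.cast_sub (by omega)]
    push_cast
    rw [ZMod.natCast_self, mul_zero, zero_sub]
  have h3 := hP (2 * n - 1) (by omega) (by rw [hm1]; exact isUnit_one.neg)
  rw [hm1] at h3
  have := hcore.2.2.2.1
  linarith [h.2.2.2.1, h3.2.2.2.1]

theorem no_vp (hn : ∀ k : ZMod n, IsUnit k ∨ IsUnit (k + 1)) (h2 : IsUnit (2 : ZMod n))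
    (hc : D.Cond) (hcore : D.Core) {u : ZMod n} (hu : IsUnit u) : ¬ D.VP u := by
  intro h
  apply no_vp_one hn h2 (hc.scale u) (hcore.scale hu)
  unfold VP
  rw [scale_A, scale_B, scale_C, scale_H, scale_K, one_mul]
  exact h

/-- the carry of one residue -/
theorem carry (j z : ZMod n) : 0 ≤ fr (j * z) + fr z - fr ((j + 1) * z) ∧
    fr (j * z) + fr z - fr ((j + 1) * z) ≤ 1 ∧
    ((j + 1) * z = 0 → z ≠ 0 → fr (j * z) + fr z - fr ((j + 1) * z) = 1) := by
  have h1 := fr_add_le (j * z) z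
  have e : j * z + z = (j + 1) * z := by ring
  rw [e] at h1
  refine ⟨by linarith, ?_, ?_⟩
  · have h2 := fr_add (j * z) z
    rw [e] at h2
    have h3 := Int.self_sub_floor (fr (j * z) + fr z)
    have h4 := fr_lt_one (j * z)
    have h5 := fr_lt_one z
    have h6 : ⌊fr (j * z) + fr z⌋ < 2 := Int.floor_lt.mpr (by push_cast; linarith)
    have h7 : ((⌊fr (j * z) + fr z⌋ : ℤ) : ℚ) ≤ 1 := by exact_mod_cast (by omega : _ ≤ (1 : ℤ))
    rw [h2]
    linarith
  · intro h2 h3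
    have h4 : j * z = -z := by linear_combination h2
    rw [h2, fr_zero, h4, sub_zero, add_comm, fr_add_fr_neg, nz_of_ne h3]

theorem no_typeI (hn : ∀ k : ZMod n, IsUnit k ∨ IsUnit (k + 1)) (h2 : IsUnit (2 : ZMod n))
    (hc : D.Cond) (hcore : D.Core) (g1 : D.A 1 ≤ 1) (g2 : D.B (-1) ≤ 1)
    (hμ : ¬ M D.w D.c 1 ≤ 0) : False := by
  have hA := hcore.1
  have hB := hcore.2.1
  have hC := hcore.2.2.1
  have hH := hcore.2.2.2.1
  have hK := hcore.2.2.2.2
  rcases cross hc (by linarith) (by linarith) g1 g2 with h0 | ⟨j, m, i₀, X⟩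
  · exact hμ h0
  have hmj := X.hm
  rcases hn j with hj | hm'
  · -- `j` is a unit
    have hM1 : M D.w D.c 1 = 1 := by rw [(X.LM 1).2, one_mul, nz_of_ne X.ci]
    have hMj : M D.w D.c j = 1 := by rw [M_unit _ _ hj, hM1]
    obtain ⟨a1, a2, a3⟩ := arith_one (D.isI_A 1) (D.isI_B 1) (D.isI_C 1) (D.isI_H 1) (D.isI_K 1)
      (D.isI_A (-1)) (D.isI_B (-1)) (D.isI_C (-1)) (D.isI_H (-1)) (D.isI_K (-1)) hA hB hC hH hK
      (D.sum_eq _) (D.sum_eq _) (D.A_le_H _) (D.B_le_H _) (D.C_le_H _) (D.A_le_K _) (D.B_le_K _)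
      (D.C_le_K _) (D.A_le_H _) (D.B_le_H _) (D.C_le_H _) (D.A_le_K _) (D.B_le_K _) (D.C_le_K _)
      (hc _) (hc _) g1 g2 (by have := D.AB_eq 1; rw [X.S1, hM1] at this; linarith)
    obtain ⟨b1, b2, b3⟩ := arith_two (D.isI_A j) (D.isI_B j) (D.isI_C j) (D.isI_H j) (D.isI_K j)
      (D.isI_A (-j)) (D.isI_B (-j)) (D.isI_C (-j)) (D.isI_H (-j)) (D.isI_K (-j))
      (hcore.unitA hj) (hcore.unitB hj) (hcore.unitC hj) (hcore.unitH hj) (hcore.unitK hj)
      (D.sum_eq _) (D.sum_eq _) (D.A_le_H _) (D.B_le_H _) (D.C_le_H _) (D.A_le_K _) (D.B_le_K _)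
      (D.C_le_K _) (D.A_le_H _) (D.B_le_H _) (D.C_le_H _) (D.A_le_K _) (D.B_le_K _) (D.C_le_K _)
      (hc _) (hc _) (D.A_nonneg _) (D.B_nonneg _) (D.C_nonneg _)
      (by have := D.AB_eq j; rw [X.Sj, hMj] at this; linarith)
    obtain ⟨⟨k1, k2, k3⟩, k4, k5, k6⟩ := X.key
    -- the numbers of the curves
    have n1 := X.N1
    have n2 := X.N2
    rw [A_pair, hM1, T_pair, one_mul, one_mul, mul_zero, nz_zero, nz_of_ne k2, nz_of_ne k5] at n1
    rw [B_pair, hM1, T_pair, one_mul, one_mul, mul_zero, nz_zero, nz_of_ne k3, nz_of_ne k6] at n2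
    have m1 := X.n1
    have m2 := X.n2
    rw [T_pair, T_pair, one_mul, one_mul, mul_zero, mul_zero, nz_zero, nz_of_ne k2, nz_of_ne k5]
      at m1
    rw [T_pair, T_pair, one_mul, one_mul, mul_zero, mul_zero, nz_zero, nz_of_ne k3, nz_of_ne k6]
      at m2
    have o1 := M_le D.w1 D.c m
    have o2 := M_le D.w2 D.c m
    have o3 := nz_le_one (m * D.e₁)
    have o4 := nz_le_one (m * D.l₁)
    have o5 := nz_le_one (m * D.e₂)
    have o6 := nz_le_one (m * D.l₂)
    -- the carries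
    have s1 := X.t1
    have s2 := X.t2
    unfold T at s1 s2
    simp only [mul_zero, fr_zero, one_mul, neg_mul] at s1 s2
    have r1 := L_add_le D.w1 D.c j 1
    have r2 := L_add_le D.w2 D.c (-j) (-1)
    have r0 : -j + -1 = -m := by rw [hmj]; ring
    rw [r0] at r2
    have c1 := (carry j D.e₁).1
    have c2 := (carry j D.l₁).1
    rw [← hmj] at c1 c2 r1
    have c3 := fr_add_le (-(j * D.e₂)) (-D.e₂)
    have c4 := fr_add_le (-(j * D.l₂)) (-D.l₂)
    have r3 : -(j * D.e₂) + -D.e₂ = -(m * D.e₂) := by rw [hmj]; ring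
    have r4 : -(j * D.l₂) + -D.l₂ = -(m * D.l₂) := by rw [hmj]; ring
    rw [r3] at c3
    rw [r4] at c4
    -- the second direction
    have p1 := L_pair D.w2 D.c j
    have p2 := L_pair D.w2 D.c 1
    have p3 := L_pair D.w2 D.c m
    rw [M_unit _ _ hj] at p1
    have p4 := fr_add_fr_neg (j * D.e₂)
    have p5 := fr_add_fr_neg D.e₂
    have p6 := fr_add_fr_neg (m * D.e₂)
    have p7 := fr_add_fr_neg (j * D.l₂)
    have p8 := fr_add_fr_neg D.l₂
    have p9 := fr_add_fr_neg (m * D.l₂)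
    rw [nz_unit hj, nz_of_ne k3] at p4
    rw [nz_of_ne k3] at p5
    rw [nz_unit hj, nz_of_ne k6] at p7
    rw [nz_of_ne k6] at p8
    -- the mixed curve
    have c0 := carry j (D.c i₀)
    rw [← hmj] at c0
    have w1 := (X.LM j).1
    have w2 := (X.LM 1).1
    have w3 := (X.LM m).1
    rw [one_mul] at w2
    -- the values at `m`
    have x3 := D.A_eq m
    have x1 := D.A_eq 1
    have x2 := D.A_eq j
    have y0 := X.t1
    have xA : D.A m = D.A j + D.A 1 - (fr (j * D.c i₀) + fr (D.c i₀) - fr (m * D.c i₀)) := by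
      linarith
    have q1 := carry j D.l₃
    have q2 := carry j D.e₃
    rw [← hmj] at q1 q2
    have xH : D.H m = 4 - (fr (j * D.c i₀) + fr (D.c i₀) - fr (m * D.c i₀)) -
        (fr (j * D.l₃) + fr D.l₃ - fr (m * D.l₃)) := by
      have z1 : D.H m = L D.h D.c m + fr (m * D.l₁) + fr (m * D.l₂) + fr (m * D.l₃) := rfl
      have z2 : D.H j = L D.h D.c j + fr (j * D.l₁) + fr (j * D.l₂) + fr (j * D.l₃) := rfl
      have z3 : D.H 1 = L D.h D.c 1 + fr (1 * D.l₁) + fr (1 * D.l₂) + fr (1 * D.l₃) := rfl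
      rw [X.Lh m] at z1
      rw [X.Lh j] at z2
      rw [X.Lh 1, one_mul, one_mul, one_mul] at z3
      linarith
    have xK : D.K m = 4 - (fr (j * D.c i₀) + fr (D.c i₀) - fr (m * D.c i₀)) -
        (fr (j * D.e₃) + fr D.e₃ - fr (m * D.e₃)) := by
      have z1 : D.K m = L D.k D.c m + fr (m * D.e₁) + fr (m * D.e₂) + fr (m * D.e₃) := rfl
      have z2 : D.K j = L D.k D.c j + fr (j * D.e₁) + fr (j * D.e₂) + fr (j * D.e₃) := rfl
      have z3 : D.K 1 = L D.k D.c 1 + fr (1 * D.e₁) + fr (1 * D.e₂) + fr (1 * D.e₃) := rfl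
      rw [X.Lk m] at z1
      rw [X.Lk j] at z2
      rw [X.Lk 1, one_mul, one_mul, one_mul] at z3
      linarith
    have xAm := X.Am
    have q3 := q1.2.1
    have q4 := q2.2.1
    -- the numbers of the third direction
    have hC' := hC
    unfold C at hC'
    rw [T_pair, one_mul, one_mul, mul_zero, nz_zero, X.q1] at hC'
    have f1 := nz_le_one D.e₃
    have f2 := nz_le_one D.l₃
    have f3 : D.e₃ ≠ 0 := by
      intro h
      rw [h, nz_zero] at hC'
      linarith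
    have f4 : D.l₃ ≠ 0 := by
      intro h
      rw [h, nz_zero] at hC'
      linarith
    rcases b1 with b1 | b1
    · rcases X.fin with ⟨h3, -⟩ | ⟨h3, -⟩ <;> linarith
    · have hδ : fr (j * D.c i₀) + fr (D.c i₀) - fr (m * D.c i₀) = 1 := by linarith
      rcases X.fin with ⟨h3, h4⟩ | ⟨h3, h4⟩
      · have h5 : D.K m + D.K (-m) = 3 + 1 + 1 + nz (m * D.e₃) := by
          unfold K
          rw [T_pair, X.Mk m, X.Mm]
          linarith
        have h6 := nz_nonneg (m * D.e₃)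
        have h7 := q2.1
        have h8 : nz (m * D.e₃) = 0 := by linarith
        have h9 : m * D.e₃ = 0 := by
          by_contra hne
          rw [nz_of_ne hne] at h8
          linarith
        have := q2.2.2 h9 f3
        linarith
      · have h5 : D.H m + D.H (-m) = 3 + 1 + 1 + nz (m * D.l₃) := by
          unfold H
          rw [T_pair, X.Mh m, X.Mm]
          linarith
        have h6 := nz_nonneg (m * D.l₃)
        have h7 := q1.1
        have h8 : nz (m * D.l₃) = 0 := by linarith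
        have h9 : m * D.l₃ = 0 := by
          by_contra hne
          rw [nz_of_ne hne] at h8
          linarith
        have := q1.2.2 h9 f4
        linarith
  · -- `m` is a unit
    rw [← hmj] at hm'
    have u1 := hcore.unitH hm'
    have u2 := hcore.unitK hm'
    have s1 := D.sum_eq m
    have s2 := D.sum_eq (-m)
    have v1 := X.Am
    have v2 := X.Bm
    have v3 := X.Am'
    have v4 := X.Bm'
    rcases X.fin with ⟨h3, h4⟩ | ⟨h3, h4⟩
    · exact no_vp hn h2 hc hcore hm' ⟨v1, v2, by linarith, h3, by linarith⟩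
    · exact no_vp hn h2 hc hcore hm'.neg ⟨v3, v4, by linarith, h4, by linarith⟩

end Dat

end Pool.Agent.U866.HX
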